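import Pool.Agent.Q71.MM.Core

/-!
# The action of the group and of the Lie algebra on the components
-/

set_option linter.unusedSectionVars false

namespace Pool.Agent.Q71.MM

open Module Finset Function Pool.Agent.TH118.SG Pool.Agent.TH125.Gal Pool.Agent.Y127.G
  Pool.Agent.Y127.C Pool.Agent.Q71.TM Pool.Agent.Q71.SP Pool.Agent.Q71.AB

variable {K : Type} [Field K] {Γ : Type} [Group Γ]

/-- a character with values in the square roots of one has a kernel of finite index -/
theorem ker_fi (ε : Γ →* Kˣ) (h : ∀ g, ε g * ε g = 1) : ε.ker.FiniteIndex := by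
  classical
  have : NeZero 2 := ⟨by norm_num⟩
  have hfin : Finite ε.range := by
    have h1 : (ε.range : Set Kˣ) ⊆ (rootsOfUnity 2 K : Set Kˣ) := by
      rintro _ ⟨g, rfl⟩
      change ε g ∈ rootsOfUnity _ K
      rw [mem_rootsOfUnity, pow_two]
      exact h g
    have h3 : Finite (rootsOfUnity 2 K) := inferInstance
    have h2 : ((rootsOfUnity 2 K : Subgroup Kˣ) : Set Kˣ).Finite := Set.finite_coe_iff.1 h3
    exact (h2.subset h1).to_subtype
  exact Subgroup.finiteIndex_ker ε

/-- the determinant of a representation as a character -/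
noncomputable def detc (M : FRep K Γ) : Γ →* Kˣ := (LinearMap.det.comp M.ρ).toHomUnits

theorem detc_apply (M : FRep K Γ) (g : Γ) : (detc M g : K) = LinearMap.det (M.ρ g) := rfl

variable {ι : Type} [Fintype ι] [DecidableEq ι] {T : ι → FRep K Γ} {N₀ W : FRep K Γ}
  (d : Dec T N₀ W) {S : Type} [Fintype S] [DecidableEq S]
  (f : MultilinearMap K (fun _ : S => W.V) K) (o : S → Option d.P)

/-- a vector of the component `i` -/
abbrev inc1 (i : ι) (z : (T i).V) : UU T N₀ := (Pi.single i z, 0)

theorem jj_sort {i : ι} {q : Option d.P} (h : IsSort d i q) {x x' : UU T N₀}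
    (hx : x.1 i = x'.1 i) : jj d q x = jj d q x' := by
  cases q with
  | some p =>
    change d.c p = i at h
    subst h
    change d.i p (x.1 (d.c p)) = d.i p (x'.1 (d.c p))
    rw [hx]
  | none => exact absurd h id

theorem jj_notsort {i : ι} {q : Option d.P} (h : ¬IsSort d i q) {x x' : UU T N₀}
    (hx : ∀ j, j ≠ i → x.1 j = x'.1 j) (hx2 : x.2 = x'.2) : jj d q x = jj d q x' := by
  cases q with
  | some p =>
    change ¬d.c p = i at h
    change d.i p (x.1 (d.c p)) = d.i p (x'.1 (d.c p))
    rw [hx _ h]
  | none =>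
    change d.i₀ x.2 = d.i₀ x'.2
    rw [hx2]

theorem jj_inc1 {i : ι} {q : Option d.P} (h : ¬IsSort d i q) (z : (T i).V) :
    jj d q (inc1 i z) = 0 := by
  have h1 := jj_notsort d h (x := inc1 i z) (x' := 0) (fun j hj => by
    change (Pi.single i z : ∀ j, (T j).V) j = 0
    rw [Pi.single_eq_of_ne hj]) rfl
  exact h1.trans (map_zero _)

open Classical in
/-- the combined vector -/
noncomputable def mkv (i : ι) (v : S → UU T N₀) (y : {s // IsSort d i (o s)} → (T i).V) :
    S → UU T N₀ :=
  fun s => if h : IsSort d i (o s) then inc1 i (y ⟨s, h⟩) else v s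

open Classical in
/-- the form in the slots of the sort `i` -/
noncomputable def fsort (i : ι) (v : S → UU T N₀) :
    MultilinearMap K (fun _ : {s // IsSort d i (o s)} => (T i).V) K :=
  ((HH d f o).domDomRestrict (fun s => IsSort d i (o s)) fun s => v s).compLinearMap
    fun _ => LinearMap.inl K _ _ ∘ₗ LinearMap.single K (fun j => (T j).V) i

theorem fsort_apply (i : ι) (v : S → UU T N₀) (y : {s // IsSort d i (o s)} → (T i).V) :
    fsort d f o i v y = HH d f o (mkv d o i v y) := rfl

theorem fsort_self (i : ι) (v : S → UU T N₀) :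
    fsort d f o i v (fun s => (v s).1 i) = HH d f o v := by
  rw [fsort_apply]
  refine HH_congr d f o fun s => ?_
  unfold mkv
  by_cases h : IsSort d i (o s)
  · rw [dif_pos h]
    refine jj_sort d h ?_
    change (Pi.single i ((v s).1 i) : ∀ j, (T j).V) i = _
    rw [Pi.single_eq_same]
  · rw [dif_neg h]

open Classical in
/-- the number of the slots of the sort `i` -/
noncomputable def cnt (i : ι) : ℕ := Fintype.card {s // IsSort d i (o s)}

/-- killed by the skew operators -/
def KillS (B : ∀ j, (T j).V →ₗ[K] (T j).V →ₗ[K] K) : Prop :=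
  ∀ i (Y : Module.End K (T i).V), Skew (B i) Y → ∀ v : S → UU T N₀,
    ∑ s, HH d f o (update v s (inc1 i (Y ((v s).1 i)))) = 0

variable {d f o}

theorem HH_inc1_zero {i : ι} {s : S} (h : ¬IsSort d i (o s)) (v : S → UU T N₀) (z : (T i).V) :
    HH d f o (update v s (inc1 i z)) = 0 := by
  rw [HH_apply]
  refine f.map_coord_zero s ?_
  rw [update_self]
  exact jj_inc1 d h z

theorem sum_sub {S : Type} [Fintype S] {p : S → Prop} [Fintype {s // p s}] (F : S → K)
    (h : ∀ s, ¬p s → F s = 0) : ∑ s, F s = ∑ s : {s // p s}, F s := by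
  classical
  rw [← Finset.sum_subtype (univ.filter p) (by simp) F]
  symm
  refine Finset.sum_filter_of_ne fun s _ hs => ?_
  by_contra hp
  exact hs (h s hp)

theorem KillS.sort {B : ∀ j, (T j).V →ₗ[K] (T j).V →ₗ[K] K} (h : KillS d f o B) (i : ι)
    (v : S → UU T N₀) [Fintype {s // IsSort d i (o s)}] [DecidableEq {s // IsSort d i (o s)}] :
    SkKill (B i) (fsort d f o i v) := by
  classical
  intro Y hY y
  have h1 := h i Y hY (mkv d o i v y)
  rw [sum_sub (p := fun s => IsSort d i (o s)) _ fun s hs => HH_inc1_zero hs _ _] at h1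
  refine Eq.trans (Finset.sum_congr rfl fun s _ => ?_) h1
  rw [fsort_apply]
  refine HH_congr d f o fun x => ?_
  by_cases hx : x = s.1
  · subst hx
    rw [update_self]
    refine jj_sort d s.2 ?_
    unfold mkv
    rw [dif_pos s.2, dif_pos s.2, update_self]
    change (Pi.single i (Y (y s)) : ∀ j, (T j).V) i =
      (Pi.single i (Y ((Pi.single i (y s) : ∀ j, (T j).V) i)) : ∀ j, (T j).V) i
    rw [Pi.single_eq_same, Pi.single_eq_same, Pi.single_eq_same]
  · rw [update_of_ne hx]
    unfold mkv
    by_cases h2 : IsSort d i (o x)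
    · rw [dif_pos h2, dif_pos h2, update_of_ne]
      intro h3
      exact hx (congrArg Subtype.val h3)
    · rw [dif_neg h2, dif_neg h2]

/-- the group acts on the component `i` only -/
def gone (i : ι) (g : Γ) (x : UU T N₀) : UU T N₀ := (update x.1 i ((T i).ρ g (x.1 i)), x.2)

theorem fsort_g (i : ι) (g : Γ) (v : S → UU T N₀) :
    HH d f o (fun s => gone i g (v s)) =
      fsort d f o i v (fun s => (T i).ρ g ((v s).1 i)) := by
  rw [fsort_apply]
  refine HH_congr d f o fun s => ?_
  unfold mkv
  by_cases h : IsSort d i (o s)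
  · rw [dif_pos h]
    refine jj_sort d h ?_
    change update (v s).1 i ((T i).ρ g ((v s).1 i)) i =
      (Pi.single i ((T i).ρ g ((v s).1 i)) : ∀ j, (T j).V) i
    rw [update_self, Pi.single_eq_same]
  · rw [dif_neg h]
    refine jj_notsort d h (fun j hj => ?_) rfl
    change update (v s).1 i ((T i).ρ g ((v s).1 i)) j = _
    rw [update_of_ne hj]

end Pool.Agent.Q71.MM
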