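import Pool.Agent.Q71.MM.Act
import Pool.Agent.Q71.AB.Fin

/-!
# The multipliers of the components
-/

set_option linter.unusedSectionVars false

namespace Pool.Agent.Q71.MM

open Module Finset Function Pool.Agent.TH118.SG Pool.Agent.TH125.Gal Pool.Agent.Y127.G
  Pool.Agent.Y127.C Pool.Agent.Q71.TM Pool.Agent.Q71.SP Pool.Agent.Q71.AB

variable {K : Type} [Field K] [CharZero K] [IsAlgClosed K] {Γ : Type} [Group Γ] {χ : Γ →* Kˣ}
  {ι : Type} [Fintype ι] [DecidableEq ι] {T : ι → FRep K Γ} {N₀ W : FRep K Γ}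
  {d : Dec T N₀ W} {S : Type} [Fintype S] [DecidableEq S]
  {f : MultilinearMap K (fun _ : S => W.V) K} {o : S → Option d.P}
  {l : ι → Loc K Γ} {e : ι → Prop} (hT : ∀ j, MRep (l j) (e j) (T j)) {w : ι → ℤ}
  (hw : ∀ j, (hT j).μ = χ ^ w j) (hev : ∀ j, e j → Even (w j))

include hw hev in
theorem fac (hk : KillS d f o fun j => (hT j).B) (i : ι) : (∀ v, HH d f o v = 0) ∨
    ∃ E : ℤ, 2 * E = w i * (cnt d o i : ℤ) ∧ ∃ Δ : Subgroup Γ, Δ.FiniteIndex ∧ ∀ g ∈ Δ, ∀ v,
      HH d f o (fun s => gone i g (v s)) = ((χ ^ E : Γ →* Kˣ) g : K) * HH d f o v := by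
  classical
  by_cases hi : e i
  · right
    obtain ⟨u, hu⟩ := hev i hi
    let r := finrank K (T i).V
    let ε : Γ →* Kˣ := detc (T i) * (χ ^ (u * (r : ℤ)))⁻¹
    have hε : ∀ g, ε g * ε g = 1 := by
      intro g
      have h1 := det_sq (χ := (hT i).μ) (hT i).nd (hT i).eqv g
      rw [hw i, hu, ← detc_apply] at h1
      have h2 : (detc (T i) g) ^ 2 = ((χ ^ (u + u) : Γ →* Kˣ) g) ^ r := by
        apply Units.ext
        rw [Units.val_pow_eq_pow_val, Units.val_pow_eq_pow_val]
        exact h1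
      change detc (T i) g * ((χ ^ (u * (r : ℤ)) : Γ →* Kˣ) g)⁻¹ *
        (detc (T i) g * ((χ ^ (u * (r : ℤ)) : Γ →* Kˣ) g)⁻¹) = 1
      have h3 : ((χ ^ (u * (r : ℤ)) : Γ →* Kˣ) g) * ((χ ^ (u * (r : ℤ)) : Γ →* Kˣ) g) =
          ((χ ^ (u + u) : Γ →* Kˣ) g) ^ r := by
        change (χ g) ^ (u * (r : ℤ)) * (χ g) ^ (u * (r : ℤ)) = ((χ g) ^ (u + u)) ^ r
        rw [← zpow_natCast, ← zpow_mul, ← zpow_add]
        congr 1
        ring
      have h4 : detc (T i) g * detc (T i) g = ((χ ^ (u * (r : ℤ)) : Γ →* Kˣ) g) *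
          ((χ ^ (u * (r : ℤ)) : Γ →* Kˣ) g) := by
        rw [h3, ← h2, pow_two]
      rw [mul_mul_mul_comm, h4, mul_mul_mul_comm, mul_inv_cancel, one_mul]
    refine ⟨u * (cnt d o i : ℤ), by rw [hu]; ring, ε.ker, ker_fi ε hε, fun g hg v => ?_⟩
    have hdet : LinearMap.det ((T i).ρ g) = ((χ ^ u : Γ →* Kˣ) g : K) ^ r := by
      have h1 : ε g = 1 := hg
      have h2 : detc (T i) g * ((χ ^ (u * (r : ℤ)) : Γ →* Kˣ) g)⁻¹ = 1 := h1
      rw [mul_inv_eq_one] at h2
      rw [← detc_apply, h2, ← Units.val_pow_eq_pow_val]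
      congr 1
      change (χ g) ^ (u * (r : ℤ)) = ((χ g) ^ u) ^ r
      rw [← zpow_natCast, ← zpow_mul]
    rw [fsort_g, so_semi ((hT i).sy hi) (hT i).nd (hk.sort i v) (ν := ((χ ^ u : Γ →* Kˣ) g : K)) ?_
      hdet, fsort_self]
    · congr 1
      rw [← Units.val_pow_eq_pow_val]
      congr 1
      change ((χ g) ^ u) ^ Fintype.card {s // IsSort d i (o s)} = (χ g) ^ (u * (cnt d o i : ℤ))
      rw [zpow_mul, zpow_natCast]
      rfl
    · intro x y
      rw [(hT i).eqv, hw i, hu, ← Units.val_mul]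
      congr 2
      change (χ g) ^ (u + u) = (χ g) ^ u * (χ g) ^ u
      rw [zpow_add]
  · by_cases hc : ∃ a : ℕ, cnt d o i = 2 * a
    · obtain ⟨a, ha⟩ := hc
      right
      refine ⟨w i * a, by rw [ha]; push_cast; ring, ⊤, inferInstance, fun g _ v => ?_⟩
      rcases sp_semi ((hT i).alt hi) (hT i).nd (hk.sort i v) with h | ⟨a', ha', h⟩
      · rw [fsort_g, h, ← fsort_self d f o i v, h, mul_zero]
      · obtain rfl : a' = a := by
          have h3 : 2 * a' = 2 * a := ha'.symm.trans ha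
          omega
        rw [fsort_g, h ((T i).ρ g) ((hT i).μ g : K) ((hT i).eqv g), fsort_self]
        congr 1
        rw [hw i, ← Units.val_pow_eq_pow_val]
        congr 1
        change ((χ g) ^ w i) ^ a' = (χ g) ^ (w i * (a' : ℤ))
        rw [zpow_mul, zpow_natCast]
    · left
      intro v
      rcases sp_semi ((hT i).alt hi) (hT i).nd (hk.sort i v) with h | ⟨a', ha', h⟩
      · rw [← fsort_self d f o i v, h]
      · exact absurd ⟨a', ha'⟩ hc

/-- the group acts on the components in `A` -/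
def gfin (A : Finset ι) (g : Γ) (x : UU T N₀) : UU T N₀ :=
  (fun j => if j ∈ A then (T j).ρ g (x.1 j) else x.1 j, x.2)

include hw hev in
/-- **The multiplier.** -/
theorem facs (hk : KillS d f o fun j => (hT j).B) : (∀ v, HH d f o v = 0) ∨
    ∃ E : ι → ℤ, (∀ i, 2 * E i = w i * (cnt d o i : ℤ)) ∧ ∃ Δ : Subgroup Γ, Δ.FiniteIndex ∧
      ∀ g ∈ Δ, ∀ v, HH d f o (fun s => gfin univ g (v s)) =
        ((χ ^ (∑ i, E i) : Γ →* Kˣ) g : K) * HH d f o v := by
  classical
  by_cases h0 : ∀ v, HH d f o v = 0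
  · exact Or.inl h0
  right
  choose E hE Δ hΔ h using fun i => (fac hT hw hev hk i).resolve_left h0
  refine ⟨E, hE, ⨅ i, Δ i, Subgroup.finiteIndex_iInf hΔ, fun g hg => ?_⟩
  have hg' : ∀ i, g ∈ Δ i := fun i => (Subgroup.mem_iInf.1 hg) i
  have key : ∀ (A : Finset ι) (v : S → UU T N₀), HH d f o (fun s => gfin A g (v s)) =
      ((χ ^ (∑ i ∈ A, E i) : Γ →* Kˣ) g : K) * HH d f o v := by
    intro A
    induction A using Finset.induction_on with
    | empty =>
      intro v
      have h1 : ((χ ^ (∑ i ∈ (∅ : Finset ι), E i) : Γ →* Kˣ) g : K) = 1 := by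
        rw [Finset.sum_empty]
        change (((χ g) ^ (0 : ℤ) : Kˣ) : K) = 1
        rw [zpow_zero, Units.val_one]
      rw [h1, one_mul]
      rfl
    | insert i A hi ih =>
      intro v
      have h1 : (fun s => gfin (insert i A) g (v s)) = fun s => gone i g (gfin A g (v s)) := by
        funext s
        refine Prod.ext (funext fun j => ?_) rfl
        change (if j ∈ insert i A then _ else _) = update (gfin A g (v s)).1 i
          ((T i).ρ g ((gfin A g (v s)).1 i)) j
        by_cases hj : j = i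
        · subst hj
          rw [if_pos (Finset.mem_insert_self _ _), update_self]
          change _ = (T j).ρ g (if j ∈ A then _ else _)
          rw [if_neg hi]
        · rw [update_of_ne hj]
          change _ = (if j ∈ A then _ else _)
          by_cases hA : j ∈ A
          · rw [if_pos (Finset.mem_insert_of_mem hA), if_pos hA]
          · rw [if_neg hA, if_neg]
            rw [Finset.mem_insert]
            rintro (h | h)
            · exact hj h
            · exact hA h
      rw [h1, h i g (hg' i), ih, Finset.sum_insert hi, ← mul_assoc, ← Units.val_mul]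
      congr 2
      change (χ g) ^ (E i) * (χ g) ^ (∑ i ∈ A, E i) = (χ g) ^ (E i + ∑ i ∈ A, E i)
      rw [zpow_add]
  exact key univ

end Pool.Agent.Q71.MM
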