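import Pool.Agent.Q71.MM.Act2

/-!
# The action of the operators on a semi-invariant form
-/

set_option linter.unusedSectionVars false

namespace Pool.Agent.Q71.MM

open Module Finset Function Pool.Agent.TH118.SG Pool.Agent.TH125.Gal Pool.Agent.Y127.G
  Pool.Agent.Y127.C Pool.Agent.Q71.TM Pool.Agent.Q71.SP Pool.Agent.Q71.AB

variable {K : Type} [Field K] {Γ : Type} [Group Γ] {χ : Γ →* Kˣ}
  {ι : Type} [Fintype ι] [DecidableEq ι] {T : ι → FRep K Γ} {N₀ W : FRep K Γ}
  (d : Dec T N₀ W) {S : Type} [Fintype S] [DecidableEq S]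
  (f : MultilinearMap K (fun _ : S => W.V) K) (o : S → Option d.P)

open Classical in
/-- a vector with given components in the slots of `N₀` -/
noncomputable def mk0 (v : S → UU T N₀) (u : {s // o s = none} → N₀.V) : S → UU T N₀ :=
  fun s => if h : o s = none then (0, u ⟨s, h⟩) else v s

open Classical in
/-- the form in the slots of `N₀` -/
noncomputable def f0 (v : S → UU T N₀) :
    MultilinearMap K (fun _ : {s // o s = none} => N₀.V) K :=
  ((HH d f o).domDomRestrict (fun s => o s = none) fun s => v s).compLinearMap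
    fun _ => LinearMap.inr K _ _

theorem f0_apply (v : S → UU T N₀) (u : {s // o s = none} → N₀.V) :
    f0 d f o v u = HH d f o (mk0 d o v u) := rfl

variable {d f o}

theorem jj_none {q : Option d.P} (h : q = none) (x : UU T N₀) : jj d q x = d.i₀ x.2 := by
  subst h
  rfl

theorem jj_some {q : Option d.P} (h : q ≠ none) {x y : UU T N₀} (hxy : x.1 = y.1) :
    jj d q x = jj d q y := by
  cases q with
  | some p =>
    change d.i p (x.1 (d.c p)) = d.i p (y.1 (d.c p))
    rw [hxy]
  | none => exact absurd rfl h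

theorem HH_zero_none {s : S} (h : o s ≠ none) (v : S → UU T N₀) (z : N₀.V) :
    HH d f o (update v s (0, z)) = 0 := by
  rw [HH_apply]
  refine f.map_coord_zero s ?_
  rw [update_self]
  exact (jj_some h (x := ((0, z) : UU T N₀)) (y := 0) rfl).trans (map_zero _)

theorem f0_self (v : S → UU T N₀) : f0 d f o v (fun s => (v s).2) = HH d f o v := by
  rw [f0_apply]
  refine HH_congr d f o fun s => ?_
  unfold mk0
  by_cases h : o s = none
  · rw [dif_pos h, jj_none h, jj_none h]
  · rw [dif_neg h]

theorem f0_semi {n E : ℤ} (hf : SemiZ χ W n f) {Δ : Subgroup Γ} (hΔ : Δ.FiniteIndex)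
    (hE : ∀ g ∈ Δ, ∀ v, HH d f o (fun s => gfin univ g (v s)) =
        ((χ ^ E : Γ →* Kˣ) g : K) * HH d f o v) (v : S → UU T N₀) :
    SemiZ χ N₀ (n - E) (f0 d f o v) := by
  obtain ⟨Δ', hΔ', hf⟩ := hf
  have hfi := d.fi
  refine ⟨Δ ⊓ Δ' ⊓ d.Δ, inferInstance, fun g hg u => ?_⟩
  have h1 : HH d f o (fun s => gU g (mk0 d o v u s)) =
      ((χ ^ n : Γ →* Kˣ) g : K) * f0 d f o v u := by
    rw [f0_apply, HH_apply, HH_apply, ← hf g hg.1.2]
    congr 1
    funext s
    exact jj_gU d hg.2 _ _
  have h2 : HH d f o (fun s => gU g (mk0 d o v u s)) =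
      HH d f o (fun s => gfin univ g (mk0 d o v (fun s => N₀.ρ g (u s)) s)) := by
    refine HH_congr d f o fun s => ?_
    unfold mk0
    by_cases h : o s = none
    · rw [dif_pos h, dif_pos h, jj_none h, jj_none h]
      rfl
    · rw [dif_neg h, dif_neg h]
      refine jj_some h (funext fun j => ?_)
      change (T j).ρ g ((v s).1 j) = if j ∈ univ then _ else _
      rw [if_pos (Finset.mem_univ j)]
  rw [h2, hE g hg.1.1, ← f0_apply] at h1
  have h3 : (((χ ^ E : Γ →* Kˣ) g : Kˣ) : K) ≠ 0 := Units.ne_zero _
  apply mul_left_cancel₀ h3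
  rw [h1, ← mul_assoc, ← Units.val_mul]
  congr 2
  change (χ g) ^ n = (χ g) ^ E * (χ g) ^ (n - E)
  rw [← zpow_add]
  congr 1
  ring

/-- the operator on the common space -/
def XU (X : ∀ j, Module.End K (T j).V) (X₀ : Module.End K N₀.V) (x : UU T N₀) : UU T N₀ :=
  (fun j => X j (x.1 j), X₀ x.2)

theorem XU_eq (X : ∀ j, Module.End K (T j).V) (X₀ : Module.End K N₀.V) (x : UU T N₀) :
    XU X X₀ x = (∑ j, inc1 j (X j (x.1 j))) + (0, X₀ x.2) := by
  have h1 : ∑ j, (inc1 j (X j (x.1 j)) : UU T N₀) = (fun j => X j (x.1 j), 0) := by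
    have h2 := map_sum (LinearMap.inl K (∀ j, (T j).V) N₀.V)
      (fun j => (Pi.single j (X j (x.1 j)) : ∀ j, (T j).V)) univ
    rw [Finset.univ_sum_single (fun j => X j (x.1 j))] at h2
    exact h2.symm
  rw [h1]
  refine Prod.ext ?_ ?_
  · change _ = _ + _
    exact (add_zero _).symm
  · change _ = _ + _
    exact (zero_add _).symm

variable [CharZero K] [IsAlgClosed K]

theorem der_HH {n : ℤ} {lam : K} {B : ∀ j, (T j).V →ₗ[K] (T j).V →ₗ[K] K}
    (hk : KillS d f o B) {w E : ι → ℤ} (hE : ∀ i, 2 * E i = w i * (cnt d o i : ℤ))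
    {X : ∀ j, Module.End K (T j).V} {X₀ : Module.End K N₀.V}
    (hX : ∀ j x y, B j (X j x) y + B j x (X j y) = (w j : K) * lam * B j x y)
    (v : S → UU T N₀) [Fintype {s // o s = none}] [DecidableEq {s // o s = none}]
    (hN : DerBy X₀ (((n - ∑ i, E i : ℤ) : K) * lam) (f0 d f o v)) :
    ∑ s, HH d f o (update v s (XU X X₀ (v s))) = (n : K) * lam * HH d f o v := by
  classical
  have h2 : (2 : K) ≠ 0 := two_ne_zero
  simp only [XU_eq, MultilinearMap.map_update_add, MultilinearMap.map_update_sum,
    Finset.sum_add_distrib]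
  rw [Finset.sum_comm]
  have h3 : ∀ i, ∑ s, HH d f o (update v s (inc1 i (X i ((v s).1 i)))) =
      (E i : K) * lam * HH d f o v := by
    intro i
    let c : K := (w i : K) * lam / 2
    let Y : Module.End K (T i).V := X i - c • LinearMap.id
    have hY : Skew (B i) Y := by
      intro x y
      have h4 := hX i x y
      simp only [Y, LinearMap.sub_apply, LinearMap.smul_apply, LinearMap.id_apply, map_sub,
        map_smul, smul_eq_mul]
      have h5 : c + c = (w i : K) * lam := by
        simp only [c]
        ring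
      rw [← h5] at h4
      linear_combination h4
    have h4 := hk i Y hY v
    have h5 : ∀ s, HH d f o (update v s (inc1 i (Y ((v s).1 i)))) =
        HH d f o (update v s (inc1 i (X i ((v s).1 i)))) -
          c * HH d f o (update v s (inc1 i ((v s).1 i))) := by
      intro s
      have h6 : (inc1 i (Y ((v s).1 i)) : UU T N₀) = inc1 i (X i ((v s).1 i)) -
          c • inc1 i ((v s).1 i) := by
        refine Prod.ext ?_ ?_
        · change (Pi.single i (X i ((v s).1 i) - c • (v s).1 i) : ∀ j, (T j).V) =
            Pi.single i (X i ((v s).1 i)) - c • (Pi.single i ((v s).1 i) : ∀ j, (T j).V)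
          rw [Pi.single_sub, Pi.single_smul]
        · change (0 : N₀.V) = 0 - c • 0
          rw [smul_zero, sub_zero]
      rw [h6, MultilinearMap.map_update_sub, MultilinearMap.map_update_smul, smul_eq_mul]
    simp only [h5, Finset.sum_sub_distrib, ← Finset.mul_sum] at h4
    have h6 : ∑ s, HH d f o (update v s (inc1 i ((v s).1 i))) = (cnt d o i : K) * HH d f o v := by
      rw [sum_sub (p := fun s => IsSort d i (o s)) _ fun s hs => HH_inc1_zero hs _ _]
      have h7 : ∀ s : {s // IsSort d i (o s)}, HH d f o (update v s.1 (inc1 i ((v s.1).1 i))) =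
          HH d f o v := by
        intro s
        refine HH_congr d f o fun x => ?_
        by_cases hx : x = s.1
        · subst hx
          rw [update_self]
          refine jj_sort d s.2 ?_
          change (Pi.single i ((v s.1).1 i) : ∀ j, (T j).V) i = _
          rw [Pi.single_eq_same]
        · rw [update_of_ne hx]
      rw [Finset.sum_congr rfl fun s _ => h7 s, Finset.sum_const, Finset.card_univ, nsmul_eq_mul]
      congr 2
    rw [h6] at h4
    have h8 : (2 : K) * (E i : K) = (w i : K) * (cnt d o i : K) := by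
      have h9 := congrArg (fun z : ℤ => (z : K)) (hE i)
      push_cast at h9
      exact h9
    have h9 : c * (cnt d o i : K) = (E i : K) * lam := by
      apply mul_left_cancel₀ h2
      simp only [c]
      linear_combination -lam * h8
    rw [sub_eq_zero] at h4
    rw [h4, ← mul_assoc, h9]
  rw [Finset.sum_congr rfl fun i _ => h3 i]
  have h4 : ∑ s, HH d f o (update v s (0, X₀ (v s).2)) =
      ((n - ∑ i, E i : ℤ) : K) * lam * HH d f o v := by
    rw [sum_sub (p := fun s => o s = none) _ fun s hs => HH_zero_none hs _ _]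
    have h5 := hN fun s => (v s).2
    rw [f0_self] at h5
    refine Eq.trans (Finset.sum_congr rfl fun s _ => ?_) h5
    rw [f0_apply]
    refine HH_congr d f o fun x => ?_
    unfold mk0
    by_cases hx : x = s.1
    · subst hx
      rw [update_self, dif_pos s.2, update_self]
    · rw [update_of_ne hx]
      by_cases h : o x = none
      · rw [dif_pos h, update_of_ne (fun h' => hx (congrArg Subtype.val h')), jj_none h,
          jj_none h]
      · rw [dif_neg h]
  rw [h4, ← Finset.sum_mul, ← Finset.sum_mul]
  push_cast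
  ring

end Pool.Agent.Q71.MM
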