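import Pool.Agent.Q71.MM.Act3

/-!
# The operators and the semi-invariant forms on a sum; semisimplicity
-/

set_option linter.unusedSectionVars false

namespace Pool.Agent.Q71.MM

open Module Finset Function Pool.Agent.TH118.SG Pool.Agent.TH125.Gal Pool.Agent.Y127.G
  Pool.Agent.Y127.C Pool.Agent.Q71.TM Pool.Agent.Q71.SP Pool.Agent.Q71.AB

variable {K : Type} [Field K] [CharZero K] [IsAlgClosed K] {Γ : Type} [Group Γ] {χ : Γ →* Kˣ}

/-- from `Fin` to any finite set -/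
theorem der_of_fin {N₀ : FRep K Γ} {X₀ : Module.End K N₀.V} {lam : K}
    (hN : ∀ (n : ℤ) (k : ℕ) (G : MultilinearMap K (fun _ : Fin k => N₀.V) K), SemiZ χ N₀ n G →
      DerBy X₀ ((n : K) * lam) G) {n : ℤ} {S : Type} [Fintype S] [DecidableEq S]
    {G : MultilinearMap K (fun _ : S => N₀.V) K} (hG : SemiZ χ N₀ n G) :
    DerBy X₀ ((n : K) * lam) G := by
  classical
  let e := Fintype.equivFin S
  obtain ⟨Δ, hΔ, hG⟩ := hG
  have h1 := hN n _ (G.domDomCongr e) ⟨Δ, hΔ, fun g hg v => hG g hg fun s => v (e s)⟩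
  intro v
  have h2 := h1 fun s => v (e.symm s)
  have h3 : (G.domDomCongr e) (fun s => v (e.symm s)) = G v := by
    change G (fun s => v (e.symm (e s))) = G v
    simp only [Equiv.symm_apply_apply]
  rw [h3] at h2
  refine Eq.trans ?_ h2
  refine Fintype.sum_equiv e _ _ fun s => ?_
  change _ = G (fun x => update (fun s => v (e.symm s)) (e s) (X₀ (v (e.symm (e s)))) (e x))
  congr 1
  funext x
  by_cases hx : x = s
  · subst hx
    rw [update_self, update_self, Equiv.symm_apply_apply]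
  · rw [update_of_ne hx, update_of_ne (fun h => hx (e.injective h)), Equiv.symm_apply_apply]

variable {ι : Type} [Fintype ι] [DecidableEq ι] {T : ι → FRep K Γ} {N₀ W : FRep K Γ} {m : ℕ}
  {M : Fin m → FRep K Γ}

/-- **The operators act on the semi-invariant forms by scalars.** -/
theorem core_der (hgen : SpannedBy M N₀) {l : ι → Loc K Γ} {e : ι → Prop}
    (hT : ∀ j, MRep (l j) (e j) (T j)) {w : ι → ℤ} (hw : ∀ j, (hT j).μ = χ ^ w j)
    (hev : ∀ j, e j → Even (w j))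
    (hiso : ∀ i j, i ≠ j → (e i ↔ e j) → ¬IsoUpTo (T i) (T j))
    (h8 : ∀ i j, j ≠ i → e i → e j → finrank K (T i).V = 8 → finrank K (T j).V = 8 →
      SameLoc (T i) (T j))
    (hpair : ∀ i j, e i → ¬e j → XPair (T i) (T j))
    (hM : ∀ i a, XSmall (e i) (T i) (M a)) (d : Dec T N₀ W) {XW : Module.End K W.V}
    {X : ∀ j, Module.End K (T j).V} {X₀ : Module.End K N₀.V} {lam : K}
    (hX : ∀ j x y, (hT j).B (X j x) y + (hT j).B x (X j y) = (w j : K) * lam * (hT j).B x y)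
    (hr : ∀ p v, d.r p (XW v) = X (d.c p) (d.r p v)) (hr₀ : ∀ v, d.r₀ (XW v) = X₀ (d.r₀ v))
    (hN : ∀ (n : ℤ) (k : ℕ) (G : MultilinearMap K (fun _ : Fin k => N₀.V) K), SemiZ χ N₀ n G →
      DerBy X₀ ((n : K) * lam) G) {n : ℤ} {S : Type} [Fintype S] [DecidableEq S]
    {f : MultilinearMap K (fun _ : S => W.V) K} (hf : SemiZ χ W n f) :
    DerBy XW ((n : K) * lam) f := by
  classical
  obtain ⟨κ, hD⟩ := exists_Dz (N₀ := N₀) hgen hT hw hiso h8 hpair hM
  have hcol : ∀ (o : S → Option d.P) (v : S → W.V),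
      ∑ s, f (fun x => d.pr (o x) (update v s (XW (v s)) x)) =
        (n : K) * lam * f fun x => d.pr (o x) (v x) := by
    intro o v
    have hk : KillS d f o fun j => (hT j).B := by
      intro i Y hY v
      obtain ⟨D, hDG, hDi, hDj, hDb, hDn⟩ := hD i Y hY
      have h1 := kill_HH d M κ χ hf hDG (hDn n) hDj hDb o v
      rw [hDi] at h1
      exact h1
    have h0 : ∀ v : S → W.V, HH d f o (fun s => et d (o s) (v s)) =
        f fun x => d.pr (o x) (v x) := by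
      intro v
      rw [HH_apply]
      congr 1
      funext s
      exact jj_et d _ _
    have h2 : ∀ s, f (fun x => d.pr (o x) (update v s (XW (v s)) x)) =
        HH d f o (update (fun s => et d (o s) (v s)) s (XU X X₀ (et d (o s) (v s)))) := by
      intro s
      rw [← h0]
      refine HH_congr d f o fun x => ?_
      by_cases hx : x = s
      · subst hx
        rw [update_self, update_self]
        cases hox : o x with
        | some p =>
          change d.i p ((Pi.single (d.c p) (d.r p (XW (v x))) : ∀ j, (T j).V) (d.c p)) =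
            d.i p (X (d.c p) ((Pi.single (d.c p) (d.r p (v x)) : ∀ j, (T j).V) (d.c p)))
          rw [Pi.single_eq_same, Pi.single_eq_same, hr]
        | none =>
          change d.i₀ (d.r₀ (XW (v x))) = d.i₀ (X₀ (d.r₀ (v x)))
          rw [hr₀]
      · rw [update_of_ne hx, update_of_ne hx]
    rw [Finset.sum_congr rfl fun s _ => h2 s, ← h0]
    rcases facs hT hw hev hk with h | ⟨E, hE, Δ, hΔ, h⟩
    · rw [h, mul_zero]
      exact Finset.sum_eq_zero fun s _ => h _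
    · exact der_HH hk hE hX _ (der_of_fin hN (f0_semi hf hΔ h _))
  intro v
  have hsum : ∀ v : S → W.V, f v = ∑ o : S → Option d.P, f fun s => d.pr (o s) (v s) := by
    intro v
    have h1 := f.map_sum (fun s (o : Option d.P) => d.pr o (v s))
    refine Eq.trans ?_ h1
    congr 1
    funext s
    exact (d.sum_pr (v s)).symm
  rw [hsum v, Finset.mul_sum, Finset.sum_congr rfl fun s _ => hsum (update v s (XW (v s))),
    Finset.sum_comm]
  exact Finset.sum_congr rfl fun o _ => hcol o v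

/-- every stable subspace has a stable complement, for all sufficiently small subgroups of finite
index -/
def PotSS (M : FRep K Γ) : Prop :=
  ∃ Δ₀ : Subgroup Γ, Δ₀.FiniteIndex ∧ ∀ Δ : Subgroup Γ, Δ.FiniteIndex → Δ ≤ Δ₀ →
    ∀ U : Submodule K M.V, (∀ g ∈ Δ, ∀ x ∈ U, M.ρ g x ∈ U) →
      ∃ C : Submodule K M.V, (∀ g ∈ Δ, ∀ x ∈ C, M.ρ g x ∈ C) ∧ U ⊓ C = ⊥ ∧ U ⊔ C = ⊤

omit [CharZero K] [IsAlgClosed K] in
theorem ss_of_pieces {M : FRep K Γ} {Δ : Subgroup Γ} {Q : Type} (A : Q → Submodule K M.V)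
    (hA : ∀ q, ∀ U : Submodule K M.V, (∀ g ∈ Δ, ∀ x ∈ U, M.ρ g x ∈ U) →
      ∃ C ≤ A q, (∀ g ∈ Δ, ∀ x ∈ C, M.ρ g x ∈ C) ∧ U ⊓ C = ⊥ ∧ A q ≤ U ⊔ C)
    (hsup : ∀ U : Submodule K M.V, (∀ q, A q ≤ U) → U = ⊤) (U : Submodule K M.V)
    (hU : ∀ g ∈ Δ, ∀ x ∈ U, M.ρ g x ∈ U) :
    ∃ C : Submodule K M.V, (∀ g ∈ Δ, ∀ x ∈ C, M.ρ g x ∈ C) ∧ U ⊓ C = ⊥ ∧ U ⊔ C = ⊤ := by
  classical
  let p : ℕ → Prop := fun k => ∃ C : Submodule K M.V, (∀ g ∈ Δ, ∀ x ∈ C, M.ρ g x ∈ C) ∧
    U ⊓ C = ⊥ ∧ finrank K C = finrank K M.V - k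
  have hp : ∃ k, p k := ⟨finrank K M.V, ⊥, fun g _ x hx => by
    rw [Submodule.mem_bot] at hx ⊢
    rw [hx, map_zero], inf_bot_eq _, by rw [finrank_bot, Nat.sub_self]⟩
  obtain ⟨C, hC1, hC2, hC3⟩ := Nat.find_spec hp
  refine ⟨C, hC1, hC2, hsup _ fun q => ?_⟩
  obtain ⟨C', hC'A, hC'1, hC'2, hC'3⟩ := hA q (U ⊔ C) (by
    intro g hg x hx
    obtain ⟨u, hu, c, hc, rfl⟩ := Submodule.mem_sup.1 hx
    rw [map_add]
    exact Submodule.add_mem_sup (hU g hg u hu) (hC1 g hg c hc))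
  have hd : Disjoint U (C ⊔ C') := (disjoint_iff.2 hC2).disjoint_sup_right_of_disjoint_sup_left
    (disjoint_iff.2 hC'2)
  have hCC : Disjoint C C' := (disjoint_iff.2 hC'2).mono_left le_sup_right
  by_cases hC' : C' = ⊥
  · rw [hC', sup_bot_eq] at hC'3
    exact hC'3
  exfalso
  have h1 := Submodule.finrank_sup_add_finrank_inf_eq C C'
  rw [disjoint_iff.1 hCC, finrank_bot, add_zero] at h1
  have h2 : 0 < finrank K C' := Nat.pos_of_ne_zero fun h => hC' (Submodule.finrank_eq_zero.1 h)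
  have h3 : finrank K (C ⊔ C' : Submodule K M.V) ≤ finrank K M.V := Submodule.finrank_le _
  have h4 : p (finrank K M.V - finrank K (C ⊔ C' : Submodule K M.V)) := by
    refine ⟨C ⊔ C', ?_, disjoint_iff.1 hd, by omega⟩
    intro g hg x hx
    obtain ⟨u, hu, c, hc, rfl⟩ := Submodule.mem_sup.1 hx
    rw [map_add]
    exact Submodule.add_mem_sup (hC1 g hg u hu) (hC'1 g hg c hc)
  have h5 := Nat.find_min' hp h4
  have h6 : finrank K C ≤ finrank K M.V := Submodule.finrank_le _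
  omega

omit [CharZero K] [IsAlgClosed K] [Fintype ι] in
theorem ss_dec (d : Dec T N₀ W) (hsi : ∀ j, SI (T j).ρ) (h : PotSS N₀) : PotSS W := by
  classical
  obtain ⟨Δ₀, hΔ₀, h⟩ := h
  have hfi := d.fi
  refine ⟨Δ₀ ⊓ d.Δ, inferInstance, fun Δ hΔ hle U hU => ?_⟩
  refine ss_of_pieces (fun q : Option d.P => q.elim (LinearMap.range d.i₀)
    fun p => LinearMap.range (d.i p)) ?_ ?_ U hU
  · intro q U' hU'
    cases q with
    | some p =>
      change ∃ C ≤ LinearMap.range (d.i p), _ ∧ _ ∧ LinearMap.range (d.i p) ≤ _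
      rcases hsi (d.c p) Δ hΔ (U'.comap (d.i p)) (fun g hg x hx => by
        rw [Submodule.mem_comap] at hx ⊢
        rw [d.i_eqv g (hle hg).2]
        exact hU' g hg _ hx) with h1 | h1
      · refine ⟨LinearMap.range (d.i p), le_rfl, ?_, ?_, le_sup_right⟩
        · rintro g hg _ ⟨x, rfl⟩
          exact ⟨_, d.i_eqv g (hle hg).2 p x⟩
        · rw [Submodule.eq_bot_iff]
          rintro _ ⟨hx, x, rfl⟩
          have h2 : x ∈ U'.comap (d.i p) := hx
          rw [h1, Submodule.mem_bot] at h2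
          rw [h2, map_zero]
      · refine ⟨⊥, bot_le, fun g _ x hx => ?_, inf_bot_eq _, ?_⟩
        · rw [Submodule.mem_bot] at hx ⊢
          rw [hx, map_zero]
        · rw [sup_bot_eq]
          rintro _ ⟨x, rfl⟩
          have h2 : x ∈ U'.comap (d.i p) := by rw [h1]; exact Submodule.mem_top
          exact h2
    | none =>
      change ∃ C ≤ LinearMap.range d.i₀, _ ∧ _ ∧ LinearMap.range d.i₀ ≤ _
      obtain ⟨C, hC1, hC2, hC3⟩ := h Δ hΔ (hle.trans inf_le_left) (U'.comap d.i₀)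
        (fun g hg x hx => by
          rw [Submodule.mem_comap] at hx ⊢
          rw [d.i₀_eqv g (hle hg).2]
          exact hU' g hg _ hx)
      refine ⟨C.map d.i₀, ?_, ?_, ?_, ?_⟩
      · rintro _ ⟨x, -, rfl⟩
        exact ⟨x, rfl⟩
      · rintro g hg _ ⟨x, hx, rfl⟩
        exact ⟨_, hC1 g hg x hx, d.i₀_eqv g (hle hg).2 x⟩
      · rw [Submodule.eq_bot_iff]
        rintro _ ⟨hx, x, hxC, rfl⟩
        have h2 : x ∈ U'.comap d.i₀ ⊓ C := ⟨hx, hxC⟩
        rw [hC2, Submodule.mem_bot] at h2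
        rw [h2, map_zero]
      · rintro _ ⟨x, rfl⟩
        have h2 : x ∈ U'.comap d.i₀ ⊔ C := by rw [hC3]; exact Submodule.mem_top
        obtain ⟨u, hu, c, hc, rfl⟩ := Submodule.mem_sup.1 h2
        rw [map_add]
        exact Submodule.add_mem_sup hu ⟨c, hc, rfl⟩
  · intro U' hU'
    rw [eq_top_iff]
    intro x _
    rw [← d.sum x]
    refine U'.add_mem (hU' none ⟨_, rfl⟩) (U'.sum_mem fun p _ => hU' (some p) ⟨_, rfl⟩)

omit [CharZero K] [IsAlgClosed K] [Fintype ι] in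
theorem ss_conv (d : Dec T N₀ W) (h : PotSS W) : PotSS N₀ := by
  obtain ⟨Δ₀, hΔ₀, h⟩ := h
  have hfi := d.fi
  refine ⟨Δ₀ ⊓ d.Δ, inferInstance, fun Δ hΔ hle U hU => ?_⟩
  obtain ⟨C, hC1, hC2, hC3⟩ := h Δ hΔ (hle.trans inf_le_left) (U.map d.i₀) (by
    rintro g hg _ ⟨x, hx, rfl⟩
    exact ⟨_, hU g hg x hx, d.i₀_eqv g (hle hg).2 x⟩)
  refine ⟨C.comap d.i₀, ?_, ?_, ?_⟩
  · intro g hg x hx
    rw [Submodule.mem_comap] at hx ⊢
    rw [d.i₀_eqv g (hle hg).2]
    exact hC1 g hg _ hx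
  · rw [Submodule.eq_bot_iff]
    rintro x ⟨hx, hxC⟩
    have h2 : d.i₀ x ∈ U.map d.i₀ ⊓ C := ⟨⟨x, hx, rfl⟩, hxC⟩
    rw [hC2, Submodule.mem_bot] at h2
    rw [← d.ri₀ x, h2, map_zero]
  · rw [eq_top_iff]
    intro x _
    have h2 : d.i₀ x ∈ U.map d.i₀ ⊔ C := by rw [hC3]; exact Submodule.mem_top
    obtain ⟨_, ⟨u, hu, rfl⟩, c, hc, h3⟩ := Submodule.mem_sup.1 h2
    have h4 : c = d.i₀ (x - u) := by rw [map_sub, ← h3, add_sub_cancel_left]
    have h5 : x - u ∈ C.comap d.i₀ := by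
      rw [Submodule.mem_comap, ← h4]
      exact hc
    rw [← add_sub_cancel u x]
    exact Submodule.add_mem_sup hu h5

end Pool.Agent.Q71.MM
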