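import Pool.Agent.Q71.MM.P1

/-!
# Families of motives with local conditions: definitions
-/

set_option autoImplicit false

namespace Pool.Agent.Q71.MM.P

open Module Function Pool.Agent.Y127.G Pool.Agent.Q71.AB.P

/-- a direct sum of Tate motives: there is a basis of eigenvectors, on which the Galois group acts by
powers of `χ`, and the Lie algebra by the multiples of `t` -/
def TateBasis {K : Type} [Field K] {V : Type} [AddCommGroup V] [Module K V] {Γ : Type} [Group Γ]
    {L : Type} (χ : Γ →* Kˣ) (t : L → K) (r : Γ → V → V) (x : L → V → V) : Prop :=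
  ∃ (ι : Type) (_ : Finite ι) (b : Basis ι K V) (m : ι → ℤ),
    (∀ g i, r g (b i) = ((χ g ^ m i : Kˣ) : K) • b i) ∧ ∀ a i, x a (b i) = ((m i : K) * t a) • b i

variable {K : Type} [Field K] {Γ : Type} [Group Γ] {L : Type} {J : Type}

/-- a direct sum of Tate motives -/
def TateSum (χ : Γ →* Kˣ) (t : L → K) (N : Mot K Γ L) : Prop := TateBasis χ t (act N.rep) (lact N)

/-- the character has infinite order on all subgroups of finite index -/
def InfiniteOrder (χ : Γ →* Kˣ) : Prop :=
  ∀ Δ : Subgroup Γ, Δ.FiniteIndex → ∀ n : ℤ, (∀ g ∈ Δ, χ g ^ n = 1) → n = 0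

/-- Two motives `T i` and `T j` with `i ≠ j` and weights of the same parity are not isomorphic up to a
twist, and the ranks for even weights are not by one larger than those for odd weights. -/
structure Distinct (w : J → ℤ) (T : J → Mot K Γ L) : Prop where
  distinct : ∀ i j, i ≠ j → (Even (w i) ↔ Even (w j)) →
    ¬TwistIso K (act (T i).rep) (act (T j).rep)
  mixed : ∀ i j, Even (w i) → ¬Even (w j) → dim (T i).rep ≠ dim (T j).rep + 1

/-- Pure motives `T j` of weight `w j`. If `w j` is odd then some element of `Γ` (in the inertia group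
of a place) acts on `T j` by a transvection; if `w j` is even then the rank of `T j` is `3` or at
least `5`, and some element acts like a maximal degeneration (type III). (Two `T j` with even weights
and rank `8` have a common such element.) -/
structure InertiaFamily (χ : Γ →* Kˣ) (t : L → K) (w : J → ℤ) (T : J → Mot K Γ L) :
    Prop extends Distinct w T where
  pure : ∀ j, IsPure χ t (w j) (act (T j).rep) (T j).lie
  odd : ∀ j, ¬Even (w j) → ∃ g : Γ, Transvection (op (T j).rep g)
  even : ∀ j, Even (w j) → (dim (T j).rep = 3 ∨ 5 ≤ dim (T j).rep) ∧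
    ∃ g : Γ, TypeIII (op (T j).rep g)
  eight : ∀ i j, i ≠ j → Even (w i) → Even (w j) → dim (T i).rep = 8 → dim (T j).rep = 8 →
    ∃ g : Γ, TypeIII (op (T i).rep g) ∧ TypeIII (op (T j).rep g)

/-- Some `g` acts on `T` like a maximal degeneration and on `U` with `(g - 1) ^ 2 = 0`, and
`(rank (g - 1)) ^ 2 + 2 < dim T`. -/
def MildSmall (T U : FRep K Γ) : Prop :=
  ∃ g : Γ, TypeIII (op T g) ∧ (∀ x, dif (op U g) (dif (op U g) x) = 0) ∧
    rk (dif (op U g)) ^ 2 + 2 < dim T

/-- `U` is small with respect to `T`, of weight `w` -/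
def InertiaSmall (w : ℤ) (T U : FRep K Γ) : Prop :=
  FormSmall w T U ∨ (Even w ∧ MildSmall T U) ∨ (¬Even w ∧ SmallInertia T U)

/-- `F` acts on `T` with the slopes `h + c` and `h - c`, once each, and `h`, where `c > 0`. -/
def SlopesAt (T : FRep K Γ) (v : Additive Kˣ →+ ℚ) (F : Γ) (c : ℚ) : Prop :=
  0 < c ∧ ∃ h : ℚ, K3Slopes v (op T F) h c

/-- Pure motives `T j` of weight `w j` on which some element of `Γ` (a Frobenius element) acts with the
slopes `h + c` and `h - c`, once each, and `h`; the rank of `T j` is `3` or at least `5` if `w j` is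
even. (Two `T j` with even weights and rank `8` have a common such element.) -/
structure SlopeFamily (χ : Γ →* Kˣ) (t : L → K) (w : J → ℤ) (T : J → Mot K Γ L) :
    Prop extends Distinct w T where
  pure : ∀ j, IsPure χ t (w j) (act (T j).rep) (T j).lie
  slopes : ∀ j, ∃ v F c, SlopesAt (T j).rep v F c
  rank : ∀ j, Even (w j) → dim (T j).rep = 3 ∨ 5 ≤ dim (T j).rep
  eight : ∀ i j, i ≠ j → Even (w i) → Even (w j) → dim (T i).rep = 8 → dim (T j).rep = 8 →
    ∃ v F c c', SlopesAt (T i).rep v F c ∧ SlopesAt (T j).rep v F c'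

/-- Some `F` acts on `T` with three slopes, with the difference `c`, and on `U` with less than
`dim T - 2` pairs of slopes with the difference `c`. -/
def PairsSmall (T U : FRep K Γ) : Prop :=
  ∃ v F c, SlopesAt T v F c ∧ gaps (Pool.Agent.Y127.G.slopes v (op U F)) c + 2 < dim T

/-- `U` is small with respect to `T`, of weight `w` -/
def SlopeSmall (w : ℤ) (T U : FRep K Γ) : Prop := FormSmall w T U ∨ PairsSmall T U

end Pool.Agent.Q71.MM.P
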