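import Pool.Agent.Q71.MM.Act4
import Pool.Agent.Q71.MM.P2
import Pool.Agent.Q71.AB.Brg

/-!
# The final theorems
-/

set_option linter.unusedSectionVars false

namespace Pool.Agent.Q71.MM

open Module Finset Function Pool.Agent.TH118.SG Pool.Agent.TH125.Gal Pool.Agent.Y127.G
  Pool.Agent.Y127.C Pool.Agent.Q71.TM Pool.Agent.Q71.SP Pool.Agent.Q71.AB

variable {K : Type} [Field K] {Γ : Type} [Group Γ] {χ : Γ →* Kˣ} {L : Type} {t : L → K}

theorem ss_iff {M : FRep K Γ} : P.Semisimple K (Pool.Agent.Q71.AB.P.act M) ↔ PotSS M := by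
  constructor
  · rintro ⟨Δ₀, h1, h2⟩
    refine ⟨Δ₀, h1, fun Δ h3 h4 U hU => ?_⟩
    obtain ⟨C, hC, h5⟩ := h2 Δ h3 h4 U hU
    exact ⟨C, hC, h5.inf_eq_bot, h5.sup_eq_top⟩
  · rintro ⟨Δ₀, h1, h2⟩
    refine ⟨Δ₀, h1, fun Δ h3 h4 U hU => ?_⟩
    obtain ⟨C, hC, h5, h6⟩ := h2 Δ h3 h4 U hU
    exact ⟨C, hC, IsCompl.of_eq h5 h6⟩

/-- the decomposition -/
theorem exists_decM {J : Type} {T : J → P.Mot K Γ L} {N W : P.Mot K Γ L} (h : P.IsSum T N W) :
    ∃ (S : Set J) (_ : S.Finite) (d : Dec (fun j : S => (T j).rep) N.rep W.rep),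
      (∀ a p v, d.r p (W.lie a v) = (T (d.c p)).lie a (d.r p v)) ∧
      (∀ a v, d.r₀ (W.lie a v) = N.lie a (d.r₀ v)) ∧
      (∀ a v, W.lie a (d.i₀ v) = d.i₀ (N.lie a v)) := by
  classical
  obtain ⟨P, hP, c, f, f₀, hf, ⟨hl, ⟨Δ₀, hΔ₀, h2'⟩, h4⟩, hbij⟩ := h
  have := Fintype.ofFinite P
  choose hfl hfe h3' using hf
  choose Δ' hΔ' h1' using hfe
  let ff : W.rep.V →ₗ[K] (∀ p, (T (c p)).rep.V) × N.rep.V :=
    LinearMap.prod (LinearMap.pi fun p => (hfl p).mk' (f p)) (hl.mk' f₀)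
  let e : W.rep.V ≃ₗ[K] (∀ p, (T (c p)).rep.V) × N.rep.V := LinearEquiv.ofBijective ff hbij
  let Δ : Subgroup Γ := Δ₀ ⊓ ⨅ p, Δ' p
  have hΔ : Δ.FiniteIndex := by
    have h5 := Subgroup.finiteIndex_iInf hΔ'
    exact (inferInstance : (Δ₀ ⊓ ⨅ p, Δ' p).FiniteIndex)
  have h1 : ∀ p, Pool.Agent.Q71.AB.P.EqvOn Δ (Pool.Agent.Q71.AB.P.act W.rep)
      (Pool.Agent.Q71.AB.P.act (T (c p)).rep) fun x => (e x).1 p := fun p g hg x =>
    h1' p g ((Subgroup.mem_iInf.1 hg.2) p) x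
  have h2 : Pool.Agent.Q71.AB.P.EqvOn Δ (Pool.Agent.Q71.AB.P.act W.rep)
      (Pool.Agent.Q71.AB.P.act N.rep) fun x => (e x).2 := fun g hg x => h2' g hg.1 x
  have h3 : ∀ a x p, (e (W.lie a x)).1 p = (T (c p)).lie a ((e x).1 p) := fun a x p => h3' p a x
  let c' : P → Set.range c := fun p => ⟨c p, p, rfl⟩
  have he : ∀ g ∈ Δ, ∀ x, e (W.rep.ρ g x) =
      (fun p => (T (c p)).rep.ρ g ((e x).1 p), N.rep.ρ g (e x).2) := fun g hg x =>
    Prod.ext (funext fun p => h1 p g hg x) (h2 g hg x)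
  have he' : ∀ a x, e (W.lie a x) = (fun p => (T (c p)).lie a ((e x).1 p), N.lie a (e x).2) :=
    fun a x => Prod.ext (funext fun p => h3 a x p) (h4 a x)
  refine ⟨Set.range c, Set.finite_range c,
    { P := P
      c := c'
      i := fun p => e.symm.toLinearMap ∘ₗ LinearMap.inl K _ _ ∘ₗ
        LinearMap.single K (fun p => (T (c p)).rep.V) p
      r := fun p => LinearMap.proj p ∘ₗ LinearMap.fst K _ _ ∘ₗ e.toLinearMap
      i₀ := e.symm.toLinearMap ∘ₗ LinearMap.inr K _ _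
      r₀ := LinearMap.snd K _ _ ∘ₗ e.toLinearMap
      ri := ?_
      ri₀ := ?_
      sum := ?_
      Δ := Δ
      fi := hΔ
      i_eqv := ?_
      r_eqv := ?_
      i₀_eqv := ?_
      r₀_eqv := ?_ }, ?_, ?_, ?_⟩
  · intro p x
    change (e (e.symm (Pi.single p x, 0))).1 p = x
    rw [e.apply_symm_apply]
    exact Pi.single_eq_same (M := fun p => (T (c p)).rep.V) p x
  · intro x
    change (e (e.symm (0, x))).2 = x
    rw [e.apply_symm_apply]
  · intro w
    apply e.injective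
    change e (e.symm (0, (e w).2) + ∑ p, e.symm (Pi.single p ((e w).1 p), 0)) = e w
    rw [map_add, map_sum, e.apply_symm_apply]
    have h5 : ∀ p, e (e.symm (Pi.single p ((e w).1 p), 0)) =
        ((Pi.single p ((e w).1 p), 0) : (∀ p, (T (c p)).rep.V) × N.rep.V) := fun p =>
      e.apply_symm_apply _
    rw [Finset.sum_congr rfl fun p _ => h5 p]
    have h6 := map_sum (LinearMap.inl K (∀ p, (T (c p)).rep.V) N.rep.V)
      (fun p => (Pi.single p ((e w).1 p) : ∀ p, (T (c p)).rep.V)) univ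
    rw [Finset.univ_sum_single (e w).1] at h6
    have h7 : ∑ p, ((Pi.single p ((e w).1 p), 0) : (∀ p, (T (c p)).rep.V) × N.rep.V) =
        ((e w).1, 0) := h6.symm
    rw [h7, Prod.mk_add_mk, zero_add, add_zero]
  · intro g hg p x
    apply e.injective
    change e (e.symm (Pi.single p ((T (c p)).rep.ρ g x), 0)) =
      e (W.rep.ρ g (e.symm (Pi.single p x, 0)))
    rw [e.apply_symm_apply, he g hg, e.apply_symm_apply, map_zero]
    refine Prod.ext (funext fun q => ?_) rfl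
    change (Pi.single p ((T (c p)).rep.ρ g x) : ∀ p, (T (c p)).rep.V) q =
      (T (c q)).rep.ρ g ((Pi.single p x : ∀ p, (T (c p)).rep.V) q)
    by_cases hq : q = p
    · subst hq
      rw [Pi.single_eq_same, Pi.single_eq_same]
    · rw [Pi.single_eq_of_ne hq, Pi.single_eq_of_ne hq, map_zero]
  · intro g hg p w
    exact h1 p g hg w
  · intro g hg x
    apply e.injective
    change e (e.symm (0, N.rep.ρ g x)) = e (W.rep.ρ g (e.symm (0, x)))
    rw [e.apply_symm_apply, he g hg, e.apply_symm_apply]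
    refine Prod.ext (funext fun q => ?_) rfl
    exact (map_zero _).symm
  · intro g hg w
    exact h2 g hg w
  · intro a p v
    exact h3 a v p
  · intro a v
    exact h4 a v
  · intro a v
    apply e.injective
    change e (W.lie a (e.symm (0, v))) = e (e.symm (0, N.lie a v))
    rw [e.apply_symm_apply, he', e.apply_symm_apply]
    refine Prod.ext (funext fun q => ?_) rfl
    exact map_zero _

/-- the converse -/
theorem mt_conv {J : Type} {T : J → P.Mot K Γ L} {N W : P.Mot K Γ L} (h : P.IsSum T N W)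
    (hW : P.MumfordTate χ t W) : P.MumfordTate χ t N := by
  classical
  obtain ⟨S, hS, d, h1, h2, h3⟩ := exists_decM h
  refine ⟨ss_iff.2 (ss_conv d (ss_iff.1 hW.1)), fun k n f hf a v => ?_⟩
  have hfi := d.fi
  obtain ⟨Δ, hΔ, hf⟩ := hf
  have h4 := hW.2 k n (f.compLinearMap fun _ => d.r₀) ⟨Δ ⊓ d.Δ, inferInstance, fun g hg v => by
    change f (fun s => d.r₀ (W.rep.ρ g (v s))) = _ * f fun s => d.r₀ (v s)
    simp only [d.r₀_eqv g hg.2]
    exact hf g hg.1 _⟩ a (fun s => d.i₀ (v s))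
  have h5 : ∀ v : Fin k → N.rep.V, (f.compLinearMap fun _ => d.r₀) (fun s => d.i₀ (v s)) = f v := by
    intro v
    change f (fun s => d.r₀ (d.i₀ (v s))) = f v
    simp only [d.ri₀]
  rw [h5] at h4
  rw [← h4]
  refine Finset.sum_congr rfl fun s _ => ?_
  rw [← h5 (update v s (N.lie a (v s)))]
  congr 1
  funext x
  by_cases hx : x = s
  · subst hx
    rw [update_self, update_self, h3]
  · rw [update_of_ne hx, update_of_ne hx]

variable [CharZero K] [IsAlgClosed K]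

/-- the general form -/
theorem mt_main {J : Type} {T : J → P.Mot K Γ L} {N W : P.Mot K Γ L} {w : J → ℤ}
    (hpure : ∀ j, P.IsPure χ t (w j) (Pool.Agent.Q71.AB.P.act (T j).rep) (T j).lie)
    (horth : ∀ j, Even (w j) → (finrank K (T j).rep.V = 3 ∨ 5 ≤ finrank K (T j).rep.V) ∧
      ∃ l : Loc K Γ, LocRep (T j).rep l)
    (hsymp : ∀ j, ¬Even (w j) → SpFull (T j).rep)
    (hiso : ∀ i j, i ≠ j → (Even (w i) ↔ Even (w j)) → ¬P.TwistIso K
      (Pool.Agent.Q71.AB.P.act (T i).rep) (Pool.Agent.Q71.AB.P.act (T j).rep))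
    (h8 : ∀ i j, i ≠ j → Even (w i) → Even (w j) → finrank K (T i).rep.V = 8 →
      finrank K (T j).rep.V = 8 → SameLoc (T i).rep (T j).rep)
    (hmixed : ∀ i j, Even (w i) → ¬Even (w j) → XPair (T i).rep (T j).rep)
    (hNp : HasPieces (fun U => ∀ j, XSmall (Even (w j)) (T j).rep U) N.rep)
    (h : P.IsSum T N W) (hN : P.MumfordTate χ t N) : P.MumfordTate χ t W := by
  classical
  obtain ⟨S, hS, d, h1, h2, h3⟩ := exists_decM h
  obtain ⟨m, M, hM, hgen⟩ := hNp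
  have : Fintype S := hS.fintype
  choose B hB1 hB2 hB3 hB4 hB5 using fun j => (hpure j).form
  have hl : ∀ j, ∃ l : Loc K Γ, Even (w j) → LocRep (T j).rep l := by
    intro j
    by_cases hj : Even (w j)
    · obtain ⟨l, hl⟩ := (horth j hj).2
      exact ⟨l, fun _ => hl⟩
    · exact ⟨.inertia 1, fun h => absurd h hj⟩
  choose l hl using hl
  let hT : ∀ j, MRep (l j) (Even (w j)) (T j).rep := fun j =>
    { B := B j
      μ := χ ^ w j
      eqv := hB4 j
      nd := hB3 j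
      si := (hpure j).irreducible
      sy := hB1 j
      orth := fun hj => ⟨(horth j hj).1, hl j hj⟩
      alt := hB2 j
      symp := hsymp j }
  refine ⟨ss_iff.2 (ss_dec d (fun j => (hT j).si) (ss_iff.1 hN.1)), fun k n f hf a => ?_⟩
  exact core_der (M := M) hgen (fun j : S => hT j) (w := fun j : S => w j) (fun _ => rfl)
    (fun _ h => h) (fun i j hij he h => hiso i j (fun h' => hij (Subtype.ext h')) he h)
    (fun i j hij hi hj hi8 hj8 => h8 i j (fun h' => hij (Subtype.ext h').symm) hi hj hi8 hj8)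
    (fun i j hi hj => hmixed i j hi hj)
    (fun i a => hM a i) d (X := fun j : S => (T j).lie a)
    (fun j x y => hB5 j a x y) (h1 a) (h2 a)
    (fun n k G hG => fun v => by
      have h6 := hN.2 k n G hG a v
      exact h6) hf

theorem pair_of_ne {T T' : FRep K Γ} (h : finrank K T.V ≠ finrank K T'.V + 1) : XPair T T' := by
  rcases Nat.lt_or_ge (finrank K T'.V) (finrank K T.V) with h6 | h6
  · exact Or.inr (Or.inl (by omega))
  · exact Or.inr (Or.inr (Or.inr h6))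

theorem small_form {w : ℤ} {T U : FRep K Γ} (h : P.FormSmall w T U) :
    XSmall (Even w) T U := by
  refine ⟨fun he => ?_, fun he => ?_⟩
  · rcases h with ⟨⟨μ, B, h1, h2, h3⟩, h4⟩ | ⟨⟨μ, B, h1, h2, h3⟩, h4⟩ | ⟨h5, -⟩
    · exact Or.inr (Or.inr ⟨⟨μ, B, h1, h2, h3⟩, h4⟩)
    · exact Or.inr (Or.inl ⟨⟨μ, B, h1, h2, h3⟩, h4⟩)
    · exact absurd he h5
  · rcases h with ⟨⟨μ, B, h1, h2, h3⟩, h4⟩ | ⟨⟨μ, B, h1, h2, h3⟩, h4⟩ | ⟨-, h5⟩
    · exact Or.inr (Or.inr ⟨⟨μ, B, h1, h2, h3⟩, lt_of_le_of_lt (Nat.le_succ _) h4⟩)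
    · exact Or.inr (Or.inl ⟨⟨μ, B, h1, h2, h3⟩, le_of_lt h4⟩)
    · exact brg_dim h5

end Pool.Agent.Q71.MM
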