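import Pool.Agent.Q71.AB.Fft
import Pool.Agent.Y127.FftS

/-!
# Similitudes act by scalars on the multilinear forms which are killed by the skew operators
-/

set_option linter.unusedSectionVars false

namespace Pool.Agent.Q71.MM

open Module Finset Function Pool.Agent.TH125.Gal Pool.Agent.TH125.Nod

variable {K : Type} [Field K] [CharZero K] {T : Type} [AddCommGroup T] [Module K T]
  [FiniteDimensional K T] {B : T →ₗ[K] T →ₗ[K] K}

/-- the form is killed by the skew operators -/
def SkKill (B : T →ₗ[K] T →ₗ[K] K) {S : Type} [Fintype S] [DecidableEq S]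
    (f : MultilinearMap K (fun _ : S => T) K) : Prop :=
  ∀ X : Module.End K T, Skew B X → ∀ v : S → T, ∑ s, f (update v s (X (v s))) = 0

/-- **The orthogonal case.** -/
theorem so_semi (sy : ∀ x y, B x y = B y x) (nd : ∀ x, (∀ y, B x y = 0) → x = 0)
    {S : Type} [Fintype S] [DecidableEq S] {f : MultilinearMap K (fun _ : S => T) K}
    (hf : SkKill B f) {g : T →ₗ[K] T} {ν : K} (hg : ∀ x y, B (g x) (g y) = ν * ν * B x y)
    (hd : LinearMap.det g = ν ^ finrank K T) (v : S → T) :
    f (fun s => g (v s)) = ν ^ Fintype.card S * f v := by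
  classical
  let b := Module.finBasis K T
  let Q : Matrix (Fin (finrank K T)) (Fin (finrank K T)) K := Matrix.of fun i j => B (b i) (b j)
  obtain ⟨R, hR⟩ := Pool.Agent.Y127.exists_inv_gram (s := (1 : K)) (B := B)
    (fun x y => by rw [one_mul]; exact sy x y) nd b
  have hQ : ∀ i j, Q i j = B (b i) (b j) := fun _ _ => rfl
  let φ : (S → Fin (finrank K T)) → K := fun J => f fun s => b (J s)
  have hinv : Inv (fun _ : Fin (finrank K T) => ()) Q (fun _ => 1) φ := by
    intro k k' _ J
    let X : Module.End K T := Pool.Agent.Y127.G.oo B 1 (b k) (b k')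
    have hX : Skew B X := by
      intro x y
      simp only [X, Pool.Agent.Y127.G.oo_apply, map_sub, map_smul, LinearMap.sub_apply,
        LinearMap.smul_apply, smul_eq_mul]
      rw [sy x (b k), sy x (b k')]
      ring
    have h1 := hf X hX fun s => b (J s)
    refine Eq.trans (Finset.sum_congr rfl fun s _ => ?_) h1
    have h2 : X (b (J s)) = Q k' (J s) • b k - ((1 : K) * Q k (J s)) • b k' := by
      simp only [X, Pool.Agent.Y127.G.oo_apply]
      rfl
    rw [h2, f.map_update_sub, f.map_update_smul, f.map_update_smul]
    have h3 : ∀ p, (fun x => b (update J s p x)) = update (fun s => b (J s)) s (b p) := by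
      intro p
      funext x
      by_cases hx : x = s
      · subst hx; rw [update_self, update_self]
      · rw [update_of_ne hx, update_of_ne hx]
    rw [← h3, ← h3]
  let A : Matrix (Fin (finrank K T)) (Fin (finrank K T)) K := LinearMap.toMatrix b b g
  have hA : ∀ j, g (b j) = ∑ i, A i j • b i := by
    intro j
    conv_lhs => rw [← b.sum_repr (g (b j))]
    refine Finset.sum_congr rfl fun i _ => ?_
    exact congrArg (fun z : K => z • b i) (LinearMap.toMatrix_apply b b g i j).symm
  have hS : Pool.Agent.Y127.Sim Q A ν 1 := by
    constructor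
    · ext i j
      rw [Matrix.smul_apply, smul_eq_mul, hQ, ← hg, hA i, hA j]
      simp only [map_sum, LinearMap.sum_apply, map_smul, LinearMap.smul_apply, smul_eq_mul,
        Matrix.mul_apply, Finset.sum_mul, Matrix.transpose_apply, hQ]
      refine Finset.sum_congr rfl fun p _ => ?_
      rw [Finset.mul_sum]
      refine Finset.sum_congr rfl fun q _ => ?_
      ring
    · rw [one_mul, Fintype.card_fin, ← hd, LinearMap.det_toMatrix]
  obtain ⟨f0, hf0, f1, hf1, h01⟩ := Submodule.mem_sup.1
    (Pool.Agent.Y127.fftS (fun i j => sy (b i) (b j)) hR _ S φ rfl hinv)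
  have key : Pool.Agent.Y127.GA A φ = (ν ^ Fintype.card S) • φ := by
    rw [← h01, Pool.Agent.Y127.GA_add, Pool.Agent.Y127.EmM_GA hS hf0,
      Pool.Agent.Y127.EmM_GA hS hf1, one_pow, one_pow, one_mul, smul_add]
  have hmain : f.compLinearMap (fun _ => g) = (ν ^ Fintype.card S) • f := by
    refine Module.Basis.ext_multilinear (fun _ => b) fun J => ?_
    have h1 : f (fun s => g (b (J s))) = Pool.Agent.Y127.GA A φ J := by
      simp only [hA]
      rw [MultilinearMap.map_sum]
      refine Finset.sum_congr rfl fun y _ => ?_
      rw [MultilinearMap.map_smul_univ]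
    exact h1.trans (congrFun key J)
  exact congrArg (fun F : MultilinearMap K (fun _ : S => T) K => F v) hmain

/-- **The symplectic case.** -/
theorem sp_semi (alt : ∀ x y, B x y = -B y x) (nd : ∀ x, (∀ y, B x y = 0) → x = 0)
    {S : Type} [Fintype S] [DecidableEq S] {f : MultilinearMap K (fun _ : S => T) K}
    (hf : SkKill B f) : (∀ v, f v = 0) ∨ ∃ a, Fintype.card S = 2 * a ∧
      ∀ (g : T →ₗ[K] T) (m : K), (∀ x y, B (g x) (g y) = m * B x y) →
        ∀ v, f (fun s => g (v s)) = m ^ a * f v := by
  classical
  -- the form on the product over a point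
  let F : MultilinearMap K (fun _ : S => Unit → T) K :=
    f.compLinearMap fun _ => LinearMap.proj ()
  have h1 := Pool.Agent.Q71.AB.fft_pi (K := K) (ι := Unit) (T := fun _ => T) (M := K)
    (B := fun _ => B) (fun _ => alt) (fun _ => nd) (fun _ : S => ()) F
    (fun v => by
      change f (fun s => (Pi.single () (v s ()) : Unit → T) ()) = f fun s => v s ()
      simp only [Pi.single_eq_same])
    (fun _ X hX v => by
      refine Eq.trans (Finset.sum_congr rfl fun s _ => ?_) (hf X hX fun s => v s ())
      change f (fun x => update v s (Pi.single () (X (v s ()))) x ()) = _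
      congr 1
      funext x
      by_cases hx : x = s
      · subst hx
        rw [update_self, update_self, Pi.single_eq_same]
      · rw [update_of_ne hx, update_of_ne hx])
  by_cases hodd : ∃ a, Fintype.card S = 2 * a
  · obtain ⟨a, ha⟩ := hodd
    refine Or.inr ⟨a, ha, fun g m hg v => ?_⟩
    have h2 : ∀ G ∈ Submodule.span K {G : MultilinearMap K (fun _ : S => Unit → T) K |
        ∃ (a : ℕ) (e : Fin a × Fin 2 ≃ S) (w : K), ∀ v, G v = Pool.Agent.Q71.AB.pairProd e
          (fun l => (Pool.Agent.Q71.AB.sumForm fun _ : Unit => B).compl₁₂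
            (Pool.Agent.Q71.AB.cmp (K := K) (T := fun _ : Unit => T) ())
            (Pool.Agent.Q71.AB.cmp (K := K) (T := fun _ : Unit => T) ())) v • w},
        ∀ v : S → T, G (fun s _ => g (v s)) = m ^ a * G fun s _ => v s := by
      intro G hG
      induction hG using Submodule.span_induction with
      | mem G hG =>
        obtain ⟨a', e, w, hG⟩ := hG
        intro v
        have h3 : a' = a := by
          have h4 := Fintype.card_congr e
          rw [Fintype.card_prod, Fintype.card_fin, Fintype.card_fin, ha] at h4
          omega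
        subst h3
        rw [hG, hG, Pool.Agent.Q71.AB.pairProd_apply, Pool.Agent.Q71.AB.pairProd_apply]
        simp only [LinearMap.compl₁₂_apply, Pool.Agent.Q71.AB.cmp_apply,
          Pool.Agent.Q71.AB.sumForm_apply, Finset.univ_unique, Finset.sum_singleton,
          Pi.single_eq_same, hg, Finset.prod_mul_distrib, Finset.prod_const, Finset.card_univ,
          Fintype.card_fin, smul_eq_mul]
        ring
      | zero => intro v; simp
      | add G G' _ _ h h' =>
        intro v
        rw [_root_.add_apply, _root_.add_apply, h, h', mul_add]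
      | smul c G _ h =>
        intro v
        rw [_root_.smul_apply, _root_.smul_apply, h, smul_eq_mul, smul_eq_mul]
        ring
    exact h2 F h1 v
  · refine Or.inl fun v => ?_
    have h2 : F = 0 := by
      have h3 : ∀ G ∈ Submodule.span K {G : MultilinearMap K (fun _ : S => Unit → T) K |
          ∃ (a : ℕ) (e : Fin a × Fin 2 ≃ S) (w : K), ∀ v, G v = Pool.Agent.Q71.AB.pairProd e
            (fun l => (Pool.Agent.Q71.AB.sumForm fun _ : Unit => B).compl₁₂
              (Pool.Agent.Q71.AB.cmp (K := K) (T := fun _ : Unit => T) ())
              (Pool.Agent.Q71.AB.cmp (K := K) (T := fun _ : Unit => T) ())) v • w}, G = 0 := by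
        intro G hG
        induction hG using Submodule.span_induction with
        | mem G hG =>
          obtain ⟨a', e, w, hG⟩ := hG
          exfalso
          apply hodd
          refine ⟨a', ?_⟩
          have h4 := Fintype.card_congr e
          rw [Fintype.card_prod, Fintype.card_fin, Fintype.card_fin] at h4
          omega
        | zero => rfl
        | add G G' _ _ h h' => rw [h, h', add_zero]
        | smul c G _ h => rw [h, smul_zero]
      exact h3 F h1
    have h3 := congrArg (fun G : MultilinearMap K (fun _ : S => Unit → T) K => G fun s _ => v s) h2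
    exact h3

end Pool.Agent.Q71.MM
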