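import Pool.Agent.Q71.MM.Lie
import Pool.Agent.Q71.MM.Semi
import Pool.Agent.Q71.AB.Core

/-!
# The action of an operator on the semi-invariant forms on a sum
-/

set_option linter.unusedSectionVars false

namespace Pool.Agent.Q71.MM

open Module Finset Function Pool.Agent.TH118.SG Pool.Agent.TH125.Gal Pool.Agent.Y127.G
  Pool.Agent.Y127.C Pool.Agent.Q71.TM Pool.Agent.Q71.SP Pool.Agent.Q71.AB

variable {K : Type} [Field K] {Γ : Type} [Group Γ]

/-- a form with the multiplier `χ ^ n` under a subgroup of finite index -/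
def SemiZ (χ : Γ →* Kˣ) (M : FRep K Γ) (n : ℤ) {S : Type}
    (f : MultilinearMap K (fun _ : S => M.V) K) : Prop :=
  ∃ Δ : Subgroup Γ, Δ.FiniteIndex ∧ ∀ g ∈ Δ, ∀ v, f (fun s => M.ρ g (v s)) =
    ((χ ^ n : Γ →* Kˣ) g : K) * f v

/-- the operator acts on the form by the scalar `z` -/
def DerBy {V : Type} [AddCommGroup V] [Module K V] (X : V →ₗ[K] V) (z : K) {S : Type} [Fintype S]
    [DecidableEq S] (f : MultilinearMap K (fun _ : S => V) K) : Prop :=
  ∀ v, ∑ s, f (update v s (X (v s))) = z * f v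

section gen

variable {ι : Type} {T : ι → FRep K Γ} {N₀ W : FRep K Γ} (d : Dec T N₀ W)

/-- the member of the family -/
def slz (m : ℕ) : Option d.P → Jz ι m
  | some p => .t (d.c p)
  | none => .b

/-- the common space -/
abbrev UU {ι : Type} (T : ι → FRep K Γ) (N₀ : FRep K Γ) : Type := (∀ j, (T j).V) × N₀.V

/-- the map of the common space -/
def jj : Option d.P → (UU T N₀ →ₗ[K] W.V)
  | some p => d.i p ∘ₗ LinearMap.proj (d.c p) ∘ₗ LinearMap.fst K _ _
  | none => d.i₀ ∘ₗ LinearMap.snd K _ _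

/-- the map to the common space -/
noncomputable def et [DecidableEq ι] : Option d.P → (W.V →ₗ[K] UU T N₀)
  | some p => LinearMap.inl K _ _ ∘ₗ LinearMap.single K (fun j => (T j).V) (d.c p) ∘ₗ d.r p
  | none => LinearMap.inr K _ _ ∘ₗ d.r₀

theorem jj_et [DecidableEq ι] (o : Option d.P) (w : W.V) : jj d o (et d o w) = d.pr o w := by
  cases o with
  | some p =>
    change d.i p ((Pi.single (d.c p) (d.r p w) : ∀ j, (T j).V) (d.c p)) = d.i p (d.r p w)
    rw [Pi.single_eq_same]
  | none => rfl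

variable {m : ℕ} (M : Fin m → FRep K Γ) (κ : ι → Fin m → Γ →* Kˣ) (χ : Γ →* Kˣ)

/-- the inclusion of a member -/
def incz : ∀ o : Option d.P, (famz T M κ χ N₀ (slz d m o)).V →ₗ[K] W.V
  | some p => d.i p
  | none => d.i₀

/-- the component -/
def evz : ∀ o : Option d.P, UU T N₀ → (famz T M κ χ N₀ (slz d m o)).V
  | some p => fun x => x.1 (d.c p)
  | none => fun x => x.2

theorem incz_evz (o : Option d.P) (x : UU T N₀) : incz d M κ χ o (evz d M κ χ o x) = jj d o x := by
  cases o <;> rfl

theorem incz_eqv {g : Γ} (hg : g ∈ d.Δ) (o : Option d.P)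
    (x : (famz T M κ χ N₀ (slz d m o)).V) :
    incz d M κ χ o ((famz T M κ χ N₀ (slz d m o)).ρ g x) = W.ρ g (incz d M κ χ o x) := by
  cases o with
  | some p => exact d.i_eqv g hg p x
  | none => exact d.i₀_eqv g hg x

/-- the group action on the common space -/
def gU (g : Γ) (x : UU T N₀) : UU T N₀ := (fun j => (T j).ρ g (x.1 j), N₀.ρ g x.2)

theorem jj_gU {g : Γ} (hg : g ∈ d.Δ) (o : Option d.P) (x : UU T N₀) :
    jj d o (gU g x) = W.ρ g (jj d o x) := by
  cases o with
  | some p => exact d.i_eqv g hg p _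
  | none => exact d.i₀_eqv g hg _

/-- the slot is of sort `i` -/
def IsSort (i : ι) : Option d.P → Prop
  | some p => d.c p = i
  | none => False

/-- the form on the common space -/
def HH {S : Type} (f : MultilinearMap K (fun _ : S => W.V) K) (o : S → Option d.P) :
    MultilinearMap K (fun _ : S => UU T N₀) K := f.compLinearMap fun s => jj d (o s)

variable {S : Type}

theorem HH_apply (f : MultilinearMap K (fun _ : S => W.V) K) (o : S → Option d.P)
    (v : S → UU T N₀) : HH d f o v = f fun s => jj d (o s) (v s) := rfl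

/-- components which do not matter -/
theorem HH_congr (f : MultilinearMap K (fun _ : S => W.V) K) (o : S → Option d.P)
    {v v' : S → UU T N₀} (h : ∀ s, jj d (o s) (v s) = jj d (o s) (v' s)) :
    HH d f o v = HH d f o v' := by
  rw [HH_apply, HH_apply]
  exact congrArg f (funext h)

/-- **the operators kill the form** -/
theorem kill_HH [DecidableEq ι] [Fintype S] [DecidableEq S] {n : ℤ}
    {f : MultilinearMap K (fun _ : S => W.V) K} (hf : SemiZ χ W n f)
    {D : ∀ j, (famz T M κ χ N₀ j).V →ₗ[K] (famz T M κ χ N₀ j).V} (hD : D ∈ GG (famz T M κ χ N₀))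
    (hDn : D (Jz.chi n) = 0) {i : ι} (hDj : ∀ j, j ≠ i → D (Jz.t j) = 0) (hDb : D Jz.b = 0)
    (o : S → Option d.P) (v : S → UU T N₀) :
    ∑ s, HH d f o (update v s (Pi.single i (D (Jz.t i) ((v s).1 i)), 0)) = 0 := by
  obtain ⟨Δ, hΔ, hf⟩ := hf
  have hfi := d.fi
  let h : MultilinearMap K (fun s => (famz T M κ χ N₀ (slz d m (o s))).V) K :=
    f.compLinearMap fun s => incz d M κ χ (o s)
  have hh : EqvD (famz T M κ χ N₀) (fun s => slz d m (o s)) (Jz.chi n) h := by
    refine ⟨Δ ⊓ d.Δ, inferInstance, fun g hg u => ?_⟩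
    change f (fun s => incz d M κ χ (o s) ((famz T M κ χ N₀ (slz d m (o s))).ρ g (u s))) =
      ((χ ^ n : Γ →* Kˣ) g : K) • f (fun s => incz d M κ χ (o s) (u s))
    simp only [incz_eqv d M κ χ hg.2]
    rw [hf g hg.1, smul_eq_mul]
  have h1 := hD S (fun s => slz d m (o s)) (Jz.chi n) h hh fun s => evz d M κ χ (o s) (v s)
  rw [hDn, LinearMap.zero_apply] at h1
  refine Eq.trans (Finset.sum_congr rfl fun s _ => ?_) h1
  rw [HH_apply]
  change _ = f fun x => incz d M κ χ (o x) (update (fun s => evz d M κ χ (o s) (v s)) s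
    (D (slz d m (o s)) (evz d M κ χ (o s) (v s))) x)
  congr 1
  funext x
  by_cases hx : x = s
  · subst hx
    rw [update_self, update_self]
    cases hox : o x with
    | some p =>
      change d.i p ((Pi.single i (D (Jz.t i) ((v x).1 i)) : ∀ j, (T j).V) (d.c p)) =
        d.i p (D (Jz.t (d.c p)) ((v x).1 (d.c p)))
      by_cases hi : d.c p = i
      · subst hi
        rw [Pi.single_eq_same]
      · rw [Pi.single_eq_of_ne hi, hDj _ hi]
        rfl
    | none =>
      change d.i₀ 0 = d.i₀ (D Jz.b (v x).2)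
      have h5 : (D Jz.b (v x).2 : N₀.V) = 0 := by rw [hDb]; rfl
      exact (congrArg (fun z : N₀.V => d.i₀ z) h5).symm
  · rw [update_of_ne hx, update_of_ne hx, incz_evz]

end gen

end Pool.Agent.Q71.MM
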