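import Pool.Agent.Q71.MM.Brg

/-!
# The final theorems for families with local conditions
-/

set_option linter.unusedSectionVars false

namespace Pool.Agent.Q71.MM

open Module Finset Function Pool.Agent.TH118.SG Pool.Agent.TH125.Gal Pool.Agent.Y127.G
  Pool.Agent.Y127.C Pool.Agent.Q71.TM Pool.Agent.Q71.SP Pool.Agent.Q71.AB

variable {K : Type} [Field K] {Γ : Type} [Group Γ] {χ : Γ →* Kˣ} {L : Type} {t : L → K}

theorem prod_zp {ι : Type} (x : Kˣ) (s : Finset ι) (m : ι → ℤ) :
    ∏ i ∈ s, x ^ m i = x ^ ∑ i ∈ s, m i := by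
  classical
  induction s using Finset.induction_on with
  | empty => rw [Finset.prod_empty, Finset.sum_empty, zpow_zero]
  | insert i s hi ih => rw [Finset.prod_insert hi, Finset.sum_insert hi, ih, zpow_add]

theorem ss_basis {M : FRep K Γ} {ι : Type} (b : Basis ι K M.V) (χ : Γ →* Kˣ) (m : ι → ℤ)
    (h1 : ∀ g i, M.ρ g (b i) = ((χ g ^ m i : Kˣ) : K) • b i) : PotSS M := by
  refine ⟨⊤, inferInstance, fun Δ _ _ U hU => ?_⟩
  refine ss_of_pieces (fun i : ι => Submodule.span K {b i}) ?_ ?_ U hU
  · intro i U' _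
    by_cases h : b i ∈ U'
    · refine ⟨⊥, bot_le, fun g _ x hx => ?_, inf_bot_eq _, ?_⟩
      · rw [Submodule.mem_bot] at hx ⊢
        rw [hx, map_zero]
      · rw [sup_bot_eq, Submodule.span_singleton_le_iff_mem]
        exact h
    · refine ⟨Submodule.span K {b i}, le_rfl, ?_, ?_, le_sup_right⟩
      · intro g _ x hx
        obtain ⟨c, rfl⟩ := Submodule.mem_span_singleton.1 hx
        rw [map_smul, h1]
        exact Submodule.smul_mem _ _ (Submodule.smul_mem _ _ (Submodule.mem_span_singleton_self _))
      · rw [Submodule.eq_bot_iff]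
        rintro x ⟨hx, hx'⟩
        obtain ⟨c, rfl⟩ := Submodule.mem_span_singleton.1 hx'
        by_cases hc : c = 0
        · rw [hc, zero_smul]
        · exact absurd ((Submodule.smul_mem_iff _ hc).1 hx) h
  · intro U' hU'
    rw [eq_top_iff, ← b.span_eq, Submodule.span_le]
    rintro _ ⟨i, rfl⟩
    exact hU' i (Submodule.mem_span_singleton_self _)

/-- sums of Tate motives -/
theorem mt_tate {N : P.Mot K Γ L} {ι : Type} [Fintype ι] [DecidableEq ι]
    (b : Basis ι K N.rep.V) (m : ι → ℤ)
    (h1 : ∀ g i, Pool.Agent.Q71.AB.P.act N.rep g (b i) = ((χ g ^ m i : Kˣ) : K) • b i)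
    (h2 : ∀ a i, N.lie a (b i) = ((m i : K) * t a) • b i)
    (hχ : ∀ Δ : Subgroup Γ, Δ.FiniteIndex → ∀ n : ℤ, (∀ g ∈ Δ, χ g ^ n = 1) → n = 0) :
    P.MumfordTate χ t N := by
  classical
  refine ⟨ss_iff.2 (ss_basis b χ m h1), fun k n f hf a v => ?_⟩
  obtain ⟨Δ, hΔ, hf⟩ := hf
  -- the identity on the vectors of the basis
  have key : ∀ c : Fin k → ι, ∑ s, f (update (fun s => b (c s)) s (N.lie a (b (c s)))) =
      (n : K) * t a * f fun s => b (c s) := by
    intro c
    have h3 : ∀ s, f (update (fun s => b (c s)) s (N.lie a (b (c s)))) =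
        ((m (c s) : K) * t a) * f fun s => b (c s) := by
      intro s
      rw [h2, MultilinearMap.map_update_smul, smul_eq_mul]
      congr 2
      funext x
      by_cases hx : x = s
      · subst hx; rw [update_self]
      · rw [update_of_ne hx]
    rw [Finset.sum_congr rfl fun s _ => h3 s, ← Finset.sum_mul, ← Finset.sum_mul]
    by_cases h0 : f (fun s => b (c s)) = 0
    · rw [h0, mul_zero, mul_zero]
    · have h4 : ∑ s, m (c s) - n = 0 := by
        refine hχ Δ hΔ _ fun g hg => ?_
        have h5 := hf g hg fun s => b (c s)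
        simp only [h1] at h5
        rw [f.map_smul_univ, smul_eq_mul] at h5
        have h6 := mul_right_cancel₀ h0 h5
        have h7 : ∏ s, (χ g ^ m (c s) : Kˣ) = (χ g ^ n : Kˣ) := by
          apply Units.ext
          rw [Units.coe_prod]
          exact h6
        rw [prod_zp] at h7
        rw [zpow_sub, h7, mul_inv_cancel]
      have h5 : ((∑ s, m (c s) : ℤ) : K) = (n : K) := by
        rw [sub_eq_zero.1 h4]
      rw [← h5]
      push_cast
      rfl
  -- the general case
  let D : MultilinearMap K (fun _ : Fin k => N.rep.V) K :=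
    ∑ s, f.compLinearMap (update (fun _ => LinearMap.id) s (N.lie a))
  have hD : ∀ v, D v = ∑ s, f (update v s (N.lie a (v s))) := by
    intro v
    rw [_root_.sum_apply]
    refine Finset.sum_congr rfl fun s _ => ?_
    change f (fun x => (update (fun _ => LinearMap.id) s (N.lie a) :
      Fin k → (N.rep.V →ₗ[K] N.rep.V)) x (v x)) = _
    congr 1
    funext x
    by_cases hx : x = s
    · subst hx; rw [update_self, update_self]
    · rw [update_of_ne hx, update_of_ne hx]; rfl
  have hfin : D = ((n : K) * t a) • f := by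
    refine Module.Basis.ext_multilinear (fun _ => b) fun c => ?_
    rw [hD, _root_.smul_apply, smul_eq_mul]
    exact key c
  rw [← hD, hfin, _root_.smul_apply, smul_eq_mul]

end Pool.Agent.Q71.MM
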