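import Pool.Agent.Q71.MM.Fin

/-!
# The final theorems for families with local conditions
-/

set_option linter.unusedSectionVars false

namespace Pool.Agent.Q71.MM

open Module Finset Function Pool.Agent.TH118.SG Pool.Agent.TH125.Gal Pool.Agent.Y127.G
  Pool.Agent.Y127.C Pool.Agent.Q71.TM Pool.Agent.Q71.SP Pool.Agent.Q71.AB

variable {K : Type} [Field K] {Γ : Type} [Group Γ] {χ : Γ →* Kˣ} {L : Type} {t : L → K}

theorem mt_tateSum {N : P.Mot K Γ L} (h : P.TateSum χ t N) (hχ : P.InfiniteOrder χ) :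
    P.MumfordTate χ t N := by
  classical
  obtain ⟨ι, hι, b, m, h1, h2⟩ := h
  have := Fintype.ofFinite ι
  exact mt_tate b m h1 h2 hχ

variable [CharZero K] [IsAlgClosed K]

theorem loc_inertia {T : FRep K Γ} {g : Γ} (h : P.TypeIII (Pool.Agent.Q71.AB.P.op T g)) :
    LocRep T (.inertia g) := by
  obtain ⟨h1, ⟨x, h2⟩, h3⟩ := h
  refine ⟨LinearMap.ext fun x => h1 x, fun h => h2 ?_, h3⟩
  exact LinearMap.congr_fun h x

theorem loc_slopes {T : FRep K Γ} {v : Additive Kˣ →+ ℚ} {F : Γ} {c : ℚ}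
    (h : P.SlopesAt T v F c) : LocRep T (.frobenius v F c) := h

theorem small_mild {T U : FRep K Γ} (h : P.MildSmall T U) : OSmall T U := by
  obtain ⟨g, h1, h2, h3⟩ := h
  exact Or.inl ⟨.inertia g, loc_inertia h1, LinearMap.ext fun x => h2 x, h3⟩

theorem small_inertia {w : ℤ} {T U : FRep K Γ} (h : P.InertiaSmall w T U) :
    XSmall (Even w) T U := by
  rcases h with h | ⟨h1, h2⟩ | ⟨h1, h2⟩
  · exact small_form h
  · exact ⟨fun _ => small_mild h2, fun h => absurd h1 h⟩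
  · exact ⟨fun h => absurd h h1, fun _ => brg_inertia h2⟩

theorem small_slopes {w : ℤ} {T U : FRep K Γ} (h : P.SlopeSmall w T U) :
    XSmall (Even w) T U := by
  rcases h with h | ⟨v, F, c, h1, h2⟩
  · exact small_form h
  · refine ⟨fun _ => Or.inl ⟨.frobenius v F c, loc_slopes h1, h2⟩, fun _ => ?_⟩
    obtain ⟨hc, h, h3⟩ := h1
    exact Or.inl (Or.inr (Or.inr (Or.inl ⟨v, F, h, c, hc.ne', h3, h2⟩)))

variable {J : Type} {w : J → ℤ} {T : J → P.Mot K Γ L} {N W : P.Mot K Γ L}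

/-- **Inertia.** -/
theorem mt_inertia (h : P.InertiaFamily χ t w T)
    (hN : Pool.Agent.Q71.AB.P.HasPieces (fun U => ∀ j, P.InertiaSmall (w j) (T j).rep U) N.rep)
    (hW : P.IsSum T N W) : P.MumfordTate χ t W ↔ P.MumfordTate χ t N := by
  refine ⟨mt_conv hW, fun hMT => ?_⟩
  refine mt_main h.pure ?_ ?_ h.distinct ?_ (fun i j hi hj => pair_of_ne (h.mixed i j hi hj))
    (brg_pieces hN fun U hU j => small_inertia (hU j)) hW hMT
  · intro j hj
    obtain ⟨h1, g, h2⟩ := h.even j hj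
    exact ⟨h1, _, loc_inertia h2⟩
  · intro j hj
    obtain ⟨g, h1⟩ := h.odd j hj
    exact brg_full_transv ⟨g, h1⟩
  · intro i j hij hi hj hi8 hj8
    obtain ⟨g, h1, h2⟩ := h.eight i j hij hi hj hi8 hj8
    exact ⟨_, _, loc_inertia h1, loc_inertia h2, rfl⟩

/-- **Slopes.** -/
theorem mt_slopes (h : P.SlopeFamily χ t w T)
    (hN : Pool.Agent.Q71.AB.P.HasPieces (fun U => ∀ j, P.SlopeSmall (w j) (T j).rep U) N.rep)
    (hW : P.IsSum T N W) : P.MumfordTate χ t W ↔ P.MumfordTate χ t N := by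
  refine ⟨mt_conv hW, fun hMT => ?_⟩
  refine mt_main h.pure ?_ ?_ h.distinct ?_ (fun i j hi hj => pair_of_ne (h.mixed i j hi hj))
    (brg_pieces hN fun U hU j => small_slopes (hU j)) hW hMT
  · intro j hj
    obtain ⟨v, F, c, h1⟩ := h.slopes j
    exact ⟨h.rank j hj, _, loc_slopes h1⟩
  · intro j hj
    obtain ⟨v, F, c, hc, h, h1⟩ := h.slopes j
    exact brg_full_slopes ⟨v, F, h, c, hc.ne', h1⟩
  · intro i j hij hi hj hi8 hj8
    obtain ⟨v, F, c, c', h1, h2⟩ := h.eight i j hij hi hj hi8 hj8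
    exact ⟨_, _, loc_slopes h1, loc_slopes h2, rfl, rfl⟩

end Pool.Agent.Q71.MM
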