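import Pool.Agent.Q71.MM.P2

/-!
# The Sato-Tate conjecture: definition
-/

set_option autoImplicit false

namespace Pool.Agent.Q71.MM.P

open Module Function Pool.Agent.Y127.G Pool.Agent.Q71.AB.P

variable {K : Type} [Field K] {V : Type} [AddCommGroup V] [Module K V] {Γ : Type} [Group Γ]
  {L : Type}

/-- The form `f` is killed by the elements `a` of the Lie algebra with `t a = 0`. -/
def Killed (t : L → K) (x : L → V →ₗ[K] V) {k : ℕ} (f : MultilinearMap K (fun _ : Fin k => V) K) :
    Prop :=
  ∀ a, t a = 0 → ∀ v, ∑ s, f (update v s (x a (v s))) = 0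

/-- The Sato-Tate conjecture for a motive of weight `w ≠ 0`: the Galois representation is semisimple,
and all Tate forms are killed by the Lie algebra of the kernel of the multiplier (the elements `a`
with `w t a = 0`). -/
def SatoTate (χ : Γ →* Kˣ) (t : L → K) (M : Mot K Γ L) : Prop :=
  Semisimple K (act M.rep) ∧ ∀ (k : ℕ) (n : ℤ) (f : MultilinearMap K (fun _ : Fin k => M.rep.V) K),
    IsTate χ (act M.rep) n f → Killed t M.lie f

end Pool.Agent.Q71.MM.P
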