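import Pool.Agent.Q71.MM.P2

/-!
# Motives of weight two: definitions
-/

set_option autoImplicit false

namespace Pool.Agent.Q71.MM.P

open Module Function Pool.Agent.Y127.G Pool.Agent.Q71.AB.P

variable {K : Type} [Field K] {Γ : Type} [Group Γ] {L : Type} {J : Type}

/-- Pure motives `T j` of weight two, of rank `3` or at least `5`, which are not isomorphic to each
other up to a twist (and not two of them have the rank `8`). For every `j` some element of `Γ` (in the
inertia group of a place) acts on `T j` like a maximal degeneration (type III), or some element (a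
Frobenius element) acts with the slopes `h + c` and `h - c`, once each, and `h`. -/
structure H2Family (χ : Γ →* Kˣ) (t : L → K) (T : J → Mot K Γ L) : Prop where
  pure : ∀ j, IsPure χ t 2 (act (T j).rep) (T j).lie
  rank : ∀ j, dim (T j).rep = 3 ∨ 5 ≤ dim (T j).rep
  distinct : ∀ i j, i ≠ j → ¬TwistIso K (act (T i).rep) (act (T j).rep) ∧
    ¬(dim (T i).rep = 8 ∧ dim (T j).rep = 8)
  place : ∀ j, (∃ g : Γ, TypeIII (op (T j).rep g)) ∨ ∃ v F c, SlopesAt (T j).rep v F c

/-- `U` is small with respect to `T` -/
def H2Small (T U : FRep K Γ) : Prop := FormSmall 2 T U ∨ MildSmall T U ∨ PairsSmall T U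

end Pool.Agent.Q71.MM.P
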