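import Pool.Agent.Q71.MM.Fin2
import Pool.Agent.Q71.MM.P3
import Pool.Agent.Q71.MM.P4

/-!
# The final theorems: the Sato-Tate conjecture, weight two, and sums of Tate motives
-/

set_option linter.unusedSectionVars false

namespace Pool.Agent.Q71.MM

open Module Finset Function Pool.Agent.TH118.SG Pool.Agent.TH125.Gal Pool.Agent.Y127.G
  Pool.Agent.Y127.C Pool.Agent.Q71.TM Pool.Agent.Q71.SP Pool.Agent.Q71.AB

variable {K : Type} [Field K] {Γ : Type} [Group Γ] {χ : Γ →* Kˣ} {L : Type} {t : L → K}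

/-- the elements of the Lie algebra which kill the Tate motive -/
def rst (t : L → K) (M : P.Mot K Γ L) : P.Mot K Γ {a : L // t a = 0} := ⟨M.rep, fun a => M.lie a⟩

theorem st_iff {M : P.Mot K Γ L} :
    P.SatoTate χ t M ↔ P.MumfordTate χ (fun a : {a : L // t a = 0} => t a) (rst t M) := by
  refine and_congr Iff.rfl ⟨fun h k n f hf a v => ?_, fun h k n f hf a ha v => ?_⟩
  · have h2 : (n : K) * t a.1 * f v = 0 := by rw [a.2, mul_zero, zero_mul]
    exact (h k n f hf a.1 a.2 v).trans h2.symm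
  · have h1 := h k n f hf ⟨a, ha⟩ v
    have h2 : (n : K) * t a * f v = 0 := by rw [ha, mul_zero, zero_mul]
    exact h1.trans h2

theorem rst_sum {J : Type} {T : J → P.Mot K Γ L} {N W : P.Mot K Γ L} (h : P.IsSum T N W) :
    P.IsSum (fun j => rst t (T j)) (rst t N) (rst t W) := by
  obtain ⟨P, hP, c, f, f₀, hf, ⟨h1, h2, h3⟩, hb⟩ := h
  exact ⟨P, hP, c, f, f₀, fun p => ⟨(hf p).1, (hf p).2.1, fun a x => (hf p).2.2 a.1 x⟩,
    ⟨h1, h2, fun a x => h3 a.1 x⟩, hb⟩

theorem rst_slopes {J : Type} {T : J → P.Mot K Γ L} {w : J → ℤ} (h : P.SlopeFamily χ t w T) :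
    P.SlopeFamily χ (fun a : {a : L // t a = 0} => t a) w (fun j => rst t (T j)) := by
  refine ⟨⟨h.distinct, h.mixed⟩, fun j => ?_, h.slopes, h.rank, h.eight⟩
  obtain ⟨⟨B, h1, h2, h3, h4, h5⟩, h6⟩ := h.pure j
  exact ⟨⟨B, h1, h2, h3, h4, fun a u v => h5 a u v⟩, h6⟩

theorem pieces_of_tate {N : P.Mot K Γ L} (h : P.TateSum χ t N) {Q : FRep K Γ → Prop}
    (hQ : ∀ m : ℤ, Q (line (χ ^ m))) : Pool.Agent.Q71.AB.P.HasPieces Q N.rep := by
  classical
  obtain ⟨ι, hι, b, m, h1, h2⟩ := h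
  have := Fintype.ofFinite ι
  let e := Fintype.equivFin ι
  refine ⟨Fintype.card ι, fun i => line (χ ^ m (e.symm i)), fun i => hQ _, fun x => ?_⟩
  rw [← b.sum_repr x]
  refine Submodule.sum_mem _ fun i _ => Submodule.smul_mem _ _ (Submodule.subset_span ?_)
  refine ⟨e i, LinearMap.toSpanSingleton K N.rep.V (b i), ⟨⊤, inferInstance, fun g _ (y : K) => ?_⟩,
    (1 : K), ?_⟩
  · have h3 : (((χ ^ m (e.symm (e i)) : Γ →* Kˣ) g : Kˣ) : K) = ((χ g ^ m i : Kˣ) : K) := by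
      rw [Equiv.symm_apply_apply]
      rfl
    change ((((χ ^ m (e.symm (e i)) : Γ →* Kˣ) g : Kˣ) : K) * y) • b i = N.rep.ρ g (y • b i)
    rw [h3]
    have h4 : N.rep.ρ g (b i) = ((χ g ^ m i : Kˣ) : K) • b i := h1 g i
    rw [map_smul, h4, smul_smul, mul_comm]
  · change (1 : K) • b i = b i
    rw [one_smul]

theorem line_form (κ : Γ →* Kˣ) : Pool.Agent.Q71.AB.P.Form (1 : K)
    (Pool.Agent.Q71.AB.P.act (line κ : FRep K Γ)) := by
  refine ⟨κ * κ, LinearMap.mul K K, fun (x y : K) => ?_, fun (x : K) hx => ?_,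
    fun g (x y : K) => ?_⟩
  · change x * y = 1 * (y * x)
    rw [one_mul, mul_comm]
  · have h1 : x * 1 = 0 := hx (1 : K)
    rwa [mul_one] at h1
  · change ((κ g : K) * x) * ((κ g : K) * y) = ((κ g * κ g : Kˣ) : K) * (x * y)
    rw [Units.val_mul]
    ring

theorem line_dim (κ : Γ →* Kˣ) : Pool.Agent.Q71.AB.P.dim (line κ : FRep K Γ) = 1 :=
  Module.finrank_self K

variable [CharZero K] [IsAlgClosed K] {J : Type} {w : J → ℤ} {T : J → P.Mot K Γ L}
  {N W : P.Mot K Γ L}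

/-- **The Sato-Tate conjecture.** -/
theorem st_slopes (h : P.SlopeFamily χ t w T)
    (hN : Pool.Agent.Q71.AB.P.HasPieces (fun U => ∀ j, P.SlopeSmall (w j) (T j).rep U) N.rep)
    (hW : P.IsSum T N W) : P.SatoTate χ t W ↔ P.SatoTate χ t N := by
  rw [st_iff, st_iff]
  exact mt_slopes (rst_slopes h) hN (rst_sum hW)

theorem line_small {w : ℤ} {T : FRep K Γ} (h1 : Even w → 1 < Pool.Agent.Q71.AB.P.dim T)
    (h2 : ¬Even w → 1 ≤ Pool.Agent.Q71.AB.P.dim T) (κ : Γ →* Kˣ) :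
    P.FormSmall w T (line κ) := by
  by_cases hw : Even w
  · exact Or.inr (Or.inl ⟨line_form κ, by rw [line_dim]; exact h1 hw⟩)
  · exact Or.inr (Or.inr ⟨hw, Or.inr (Or.inl ⟨line_form κ, by rw [line_dim]; exact h2 hw⟩)⟩)

/-- **Inertia, with a sum of Tate motives.** -/
theorem mt_inertia_tate (h : P.InertiaFamily χ t w T) (hχ : P.InfiniteOrder χ)
    (hN : P.TateSum χ t N) (hW : P.IsSum T N W) : P.MumfordTate χ t W := by
  refine (mt_inertia h (pieces_of_tate hN fun m j => Or.inl (line_small ?_ ?_ _)) hW).2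
    (mt_tateSum hN hχ)
  · intro hj
    rcases (h.even j hj).1 with h1 | h1 <;> omega
  · intro hj
    obtain ⟨g, -, h2⟩ := h.odd j hj
    have h3 : finrank K (LinearMap.range (Pool.Agent.Q71.AB.P.dif
      (Pool.Agent.Q71.AB.P.op (T j).rep g))) ≤ finrank K (T j).rep.V := Submodule.finrank_le _
    have h4 : finrank K (LinearMap.range (Pool.Agent.Q71.AB.P.dif
      (Pool.Agent.Q71.AB.P.op (T j).rep g))) = 1 := h2
    exact h4 ▸ h3

theorem loc_place {T : FRep K Γ} (h : (∃ g : Γ, P.TypeIII (Pool.Agent.Q71.AB.P.op T g)) ∨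
    ∃ v F c, P.SlopesAt T v F c) : ∃ l : Loc K Γ, LocRep T l := by
  rcases h with ⟨g, h⟩ | ⟨v, F, c, h⟩
  · exact ⟨_, loc_inertia h⟩
  · exact ⟨_, loc_slopes h⟩

theorem small_h2 {T U : FRep K Γ} (h : P.H2Small T U) : XSmall (Even (2 : ℤ)) T U := by
  rcases h with h | h | ⟨v, F, c, h1, h2⟩
  · exact small_form h
  · exact ⟨fun _ => small_mild h, fun h => absurd even_two h⟩
  · exact ⟨fun _ => Or.inl ⟨.frobenius v F c, loc_slopes h1, h2⟩, fun h => absurd even_two h⟩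

/-- **Weight two.** -/
theorem mt_h2 (h : P.H2Family χ t T)
    (hN : Pool.Agent.Q71.AB.P.HasPieces (fun U => ∀ j, P.H2Small (T j).rep U) N.rep)
    (hW : P.IsSum T N W) : P.MumfordTate χ t W ↔ P.MumfordTate χ t N := by
  refine ⟨mt_conv hW, fun hMT => ?_⟩
  exact mt_main (w := fun _ => 2) h.pure (fun j _ => ⟨h.rank j, loc_place (h.place j)⟩)
    (fun j hj => absurd even_two hj) (fun i j hij _ => (h.distinct i j hij).1)
    (fun i j hij _ _ hi8 hj8 => absurd ⟨hi8, hj8⟩ (h.distinct i j hij).2)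
    (fun i j _ hj => absurd even_two hj) (brg_pieces hN fun U hU j => small_h2 (hU j)) hW hMT

/-- **Weight two, with a sum of Tate motives.** -/
theorem mt_h2_tate (h : P.H2Family χ t T) (hχ : P.InfiniteOrder χ)
    (hN : P.TateSum χ t N) (hW : P.IsSum T N W) : P.MumfordTate χ t W := by
  refine (mt_h2 h (pieces_of_tate hN fun m j => Or.inl (line_small ?_ ?_ _)) hW).2
    (mt_tateSum hN hχ)
  · intro _
    rcases h.rank j with h1 | h1 <;> omega
  · intro hj
    exact absurd even_two hj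

end Pool.Agent.Q71.MM
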