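import Pool.Agent.Q71.MM.Act4

/-!
# The action of the elements of the motivic Galois group
-/

set_option linter.unusedSectionVars false

namespace Pool.Agent.Q71.MM

open Module Finset Function Pool.Agent.TH118.SG Pool.Agent.TH125.Gal Pool.Agent.Y127.G
  Pool.Agent.Y127.C Pool.Agent.Q71.TM Pool.Agent.Q71.SP Pool.Agent.Q71.AB

variable {K : Type} [Field K] {Γ : Type} [Group Γ] {χ : Γ →* Kˣ}
  {ι : Type} [Fintype ι] [DecidableEq ι] {T : ι → FRep K Γ} {N₀ W : FRep K Γ}
  {d : Dec T N₀ W} {S : Type} [Fintype S] [DecidableEq S]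
  {f : MultilinearMap K (fun _ : S => W.V) K} {o : S → Option d.P}

/-- an operator acts on the component `i` only -/
def goneX (i : ι) (h : Module.End K (T i).V) (x : UU T N₀) : UU T N₀ :=
  (update x.1 i (h (x.1 i)), x.2)

theorem fsort_gX (i : ι) (h : Module.End K (T i).V) (v : S → UU T N₀) :
    HH d f o (fun s => goneX i h (v s)) = fsort d f o i v (fun s => h ((v s).1 i)) := by
  rw [fsort_apply]
  refine HH_congr d f o fun s => ?_
  unfold mkv
  by_cases hs : IsSort d i (o s)
  · rw [dif_pos hs]
    refine jj_sort d hs ?_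
    change update (v s).1 i (h ((v s).1 i)) i = (Pi.single i (h ((v s).1 i)) : ∀ j, (T j).V) i
    rw [update_self, Pi.single_eq_same]
  · rw [dif_neg hs]
    refine jj_notsort d hs (fun j hj => ?_) rfl
    change update (v s).1 i (h ((v s).1 i)) j = _
    rw [update_of_ne hj]

/-- operators act on the components in `A` -/
def gfinX (A : Finset ι) (h : ∀ j, Module.End K (T j).V) (x : UU T N₀) : UU T N₀ :=
  (fun j => if j ∈ A then h j (x.1 j) else x.1 j, x.2)

variable [CharZero K] [IsAlgClosed K]

/-- **The multiplier, symplectic case.** -/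
theorem facX {B : ∀ j, (T j).V →ₗ[K] (T j).V →ₗ[K] K} (alt : ∀ j x y, B j x y = -B j y x)
    (nd : ∀ j x, (∀ y, B j x y = 0) → x = 0) (hk : KillS d f o B) :
    (∀ v, HH d f o v = 0) ∨ ∃ a : ι → ℕ, ∀ (h : ∀ j, Module.End K (T j).V) (m : ι → K),
      (∀ j x y, B j (h j x) (h j y) = m j * B j x y) →
        ∀ v, HH d f o (fun s => gfinX univ h (v s)) = (∏ j, m j ^ a j) * HH d f o v := by
  classical
  by_cases h0 : ∀ v, HH d f o v = 0
  · exact Or.inl h0
  right
  have hone : ∀ i, ∃ a : ℕ, ∀ (h : Module.End K (T i).V) (m : K),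
      (∀ x y, B i (h x) (h y) = m * B i x y) →
        ∀ v, HH d f o (fun s => goneX i h (v s)) = m ^ a * HH d f o v := by
    intro i
    by_cases hc : ∃ a : ℕ, Fintype.card {s // IsSort d i (o s)} = 2 * a
    · obtain ⟨a, ha⟩ := hc
      refine ⟨a, fun h m hm v => ?_⟩
      rcases sp_semi (alt i) (nd i) (hk.sort i v) with h1 | ⟨a', ha', h1⟩
      · rw [fsort_gX, h1, ← fsort_self d f o i v, h1, mul_zero]
      · obtain rfl : a' = a := by
          have h3 : 2 * a' = 2 * a := ha'.symm.trans ha
          omega
        rw [fsort_gX, h1 h m hm, fsort_self]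
    · exfalso
      apply h0
      intro v
      rcases sp_semi (alt i) (nd i) (hk.sort i v) with h1 | ⟨a', ha', h1⟩
      · rw [← fsort_self d f o i v, h1]
      · exact absurd ⟨a', ha'⟩ hc
  choose a ha using hone
  refine ⟨a, fun h m hm => ?_⟩
  have key : ∀ (A : Finset ι) (v : S → UU T N₀), HH d f o (fun s => gfinX A h (v s)) =
      (∏ j ∈ A, m j ^ a j) * HH d f o v := by
    intro A
    induction A using Finset.induction_on with
    | empty =>
      intro v
      rw [Finset.prod_empty, one_mul]
      rfl
    | insert i A hi ih =>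
      intro v
      have h1 : (fun s => gfinX (insert i A) h (v s)) =
          fun s => goneX i (h i) (gfinX A h (v s)) := by
        funext s
        refine Prod.ext (funext fun j => ?_) rfl
        change (if j ∈ insert i A then _ else _) = update (gfinX A h (v s)).1 i
          (h i ((gfinX A h (v s)).1 i)) j
        by_cases hj : j = i
        · subst hj
          rw [if_pos (Finset.mem_insert_self _ _), update_self]
          change _ = h j (if j ∈ A then _ else _)
          rw [if_neg hi]
        · rw [update_of_ne hj]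
          change _ = (if j ∈ A then _ else _)
          by_cases hA : j ∈ A
          · rw [if_pos (Finset.mem_insert_of_mem hA), if_pos hA]
          · rw [if_neg hA, if_neg]
            rw [Finset.mem_insert]
            rintro (h | h)
            · exact hj h
            · exact hA h
      rw [h1, ha i (h i) (m i) (hm i), ih, Finset.prod_insert hi, mul_assoc]
  exact key univ

omit [CharZero K] [IsAlgClosed K] in
theorem gfinX_mk0 (h : ∀ j, Module.End K (T j).V) (X₀ : Module.End K N₀.V) (v : S → UU T N₀)
    (u : {s // o s = none} → N₀.V) :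
    HH d f o (fun s => XU h X₀ (mk0 d o v u s)) =
      HH d f o (fun s => gfinX univ h (mk0 d o v (fun s => X₀ (u s)) s)) := by
  refine HH_congr d f o fun s => ?_
  unfold mk0
  by_cases hs : o s = none
  · rw [dif_pos hs, dif_pos hs, jj_none hs, jj_none hs]
    rfl
  · rw [dif_neg hs, dif_neg hs]
    refine jj_some hs (funext fun j => ?_)
    change h j ((v s).1 j) = if j ∈ univ then _ else _
    rw [if_pos (Finset.mem_univ j)]

omit [CharZero K] [IsAlgClosed K] in
theorem mk0_self (v : S → UU T N₀) (X : ∀ j, Module.End K (T j).V) (X₀ : Module.End K N₀.V) :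
    HH d f o (fun s => XU X X₀ (v s)) =
      HH d f o (fun s => XU X X₀ (mk0 d o v (fun s => (v s).2) s)) := by
  refine HH_congr d f o fun s => ?_
  unfold mk0
  by_cases hs : o s = none
  · rw [dif_pos hs, jj_none hs, jj_none hs]
    rfl
  · rw [dif_neg hs]

end Pool.Agent.Q71.MM
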