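import Pool.Agent.Q71.MM.Grp
import Pool.Agent.Q71.MM.Fin

/-!
# The elements of the motivic Galois group act on the semi-invariant forms on a sum by scalars
-/

set_option linter.unusedSectionVars false

namespace Pool.Agent.Q71.MM

open Module Finset Function Pool.Agent.TH118.SG Pool.Agent.TH125.Gal Pool.Agent.Y127.G
  Pool.Agent.Y127.C Pool.Agent.Q71.TM Pool.Agent.Q71.SP Pool.Agent.Q71.AB

variable {K : Type} [Field K] [CharZero K] [IsAlgClosed K] {Γ : Type} [Group Γ] {χ : Γ →* Kˣ}

/-- the form is multiplied by `χ ^ n`, for all elements of the group -/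
def ExactZ (χ : Γ →* Kˣ) (M : FRep K Γ) (n : ℤ) {S : Type}
    (f : MultilinearMap K (fun _ : S => M.V) K) : Prop :=
  ∀ g v, f (fun s => M.ρ g (v s)) = ((χ g ^ n : Kˣ) : K) * f v

omit [CharZero K] [IsAlgClosed K] in
/-- from `Fin` to any finite set -/
theorem grp_of_fin {N₀ : FRep K Γ} {X₀ : Module.End K N₀.V} {τ : Kˣ}
    (hN : ∀ (n : ℤ) (k : ℕ) (G : MultilinearMap K (fun _ : Fin k => N₀.V) K), ExactZ χ N₀ n G →
      ∀ v, G (fun s => X₀ (v s)) = ((τ ^ n : Kˣ) : K) * G v) {n : ℤ} {S : Type} [Finite S]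
    {G : MultilinearMap K (fun _ : S => N₀.V) K} (hG : ExactZ χ N₀ n G) (v : S → N₀.V) :
    G (fun s => X₀ (v s)) = ((τ ^ n : Kˣ) : K) * G v := by
  classical
  have := Fintype.ofFinite S
  let e := Fintype.equivFin S
  have h1 := hN n _ (G.domDomCongr e) (fun g v => hG g fun s => v (e s)) fun s => v (e.symm s)
  have h3 : ∀ u : S → N₀.V, (G.domDomCongr e) (fun s => u (e.symm s)) = G u := by
    intro u
    change G (fun s => u (e.symm (e s))) = G u
    simp only [Equiv.symm_apply_apply]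
  rw [h3] at h1
  rw [← h1]
  exact (h3 fun s => X₀ (v s)).symm

variable {ι : Type} [Fintype ι] [DecidableEq ι] {T : ι → FRep K Γ} {N₀ W : FRep K Γ} {m : ℕ}
  {M : Fin m → FRep K Γ}

/-- **The elements of the motivic Galois group act on the forms by scalars.** -/
theorem core_grp (hgen : SpannedBy M N₀) {l : ι → Loc K Γ}
    (hT : ∀ j, MRep (l j) False (T j)) {w : ι → ℤ} (hw : ∀ j, (hT j).μ = χ ^ w j)
    (hiso : ∀ i j, i ≠ j → ¬IsoUpTo (T i) (T j)) (hM : ∀ i a, SpSmall (T i) (M a))
    (d : Dec T N₀ W) (hd : ∀ g, g ∈ d.Δ) {XW : Module.End K W.V}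
    {X : ∀ j, Module.End K (T j).V} {X₀ : Module.End K N₀.V} {τ : Kˣ}
    (hX : ∀ j x y, (hT j).B (X j x) (X j y) = ((τ ^ w j : Kˣ) : K) * (hT j).B x y)
    (hr : ∀ p v, d.r p (XW v) = X (d.c p) (d.r p v)) (hr₀ : ∀ v, d.r₀ (XW v) = X₀ (d.r₀ v))
    (hN : ∀ (n : ℤ) (k : ℕ) (G : MultilinearMap K (fun _ : Fin k => N₀.V) K), ExactZ χ N₀ n G →
      ∀ v, G (fun s => X₀ (v s)) = ((τ ^ n : Kˣ) : K) * G v) {n : ℤ} {S : Type} [Fintype S]
    [DecidableEq S] {f : MultilinearMap K (fun _ : S => W.V) K} (hf : ExactZ χ W n f)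
    (v : S → W.V) : f (fun s => XW (v s)) = ((τ ^ n : Kˣ) : K) * f v := by
  classical
  obtain ⟨κ, hD⟩ := exists_Dz (N₀ := N₀) hgen hT hw (fun i j hij _ => hiso i j hij)
    (fun i j _ h => absurd h id) (fun i j h => absurd h id)
    (fun i a => ⟨fun h => absurd h id, fun _ => hM i a⟩)
  have hfS : SemiZ χ W n f := ⟨⊤, inferInstance, fun g _ v => hf g v⟩
  have hcol : ∀ (o : S → Option d.P) (v : S → W.V),
      f (fun x => d.pr (o x) (XW (v x))) =
        ((τ ^ n : Kˣ) : K) * f fun x => d.pr (o x) (v x) := by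
    intro o v
    have hk : KillS d f o fun j => (hT j).B := by
      intro i Y hY v
      obtain ⟨D, hDG, hDi, hDj, hDb, hDn⟩ := hD i Y hY
      have h1 := kill_HH d M κ χ hfS hDG (hDn n) hDj hDb o v
      rw [hDi] at h1
      exact h1
    have h0 : ∀ v : S → W.V, HH d f o (fun s => et d (o s) (v s)) =
        f fun x => d.pr (o x) (v x) := by
      intro v
      rw [HH_apply]
      congr 1
      funext s
      exact jj_et d _ _
    have h2 : f (fun x => d.pr (o x) (XW (v x))) =
        HH d f o (fun s => XU X X₀ (et d (o s) (v s))) := by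
      rw [← h0 fun x => XW (v x)]
      refine HH_congr d f o fun x => ?_
      cases hox : o x with
      | some p =>
        change d.i p ((Pi.single (d.c p) (d.r p (XW (v x))) : ∀ j, (T j).V) (d.c p)) =
          d.i p (X (d.c p) ((Pi.single (d.c p) (d.r p (v x)) : ∀ j, (T j).V) (d.c p)))
        rw [Pi.single_eq_same, Pi.single_eq_same, hr]
      | none =>
        change d.i₀ (d.r₀ (XW (v x))) = d.i₀ (X₀ (d.r₀ (v x)))
        rw [hr₀]
    rw [h2, ← h0]
    obtain ⟨u, hu⟩ : ∃ u : S → UU T N₀, u = fun s => et d (o s) (v s) := ⟨_, rfl⟩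
    have hu' : (fun s => XU X X₀ (et d (o s) (v s))) = fun s => XU X X₀ (u s) := by rw [hu]
    rw [hu', ← hu]
    rcases facX (B := fun j => (hT j).B) (fun j => (hT j).alt id) (fun j => (hT j).nd) hk with
      h | ⟨a, h⟩
    · rw [h, h, mul_zero]
    · have hG : ExactZ χ N₀ (n - ∑ j, w j * a j) (f0 d f o u) := by
        intro g y
        have h3 : HH d f o (fun s => gU g (mk0 d o u y s)) =
            ((χ g ^ n : Kˣ) : K) * f0 d f o u y := by
          rw [f0_apply, HH_apply, HH_apply, ← hf g]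
          congr 1
          funext s
          exact jj_gU d (hd g) _ _
        have h4 := gfinX_mk0 (d := d) (f := f) (o := o) (fun j => (T j).ρ g) (N₀.ρ g) u y
        have h5 := h (fun j => (T j).ρ g) (fun j => ((χ g ^ w j : Kˣ) : K)) (fun j x z => by
          have h6 := (hT j).eqv g x z
          rw [hw j] at h6
          exact h6) (mk0 d o u fun s => N₀.ρ g (y s))
        have h6 : HH d f o (fun s => gU g (mk0 d o u y s)) =
            (∏ j, ((χ g ^ w j : Kˣ) : K) ^ a j) * f0 d f o u (fun s => N₀.ρ g (y s)) :=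
          h4.trans h5
        rw [h3] at h6
        have h7 : (∏ j, ((χ g ^ w j : Kˣ) : K) ^ a j) =
            ((χ g ^ (∑ j, w j * a j) : Kˣ) : K) := by
          rw [← prod_zp, Units.coe_prod]
          refine Finset.prod_congr rfl fun j _ => ?_
          rw [← Units.val_pow_eq_pow_val, zpow_mul, zpow_natCast]
        rw [h7] at h6
        have h8 : ((χ g ^ (∑ j, w j * a j) : Kˣ) : K) ≠ 0 := Units.ne_zero _
        apply mul_left_cancel₀ h8
        rw [← h6, ← mul_assoc, ← Units.val_mul, ← zpow_add]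
        congr 3
        ring
      have h3 := grp_of_fin hN hG (fun s => (u s).2)
      rw [mk0_self, gfinX_mk0, h X (fun j => ((τ ^ w j : Kˣ) : K)) hX, ← f0_apply, h3, f0_self]
      have h7 : (∏ j, ((τ ^ w j : Kˣ) : K) ^ a j) = ((τ ^ (∑ j, w j * a j) : Kˣ) : K) := by
        rw [← prod_zp, Units.coe_prod]
        refine Finset.prod_congr rfl fun j _ => ?_
        rw [← Units.val_pow_eq_pow_val, zpow_mul, zpow_natCast]
      rw [h7, ← mul_assoc, ← Units.val_mul, ← zpow_add]
      congr 3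
      ring
  have hsum : ∀ v : S → W.V, f v = ∑ o : S → Option d.P, f fun s => d.pr (o s) (v s) := by
    intro v
    have h1 := f.map_sum (fun s (o : Option d.P) => d.pr o (v s))
    refine Eq.trans ?_ h1
    congr 1
    funext s
    exact (d.sum_pr (v s)).symm
  rw [hsum v, Finset.mul_sum, hsum fun s => XW (v s)]
  exact Finset.sum_congr rfl fun o _ => hcol o v

end Pool.Agent.Q71.MM
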