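import Pool.Agent.Q71.AB.P2

/-!
# Motives with the elements of the motivic Galois group: definitions
-/

set_option autoImplicit false

namespace Pool.Agent.Q71.MM.P

open Module Function Pool.Agent.Y127.G Pool.Agent.Q71.AB.P

/-- The realizations of a motive over `k`: the representation `rep` of the Galois group `Γ` with
coefficients in `K` (an algebraic closure of `ℚ_ℓ`) and the operators of the elements of `G`, the
group of the `K`-points of the motivic Galois group. -/
structure MotG (K : Type) [Field K] (Γ : Type) [Group Γ] (G : Type) where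
  rep : FRep K Γ
  gal : G → (rep.V →ₗ[K] rep.V)

section

variable {K : Type} [Field K] {V : Type} [AddCommGroup V] [Module K V] {G : Type}

/-- The form `f` is multiplied by `τ ^ n`. -/
def MultBy (τ : G → Kˣ) (x : G → V → V) (n : ℤ) {k : ℕ} (f : MultilinearMap K (fun _ : Fin k => V) K) :
    Prop :=
  ∀ a v, f (fun s => x a (v s)) = ((τ a ^ n : Kˣ) : K) * f v

/-- `U` is stable. -/
def StableAll (x : G → V → V) (U : Submodule K V) : Prop := ∀ a, ∀ u ∈ U, x a u ∈ U

/-- every stable subspace has a stable complement -/
def SemisimpleAll (K : Type) [Field K] {V : Type} [AddCommGroup V] [Module K V] {G : Type}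
    (x : G → V → V) : Prop :=
  ∀ U : Submodule K V, StableAll x U → ∃ C : Submodule K V, StableAll x C ∧ IsCompl U C

/-- A pure motive of weight `w` with a nondegenerate alternating form which the Galois group and the
motivic Galois group multiply by the `w`-th power of the action on the Tate motive; the realization is
irreducible under all subgroups of finite index of the Galois group. -/
structure AltPure {Γ : Type} [Group Γ] (χ : Γ → Kˣ) (τ : G → Kˣ) (w : ℤ) (r : Γ → V → V)
    (x : G → V → V) : Prop where
  form : ∃ B : V →ₗ[K] V →ₗ[K] K, (∀ u, B u u = 0) ∧ (∀ u, (∀ v, B u v = 0) → u = 0) ∧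
    (∀ g u v, B (r g u) (r g v) = ((χ g ^ w : Kˣ) : K) * B u v) ∧
    ∀ a u v, B (x a u) (x a v) = ((τ a ^ w : Kˣ) : K) * B u v
  irreducible : ∀ Δ : Subgroup Γ, Δ.FiniteIndex → ∀ U : Submodule K V,
    (∀ g ∈ Δ, ∀ u ∈ U, r g u ∈ U) → U = ⊥ ∨ U = ⊤

/-- isomorphic up to a twist -/
def TwIso (K : Type) [Field K] {V : Type} [AddCommGroup V] [Module K V] {V' : Type}
    [AddCommGroup V'] [Module K V'] {Γ : Type} (r : Γ → V → V) (r' : Γ → V' → V') : Prop :=
  ∃ (ψ : V ≃ₗ[K] V') (ε : Γ → K), ∀ g x, ψ (r g x) = ε g • r' g (ψ x)

end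

variable {K : Type} [Field K] {Γ : Type} [Group Γ] {G : Type}

/-- the action of an element of the motivic Galois group -/
def gact (M : MotG K Γ G) (a : G) (x : M.rep.V) : M.rep.V := M.gal a x

/-- The motivic Tate conjecture for `M`, over `k`: the Galois representation is semisimple, and every
multilinear form which the Galois group multiplies by `χ ^ n` is multiplied by `τ ^ n` under the motivic
Galois group, where `χ` and `τ` are the actions on the Tate motive. -/
def MotivicTate (χ : Γ → Kˣ) (τ : G → Kˣ) (M : MotG K Γ G) : Prop :=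
  SemisimpleAll K (act M.rep) ∧ ∀ (k : ℕ) (n : ℤ)
    (f : MultilinearMap K (fun _ : Fin k => M.rep.V) K),
    MultBy χ (act M.rep) n f → MultBy τ (gact M) n f

/-- a linear map of the realizations which is equivariant for the two groups -/
def IsMorG (M M' : MotG K Γ G) (f : M.rep.V → M'.rep.V) : Prop :=
  IsLinearMap K f ∧ (∀ g x, f (act M.rep g x) = act M'.rep g (f x)) ∧
    ∀ a x, f (gact M a x) = gact M' a (f x)

/-- `W` is the direct sum of `N` and copies of the `T j`. -/
def IsSumG {J : Type} (T : J → MotG K Γ G) (N W : MotG K Γ G) : Prop :=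
  ∃ (P : Type) (_ : Finite P) (c : P → J) (f : ∀ p, W.rep.V → (T (c p)).rep.V)
    (f₀ : W.rep.V → N.rep.V), (∀ p, IsMorG W (T (c p)) (f p)) ∧ IsMorG W N f₀ ∧
      Function.Bijective fun x => ((fun p => f p x : ∀ p, (T (c p)).rep.V), f₀ x)

/-- Pure motives `T j` of odd weights `w j` (with alternating forms), not isomorphic to each other up
to a twist. On each `T j` some element of `Γ` (in the inertia group of a place) acts by a transvection,
or some element (a Frobenius element) acts with the slopes `h + c` and `h - c`, once each, and `h`. -/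
structure AltFamily {J : Type} (χ : Γ → Kˣ) (τ : G → Kˣ) (w : J → ℤ) (T : J → MotG K Γ G) :
    Prop where
  pure : ∀ j, AltPure χ τ (w j) (act (T j).rep) (gact (T j))
  distinct : ∀ i j, i ≠ j → ¬TwIso K (act (T i).rep) (act (T j).rep)
  place : ∀ j, HasTransvection (T j).rep ∨ ThreeSlopes (T j).rep

/-- `U` is small with respect to `T` -/
def AltSmall (T U : FRep K Γ) : Prop := SmallDim T U ∨ SmallInertia T U ∨ FewSlopes T U

end Pool.Agent.Q71.MM.P
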