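import Pool.Agent.Q71.MM.Grp2
import Pool.Agent.Q71.MM.P5

/-!
# The motivic Tate conjecture for sums
-/

set_option linter.unusedSectionVars false

namespace Pool.Agent.Q71.MM

open Module Finset Function Pool.Agent.TH118.SG Pool.Agent.TH125.Gal Pool.Agent.Y127.G
  Pool.Agent.Y127.C Pool.Agent.Q71.TM Pool.Agent.Q71.SP Pool.Agent.Q71.AB

variable {K : Type} [Field K] {Γ : Type} [Group Γ] {χ : Γ →* Kˣ} {G : Type} {τ : G → Kˣ}

/-- the decomposition -/
theorem exists_decG {J : Type} {T : J → P.MotG K Γ G} {N W : P.MotG K Γ G}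
    (h : P.IsSumG T N W) :
    ∃ (S : Set J) (_ : S.Finite) (d : Dec (fun j : S => (T j).rep) N.rep W.rep),
      (∀ g, g ∈ d.Δ) ∧ (∀ a p v, d.r p (W.gal a v) = (T (d.c p)).gal a (d.r p v)) ∧
      (∀ a v, d.r₀ (W.gal a v) = N.gal a (d.r₀ v)) ∧
      (∀ a v, W.gal a (d.i₀ v) = d.i₀ (N.gal a v)) := by
  classical
  obtain ⟨P, hP, c, f, f₀, hf, ⟨hl, h2, h4⟩, hbij⟩ := h
  have := Fintype.ofFinite P
  choose hfl h1 h3 using hf
  let ff : W.rep.V →ₗ[K] (∀ p, (T (c p)).rep.V) × N.rep.V :=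
    LinearMap.prod (LinearMap.pi fun p => (hfl p).mk' (f p)) (hl.mk' f₀)
  let e : W.rep.V ≃ₗ[K] (∀ p, (T (c p)).rep.V) × N.rep.V := LinearEquiv.ofBijective ff hbij
  let c' : P → Set.range c := fun p => ⟨c p, p, rfl⟩
  have he : ∀ g x, e (W.rep.ρ g x) =
      (fun p => (T (c p)).rep.ρ g ((e x).1 p), N.rep.ρ g (e x).2) := fun g x =>
    Prod.ext (funext fun p => h1 p g x) (h2 g x)
  have he' : ∀ a x, e (W.gal a x) = (fun p => (T (c p)).gal a ((e x).1 p), N.gal a (e x).2) :=
    fun a x => Prod.ext (funext fun p => h3 p a x) (h4 a x)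
  refine ⟨Set.range c, Set.finite_range c,
    { P := P
      c := c'
      i := fun p => e.symm.toLinearMap ∘ₗ LinearMap.inl K _ _ ∘ₗ
        LinearMap.single K (fun p => (T (c p)).rep.V) p
      r := fun p => LinearMap.proj p ∘ₗ LinearMap.fst K _ _ ∘ₗ e.toLinearMap
      i₀ := e.symm.toLinearMap ∘ₗ LinearMap.inr K _ _
      r₀ := LinearMap.snd K _ _ ∘ₗ e.toLinearMap
      ri := ?_
      ri₀ := ?_
      sum := ?_
      Δ := ⊤
      fi := inferInstance
      i_eqv := ?_
      r_eqv := ?_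
      i₀_eqv := ?_
      r₀_eqv := ?_ }, fun g => Subgroup.mem_top g, ?_, ?_, ?_⟩
  · intro p x
    change (e (e.symm (Pi.single p x, 0))).1 p = x
    rw [e.apply_symm_apply]
    exact Pi.single_eq_same (M := fun p => (T (c p)).rep.V) p x
  · intro x
    change (e (e.symm (0, x))).2 = x
    rw [e.apply_symm_apply]
  · intro w
    apply e.injective
    change e (e.symm (0, (e w).2) + ∑ p, e.symm (Pi.single p ((e w).1 p), 0)) = e w
    rw [map_add, map_sum, e.apply_symm_apply]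
    have h5 : ∀ p, e (e.symm (Pi.single p ((e w).1 p), 0)) =
        ((Pi.single p ((e w).1 p), 0) : (∀ p, (T (c p)).rep.V) × N.rep.V) := fun p =>
      e.apply_symm_apply _
    rw [Finset.sum_congr rfl fun p _ => h5 p]
    have h6 := map_sum (LinearMap.inl K (∀ p, (T (c p)).rep.V) N.rep.V)
      (fun p => (Pi.single p ((e w).1 p) : ∀ p, (T (c p)).rep.V)) univ
    rw [Finset.univ_sum_single (e w).1] at h6
    have h7 : ∑ p, ((Pi.single p ((e w).1 p), 0) : (∀ p, (T (c p)).rep.V) × N.rep.V) =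
        ((e w).1, 0) := h6.symm
    rw [h7, Prod.mk_add_mk, zero_add, add_zero]
  · intro g _ p x
    apply e.injective
    change e (e.symm (Pi.single p ((T (c p)).rep.ρ g x), 0)) =
      e (W.rep.ρ g (e.symm (Pi.single p x, 0)))
    rw [e.apply_symm_apply, he g, e.apply_symm_apply, map_zero]
    refine Prod.ext (funext fun q => ?_) rfl
    change (Pi.single p ((T (c p)).rep.ρ g x) : ∀ p, (T (c p)).rep.V) q =
      (T (c q)).rep.ρ g ((Pi.single p x : ∀ p, (T (c p)).rep.V) q)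
    by_cases hq : q = p
    · subst hq
      rw [Pi.single_eq_same, Pi.single_eq_same]
    · rw [Pi.single_eq_of_ne hq, Pi.single_eq_of_ne hq, map_zero]
  · intro g _ p w
    exact h1 p g w
  · intro g _ x
    apply e.injective
    change e (e.symm (0, N.rep.ρ g x)) = e (W.rep.ρ g (e.symm (0, x)))
    rw [e.apply_symm_apply, he g, e.apply_symm_apply]
    refine Prod.ext (funext fun q => ?_) rfl
    exact (map_zero _).symm
  · intro g _ w
    exact h2 g w
  · intro a p v
    exact h3 p a v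
  · intro a v
    exact h4 a v
  · intro a v
    apply e.injective
    change e (W.gal a (e.symm (0, v))) = e (e.symm (0, N.gal a v))
    rw [e.apply_symm_apply, he', e.apply_symm_apply]
    refine Prod.ext (funext fun q => ?_) rfl
    exact map_zero _

/-- semisimplicity of a sum -/
theorem ssG_dec {ι : Type} {T : ι → FRep K Γ} {N₀ W : FRep K Γ} (d : Dec T N₀ W)
    (hd : ∀ g, g ∈ d.Δ) (hsi : ∀ j, SI (T j).ρ)
    (h : P.SemisimpleAll K (Pool.Agent.Q71.AB.P.act N₀)) :
    P.SemisimpleAll K (Pool.Agent.Q71.AB.P.act W) := by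
  classical
  intro U hU
  have key := ss_of_pieces (M := W) (Δ := (⊤ : Subgroup Γ))
    (fun q : Option d.P => q.elim (LinearMap.range d.i₀)
      fun p => LinearMap.range (d.i p)) ?_ ?_ U (fun g _ => hU g)
  · obtain ⟨C, hC1, hC2, hC3⟩ := key
    exact ⟨C, fun g => hC1 g (Subgroup.mem_top g), IsCompl.of_eq hC2 hC3⟩
  · intro q U' hU'
    cases q with
    | some p =>
      change ∃ C ≤ LinearMap.range (d.i p), _ ∧ _ ∧ LinearMap.range (d.i p) ≤ _
      rcases hsi (d.c p) ⊤ inferInstance (U'.comap (d.i p)) (fun g hg x hx => by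
        rw [Submodule.mem_comap] at hx ⊢
        rw [d.i_eqv g (hd g)]
        exact hU' g hg _ hx) with h1 | h1
      · refine ⟨LinearMap.range (d.i p), le_rfl, ?_, ?_, le_sup_right⟩
        · rintro g hg _ ⟨x, rfl⟩
          exact ⟨_, d.i_eqv g (hd g) p x⟩
        · rw [Submodule.eq_bot_iff]
          rintro _ ⟨hx, x, rfl⟩
          have h2 : x ∈ U'.comap (d.i p) := hx
          rw [h1, Submodule.mem_bot] at h2
          rw [h2, map_zero]
      · refine ⟨⊥, bot_le, fun g _ x hx => ?_, inf_bot_eq _, ?_⟩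
        · rw [Submodule.mem_bot] at hx ⊢
          rw [hx, map_zero]
        · rw [sup_bot_eq]
          rintro _ ⟨x, rfl⟩
          have h2 : x ∈ U'.comap (d.i p) := by rw [h1]; exact Submodule.mem_top
          exact h2
    | none =>
      change ∃ C ≤ LinearMap.range d.i₀, _ ∧ _ ∧ LinearMap.range d.i₀ ≤ _
      obtain ⟨C, hC1, hC⟩ := h (U'.comap d.i₀) (fun g x hx => by
          rw [Submodule.mem_comap] at hx ⊢
          have h5 : d.i₀ (Pool.Agent.Q71.AB.P.act N₀ g x) = W.ρ g (d.i₀ x) := d.i₀_eqv g (hd g) x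
          rw [h5]
          exact hU' g (Subgroup.mem_top g) _ hx)
      refine ⟨C.map d.i₀, ?_, ?_, ?_, ?_⟩
      · rintro _ ⟨x, -, rfl⟩
        exact ⟨x, rfl⟩
      · rintro g hg _ ⟨x, hx, rfl⟩
        exact ⟨_, hC1 g x hx, d.i₀_eqv g (hd g) x⟩
      · rw [Submodule.eq_bot_iff]
        rintro _ ⟨hx, x, hxC, rfl⟩
        have h2 : x ∈ U'.comap d.i₀ ⊓ C := ⟨hx, hxC⟩
        rw [hC.inf_eq_bot, Submodule.mem_bot] at h2
        rw [h2, map_zero]
      · rintro _ ⟨x, rfl⟩
        have h2 : x ∈ U'.comap d.i₀ ⊔ C := by rw [hC.sup_eq_top]; exact Submodule.mem_top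
        obtain ⟨u, hu, c, hc, rfl⟩ := Submodule.mem_sup.1 h2
        rw [map_add]
        exact Submodule.add_mem_sup hu ⟨c, hc, rfl⟩
  · intro U' hU'
    rw [eq_top_iff]
    intro x _
    rw [← d.sum x]
    refine U'.add_mem (hU' none ⟨_, rfl⟩) (U'.sum_mem fun p _ => hU' (some p) ⟨_, rfl⟩)

theorem ssG_conv {ι : Type} {T : ι → FRep K Γ} {N₀ W : FRep K Γ} (d : Dec T N₀ W)
    (hd : ∀ g, g ∈ d.Δ) (h : P.SemisimpleAll K (Pool.Agent.Q71.AB.P.act W)) :
    P.SemisimpleAll K (Pool.Agent.Q71.AB.P.act N₀) := by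
  intro U hU
  have hi : ∀ g x, d.i₀ (Pool.Agent.Q71.AB.P.act N₀ g x) =
      Pool.Agent.Q71.AB.P.act W g (d.i₀ x) := fun g x => d.i₀_eqv g (hd g) x
  obtain ⟨C, hC1, hC⟩ := h (U.map d.i₀) (by
    rintro g _ ⟨x, hx, rfl⟩
    exact ⟨_, hU g x hx, hi g x⟩)
  refine ⟨C.comap d.i₀, ?_, IsCompl.of_eq ?_ ?_⟩
  · intro g x hx
    rw [Submodule.mem_comap] at hx ⊢
    rw [hi]
    exact hC1 g _ hx
  · rw [Submodule.eq_bot_iff]
    rintro x ⟨hx, hxC⟩
    have h2 : d.i₀ x ∈ U.map d.i₀ ⊓ C := ⟨⟨x, hx, rfl⟩, hxC⟩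
    rw [hC.inf_eq_bot, Submodule.mem_bot] at h2
    rw [← d.ri₀ x, h2, map_zero]
  · rw [eq_top_iff]
    intro x _
    have h2 : d.i₀ x ∈ U.map d.i₀ ⊔ C := by rw [hC.sup_eq_top]; exact Submodule.mem_top
    obtain ⟨_, ⟨u, hu, rfl⟩, c, hc, h3⟩ := Submodule.mem_sup.1 h2
    have h4 : c = d.i₀ (x - u) := by rw [map_sub, ← h3, add_sub_cancel_left]
    have h5 : x - u ∈ C.comap d.i₀ := by
      rw [Submodule.mem_comap, ← h4]
      exact hc
    rw [← add_sub_cancel u x]
    exact Submodule.add_mem_sup hu h5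

theorem tg_conv {J : Type} {T : J → P.MotG K Γ G} {N W : P.MotG K Γ G} (h : P.IsSumG T N W)
    (hW : P.MotivicTate χ τ W) : P.MotivicTate χ τ N := by
  obtain ⟨S, hS, d, hd, h1, h2, h3⟩ := exists_decG h
  refine ⟨ssG_conv d hd hW.1, fun k n f hf a v => ?_⟩
  have h4 := hW.2 k n (f.compLinearMap fun _ => d.r₀) (fun g v => by
    change f (fun s => d.r₀ (W.rep.ρ g (v s))) = _ * f fun s => d.r₀ (v s)
    simp only [d.r₀_eqv g (hd g)]
    exact hf g _) a (fun s => d.i₀ (v s))
  change f (fun s => d.r₀ (W.gal a (d.i₀ (v s)))) = _ * f (fun s => d.r₀ (d.i₀ (v s))) at h4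
  simp only [h3, d.ri₀] at h4
  exact h4

variable [CharZero K] [IsAlgClosed K]

theorem alt_small {T U : FRep K Γ} (h : P.AltSmall T U) : SpSmall T U := by
  rcases h with h | h | h
  · exact brg_dim h
  · exact brg_inertia h
  · exact brg_slopes h

/-- **The motivic Tate conjecture for sums.** -/
theorem tg_main {J : Type} {T : J → P.MotG K Γ G} {N W : P.MotG K Γ G} {w : J → ℤ}
    (hT : P.AltFamily χ τ w T) (h : P.IsSumG T N W)
    (hNp : Pool.Agent.Q71.AB.P.HasPieces (fun U => ∀ j, P.AltSmall (T j).rep U) N.rep) :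
    P.MotivicTate χ τ W ↔ P.MotivicTate χ τ N := by
  classical
  refine ⟨tg_conv h, fun hN => ?_⟩
  obtain ⟨S, hS, d, hd, h1, h2, h3⟩ := exists_decG h
  obtain ⟨m, M, hM, hgen⟩ := brg_pieces hNp fun U hU j => alt_small (hU j)
  have : Fintype S := hS.fintype
  choose B hB1 hB2 hB3 hB4 using fun j => (hT.pure j).form
  let hTm : ∀ j, MRep (.inertia 1) False (T j).rep := fun j =>
    { B := B j
      μ := χ ^ w j
      eqv := hB3 j
      nd := hB2 j
      si := (hT.pure j).irreducible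
      sy := fun h => absurd h id
      orth := fun h => absurd h id
      alt := fun _ x y => by
        have h1 := hB1 j (x + y)
        rw [map_add, map_add, LinearMap.add_apply, LinearMap.add_apply, hB1 j x, hB1 j y,
          zero_add, add_zero] at h1
        exact eq_neg_of_add_eq_zero_right h1
      symp := fun _ => (hT.place j).elim brg_full_transv brg_full_slopes }
  refine ⟨ssG_dec d hd (fun j => (hTm j).si) hN.1, fun k n f hf a v => ?_⟩
  exact core_grp (M := M) hgen (fun j : S => hTm j) (w := fun j : S => w j) (fun _ => rfl)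
    (fun i j hij h => hT.distinct i j (fun h' => hij (Subtype.ext h')) h)
    (fun i a => hM a i) d hd (X := fun j : S => (T j).gal a)
    (fun j x y => hB4 j a x y) (h1 a) (h2 a)
    (fun n k G hG v => hN.2 k n G hG a v) hf v

end Pool.Agent.Q71.MM
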