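import Pool.Agent.Q71.SP.App
import Pool.Agent.Q71.AB.Lie

/-!
# The Lie algebra of a family of representations of orthogonal and symplectic type and a small
# representation
-/

set_option linter.unusedSectionVars false

namespace Pool.Agent.Q71.MM

open Module Finset Function Pool.Agent.TH118.SG Pool.Agent.TH125.Gal Pool.Agent.Y127.G
  Pool.Agent.Y127.C Pool.Agent.Q71.TM Pool.Agent.Q71.SP

variable {K : Type} [Field K] [CharZero K] [IsAlgClosed K] {Γ : Type} [Group Γ]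

/-- the index set -/
inductive Jz (ι : Type) (m : ℕ) : Type
  | t (j : ι)
  | pc (a : Fin m)
  | cf (j : ι) (a : Fin m)
  | b
  | chi (n : ℤ)

/-- the family -/
def famz {ι : Type} {m : ℕ} (T : ι → FRep K Γ) (M : Fin m → FRep K Γ) (κ : ι → Fin m → Γ →* Kˣ)
    (χ : Γ →* Kˣ) (N : FRep K Γ) : Jz ι m → FRep K Γ
  | .t j => T j
  | .pc a => M a
  | .cf j a => line (κ j a)
  | .b => N
  | .chi n => line (χ ^ n)

/-- `U` is small with respect to `T`, of orthogonal type -/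
def OSmall (T U : FRep K Γ) : Prop :=
  (∃ l : Loc K Γ, LocRep T l ∧ LocSmall U (finrank K T.V) l) ∨
    (HasForm 1 U ∧ finrank K U.V < finrank K T.V) ∨
    (HasForm (-1) U ∧ finrank K U.V + 1 < finrank K T.V)

/-- `U` is small with respect to `T`, of orthogonal or symplectic type -/
def XSmall (e : Prop) (T U : FRep K Γ) : Prop := (e → OSmall T U) ∧ (¬e → SpSmall T U)

/-- pairs of different types -/
def XPair (T T' : FRep K Γ) : Prop :=
  (∃ l : Loc K Γ, LocRep T l ∧ LocSmall T' (finrank K T.V) l) ∨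
    finrank K T'.V + 1 < finrank K T.V ∨ SpWit T' T ∨ finrank K T.V ≤ finrank K T'.V

/-- the same local element -/
def SameLoc (T T' : FRep K Γ) : Prop :=
  ∃ l l' : Loc K Γ, LocRep T l ∧ LocRep T' l' ∧ l.Same l'

/-- **The operators.** -/
theorem exists_Dz {ι : Type} [Fintype ι] {m : ℕ} {T : ι → FRep K Γ} {M : Fin m → FRep K Γ}
    {χ : Γ →* Kˣ} {N₀ : FRep K Γ} (hgen : Pool.Agent.Q71.AB.SpannedBy M N₀)
    {l : ι → Loc K Γ} {e : ι → Prop} (hT : ∀ j, MRep (l j) (e j) (T j)) {w : ι → ℤ}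
    (hw : ∀ j, (hT j).μ = χ ^ w j)
    (hiso : ∀ i j, i ≠ j → (e i ↔ e j) → ¬IsoUpTo (T i) (T j))
    (h8 : ∀ i j, j ≠ i → e i → e j → finrank K (T i).V = 8 → finrank K (T j).V = 8 →
      SameLoc (T i) (T j))
    (hpair : ∀ i j, e i → ¬e j → XPair (T i) (T j))
    (hM : ∀ i a, XSmall (e i) (T i) (M a)) :
    ∃ κ : ι → Fin m → Γ →* Kˣ, ∀ (i : ι) (X : Module.End K (T i).V), Skew (hT i).B X →
      ∃ D ∈ GG (famz T M κ χ N₀), D (Jz.t i) = X ∧ (∀ j, j ≠ i → D (Jz.t j) = 0) ∧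
        D Jz.b = 0 ∧ ∀ n, D (Jz.chi n) = 0 := by
  classical
  -- the characters of the forms
  have hκ : ∀ i a, ∃ κ : Γ →* Kˣ,
      (e i → (∃ l : Loc K Γ, LocRep (T i) l ∧ LocSmall (M a) (finrank K (T i).V) l) ∨
      (∃ B : (M a).V →ₗ[K] (M a).V →ₗ[K] K, (∀ x y, B x y = (1 : K) * B y x) ∧
        (∀ x, (∀ y, B x y = 0) → x = 0) ∧
        (∀ g x y, B ((M a).ρ g x) ((M a).ρ g y) = (κ g : K) * B x y) ∧
        finrank K (M a).V < finrank K (T i).V) ∨
      (∃ B : (M a).V →ₗ[K] (M a).V →ₗ[K] K, (∀ x y, B x y = (-1 : K) * B y x) ∧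
        (∀ x, (∀ y, B x y = 0) → x = 0) ∧
        (∀ g x y, B ((M a).ρ g x) ((M a).ρ g y) = (κ g : K) * B x y) ∧
        finrank K (M a).V + 1 < finrank K (T i).V)) ∧
      (¬e i → SpWit (T i) (M a) ∨
      (∃ B : (M a).V →ₗ[K] (M a).V →ₗ[K] K, (∀ x y, B x y = (1 : K) * B y x) ∧
        (∀ x, (∀ y, B x y = 0) → x = 0) ∧
        (∀ g x y, B ((M a).ρ g x) ((M a).ρ g y) = (κ g : K) * B x y) ∧
        finrank K (M a).V ≤ finrank K (T i).V) ∨
      (∃ B : (M a).V →ₗ[K] (M a).V →ₗ[K] K, (∀ x y, B x y = (-1 : K) * B y x) ∧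
        (∀ x, (∀ y, B x y = 0) → x = 0) ∧
        (∀ g x y, B ((M a).ρ g x) ((M a).ρ g y) = (κ g : K) * B x y) ∧
        finrank K (M a).V < finrank K (T i).V)) := by
    intro i a
    by_cases hei : e i
    · rcases (hM i a).1 hei with h1 | ⟨⟨μ, B, h1, h2, h3⟩, h4⟩ | ⟨⟨μ, B, h1, h2, h3⟩, h4⟩
      · exact ⟨1, fun _ => Or.inl h1, fun h => absurd hei h⟩
      · exact ⟨μ, fun _ => Or.inr (Or.inl ⟨B, h1, h2, h3, h4⟩), fun h => absurd hei h⟩
      · exact ⟨μ, fun _ => Or.inr (Or.inr ⟨B, h1, h2, h3, h4⟩), fun h => absurd hei h⟩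
    · rcases (hM i a).2 hei with h1 | ⟨⟨μ, B, h1, h2, h3⟩, h4⟩ | ⟨⟨μ, B, h1, h2, h3⟩, h4⟩
      · exact ⟨1, fun h => absurd h hei, fun _ => Or.inl h1⟩
      · exact ⟨μ, fun h => absurd h hei, fun _ => Or.inr (Or.inl ⟨B, h1, h2, h3, h4⟩)⟩
      · exact ⟨μ, fun h => absurd h hei, fun _ => Or.inr (Or.inr ⟨B, h1, h2, h3, h4⟩)⟩
  choose κ hκ using hκ
  refine ⟨κ, fun i X hX => ?_⟩
  let N : Jz ι m → FRep K Γ := famz T M κ χ N₀
  let fr : ∀ j, Frm N (Jz.t j) := fun j => ⟨(hT j).B, fun g => ((hT j).μ g : K), (hT j).eqv,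
    Jz.chi (w j), line_finrank _, fun g x => by
      rw [hw j]
      rfl⟩
  have hoF : ∀ j, e j → ∃ o : Ful N (Jz.t j), o.toFrm = fr j := fun j hj =>
    loc_ful (N := N) (t := Jz.t j) (fr j) ((hT j).sy hj) (hT j).nd (hT j).si
      ((hT j).orth hj).1 ((hT j).orth hj).2
  have hoS : ∀ j, ¬e j → ∃ o : SFul N (Jz.t j), o.toFrm = fr j := fun j hj =>
    exists_SFul (N := N) (t := Jz.t j) ((hT j).alt hj) (hT j).nd (hT j).si ((hT j).symp hj)
  have hmem : ∀ j, ∃ o : Smp N (Jz.t j), o.S = SkewS (hT j).B := by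
    intro j
    by_cases hj : e j
    · obtain ⟨o, ho⟩ := hoF j hj
      exact ⟨ofFul o, congrArg (fun f : Frm N (Jz.t j) => SkewS f.B) ho⟩
    · obtain ⟨o, ho⟩ := hoS j hj
      exact ⟨ofSFul o, congrArg (fun f : Frm N (Jz.t j) => SkewS f.B) ho⟩
  choose o ho using hmem
  -- pairs
  have hps : ∀ i j, e i → ¬e j → Good N (Jz.t i) (Jz.t j) ∨ Good N (Jz.t j) (Jz.t i) := by
    intro i j hei hej
    rcases hpair i j hei hej with ⟨l', hl', h⟩ | h | h | h
    · exact Or.inl (loc_small (N := N) (t := Jz.t i) (fr i) ((hT i).sy hei) (hT i).nd (hT i).si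
        ((hT i).orth hei).1 hl' (a := Jz.t j) h)
    · obtain ⟨p, -⟩ := hoF i hei
      exact Or.inl (p.good_of_alt (a := Jz.t j) (fr j) ((hT j).alt hej) (hT j).nd h)
    · obtain ⟨p, -⟩ := hoS j hej
      exact Or.inr (p.good_of_wit (a := Jz.t i) h)
    · obtain ⟨p, -⟩ := hoS j hej
      exact Or.inr (p.good_of_sym (a := Jz.t i) (fr i) ((hT i).sy hei) (hT i).nd h)
  have hgoodT : ∀ j, j ≠ i → Good N (Jz.t i) (Jz.t j) := by
    intro j hj
    by_cases hei : e i
    · by_cases hej : e j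
      · obtain ⟨p, -⟩ := hoF i hei
        obtain ⟨p', -⟩ := hoF j hej
        by_cases hi8 : finrank K (T i).V = 8
        · by_cases hj8 : finrank K (T j).V = 8
          · obtain ⟨l', l'', hl', hl'', hs⟩ := h8 i j hj hei hej hi8 hj8
            exact loc_same (N := N) (t := Jz.t i) (fr i) ((hT i).sy hei) (hT i).nd (hT i).si
              ((hT i).orth hei).1 hl' (t' := Jz.t j) (fr j) ((hT j).sy hej)
              (hT j).nd (hT j).si ((hT j).orth hej).1 hl''
              hs (hiso j i hj ⟨fun _ => hei, fun _ => hej⟩)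
          · exact p.good_symm p' (p'.good_of_not_iso p hj8
              (hiso i j hj.symm ⟨fun _ => hej, fun _ => hei⟩))
        · exact p.good_of_not_iso p' hi8 (hiso j i hj ⟨fun _ => hei, fun _ => hej⟩)
      · rcases hps i j hei hej with h | h
        · exact h
        · exact (o i).good_symm (o j) h
    · by_cases hej : e j
      · rcases hps j i hej hei with h | h
        · exact (o i).good_symm (o j) h
        · exact h
      · obtain ⟨p, -⟩ := hoS i hei
        obtain ⟨p', -⟩ := hoS j hej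
        exact p.good_of_not_iso p' (hiso j i hj ⟨fun h => absurd h hej, fun h => absurd h hei⟩)
  have hgoodM : ∀ a, Good N (Jz.t i) (Jz.pc a) := by
    intro a
    by_cases hei : e i
    · obtain ⟨p, -⟩ := hoF i hei
      rcases (hκ i a).1 hei with ⟨l', hl', h1⟩ | ⟨B, h1, h2, h3, h4⟩ | ⟨B, h1, h2, h3, h4⟩
      · exact loc_small (N := N) (t := Jz.t i) (fr i) ((hT i).sy hei) (hT i).nd (hT i).si
          ((hT i).orth hei).1 hl' (a := Jz.pc a) h1
      · exact p.good_of_sym (a := Jz.pc a) ⟨B, fun g => (κ i a g : K), h3, Jz.cf i a,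
          line_finrank _, fun g x => rfl⟩ (fun x y => (h1 x y).trans (one_mul _)) h2 h4
      · exact p.good_of_alt (a := Jz.pc a) ⟨B, fun g => (κ i a g : K), h3, Jz.cf i a,
          line_finrank _, fun g x => rfl⟩ (fun x y => (h1 x y).trans (neg_one_mul _)) h2 h4
    · obtain ⟨p, -⟩ := hoS i hei
      rcases (hκ i a).2 hei with h1 | ⟨B, h1, h2, h3, h4⟩ | ⟨B, h1, h2, h3, h4⟩
      · exact p.good_of_wit (a := Jz.pc a) h1
      · exact p.good_of_sym (a := Jz.pc a) ⟨B, fun g => (κ i a g : K), h3, Jz.cf i a,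
          line_finrank _, fun g x => rfl⟩ (fun x y => (h1 x y).trans (one_mul _)) h2 h4
      · exact p.good_of_alt (a := Jz.pc a) ⟨B, fun g => (κ i a g : K), h3, Jz.cf i a,
          line_finrank _, fun g x => rfl⟩ (fun x y => (h1 x y).trans (neg_one_mul _)) h2 h4
  -- an operator which kills the other members
  obtain ⟨D, hD, hD0, hDt⟩ := (o i).good_finset
    ((univ.filter (· ≠ i)).image Jz.t ∪ (univ : Finset (Fin m)).image Jz.pc) (by
      intro a ha
      rcases Finset.mem_union.1 ha with ha | ha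
      · obtain ⟨j, hj, rfl⟩ := Finset.mem_image.1 ha
        exact hgoodT j (Finset.mem_filter.1 hj).2
      · obtain ⟨a, -, rfl⟩ := Finset.mem_image.1 ha
        exact hgoodM a) (X := X) (by rw [ho]; exact hX)
  have hDG := GG1_le hD
  have hDT : ∀ j, j ≠ i → D (Jz.t j) = 0 := fun j hj => hD0 _ (Finset.mem_union_left _
    (Finset.mem_image.2 ⟨j, Finset.mem_filter.2 ⟨Finset.mem_univ _, hj⟩, rfl⟩))
  have hDM : ∀ a, D (Jz.pc a) = 0 := fun a => hD0 _ (Finset.mem_union_right _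
    (Finset.mem_image.2 ⟨a, Finset.mem_univ _, rfl⟩))
  have hDc : ∀ n, D (Jz.chi n) = 0 := fun n => GG1_line hD (line_finrank _).le
  refine ⟨D, hDG, hDt, hDT, ?_, hDc⟩
  apply LinearMap.ext
  intro x
  rw [LinearMap.zero_apply]
  have hx := hgen x
  induction hx using Submodule.span_induction with
  | mem x hx =>
    obtain ⟨a, f, ⟨Δ, hΔ, hf⟩, y, rfl⟩ := hx
    have h2 := lin_der (N := N) (a := Jz.pc a) (c := Jz.b) f hΔ hf hDG y
    rw [hDM] at h2
    exact h2.symm.trans (map_zero f)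
  | zero => exact map_zero _
  | add x y _ _ hx hy => rw [map_add, hx, hy, add_zero]
  | smul c x _ hx => rw [map_smul, hx, smul_zero]

end Pool.Agent.Q71.MM
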