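import Pool.Agent.Q71.MM.Grp2

/-!
# Similitudes with determinant signs
-/

set_option linter.unusedSectionVars false

namespace Pool.Agent.Q71.MM

open Module Finset Function

section one

variable {K : Type} [Field K] [CharZero K] {T : Type} [AddCommGroup T] [Module K T]
  [FiniteDimensional K T] {B : T →ₗ[K] T →ₗ[K] K}

/-- a reflection -/
theorem exists_refl (sy : ∀ x y, B x y = B y x) (nd : ∀ x, (∀ y, B x y = 0) → x = 0)
    (h : ∃ x : T, x ≠ 0) : ∃ s : T →ₗ[K] T, (∀ x y, B (s x) (s y) = B x y) ∧
      LinearMap.det s = -1 ∧ ∀ x, s (s x) = x := by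
  obtain ⟨v, hv⟩ : ∃ v, B v v ≠ 0 := by
    by_contra h0
    push Not at h0
    obtain ⟨x, hx⟩ := h
    apply hx
    apply nd
    intro y
    have h1 := h0 (x + y)
    rw [map_add, map_add, LinearMap.add_apply, LinearMap.add_apply, h0, h0, sy y x] at h1
    have h2 : (2 : K) * B x y = 0 := by
      rw [← h1]
      ring
    exact (mul_eq_zero.1 h2).resolve_left two_ne_zero
  let f : Module.Dual K T := -(2 / B v v) • B v
  have hf : ∀ x, f x = -(2 / B v v) * B v x := fun x => rfl
  have hfv : f v = -2 := by
    rw [hf]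
    field_simp
  refine ⟨LinearMap.transvection f v, fun x y => ?_, ?_, fun x => ?_⟩
  · rw [LinearMap.transvection.apply, LinearMap.transvection.apply]
    simp only [map_add, map_smul, LinearMap.add_apply, LinearMap.smul_apply, smul_eq_mul, hf]
    rw [sy x v]
    field_simp
    ring
  · rw [LinearMap.transvection.det, hfv]
    ring
  · rw [LinearMap.transvection.apply, LinearMap.transvection.apply, map_add, map_smul, hfv]
    rw [smul_eq_mul, add_assoc, ← add_smul]
    have h1 : f x + (f x + f x * -2) = 0 := by ring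
    rw [h1, zero_smul, add_zero]

/-- **The orthogonal case, negative sign.** -/
theorem so_neg (sy : ∀ x y, B x y = B y x) (nd : ∀ x, (∀ y, B x y = 0) → x = 0)
    {s : T →ₗ[K] T} (hs : ∀ x y, B (s x) (s y) = B x y) (hsd : LinearMap.det s = -1)
    (hss : ∀ x, s (s x) = x)
    {S : Type} [Fintype S] [DecidableEq S] {f : MultilinearMap K (fun _ : S => T) K}
    (hf : SkKill B f) {g : T →ₗ[K] T} {ν : K} (hg : ∀ x y, B (g x) (g y) = ν * ν * B x y)
    (hd : LinearMap.det g = -ν ^ finrank K T) (v : S → T) :
    f (fun a => g (v a)) = ν ^ Fintype.card S * f (fun a => s (v a)) := by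
  classical
  have hk : SkKill B (f.compLinearMap fun _ => s) := by
    intro X hX v
    have h1 := hf (s ∘ₗ X ∘ₗ s) (by
      intro x y
      change B (s (X (s x))) y + B x (s (X (s y))) = 0
      have h2 : B (s (X (s x))) y = B (X (s x)) (s y) := by
        rw [← hs, hss]
      have h3 : B x (s (X (s y))) = B (s x) (X (s y)) := by
        rw [← hs, hss]
      rw [h2, h3]
      exact hX (s x) (s y)) fun a => s (v a)
    refine Eq.trans (Finset.sum_congr rfl fun a _ => ?_) h1
    change f (fun b => s (update v a (X (v a)) b)) =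
      f (update (fun b => s (v b)) a (s (X (s (s (v a))))))
    rw [hss]
    congr 1
    funext b
    by_cases hb : b = a
    · subst hb
      rw [update_self, update_self]
    · rw [update_of_ne hb, update_of_ne hb]
  have h1 := so_semi sy nd hk (g := s ∘ₗ g) (ν := ν) (fun x y => by
    change B (s (g x)) (s (g y)) = _
    rw [hs, hg]) (by
    rw [LinearMap.det_comp, hsd, hd]
    ring) v
  change f (fun a => s (s (g (v a)))) = ν ^ Fintype.card S * f (fun a => s (v a)) at h1
  simp only [hss] at h1
  exact h1

end one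

section sign

variable {K : Type} [Field K] {ι : Type} [DecidableEq ι]

/-- the sign -/
def sg1 (K : Type) [Field K] {ι : Type} [DecidableEq ι] (A : Finset ι) (j : ι) : K :=
  if j ∈ A then -1 else 1

/-- the product of the signs -/
def sgp (K : Type) [Field K] {ι : Type} [DecidableEq ι] (I A : Finset ι) : K :=
  ∏ j ∈ I, sg1 K A j

theorem sg1_sq (A : Finset ι) (j : ι) : sg1 K A j * sg1 K A j = 1 := by
  unfold sg1
  split_ifs <;> ring

theorem sg1_symmDiff (A B : Finset ι) (j : ι) :
    sg1 K (symmDiff A B) j = sg1 K A j * sg1 K B j := by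
  unfold sg1
  simp only [Finset.mem_symmDiff]
  by_cases hA : j ∈ A <;> by_cases hB : j ∈ B <;> simp [hA, hB]

theorem sgp_sq (I A : Finset ι) : sgp K I A * sgp K I A = 1 := by
  unfold sgp
  rw [← Finset.prod_mul_distrib]
  exact Finset.prod_eq_one fun j _ => sg1_sq A j

theorem sgp_symmDiff (I A B : Finset ι) :
    sgp K I (symmDiff A B) = sgp K I A * sgp K I B := by
  unfold sgp
  rw [← Finset.prod_mul_distrib]
  exact Finset.prod_congr rfl fun j _ => sg1_symmDiff A B j

theorem sum_sgp [Fintype ι] (A B : Finset ι) :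
    ∑ I : Finset ι, sgp K I A * sgp K I B = if A = B then 2 ^ Fintype.card ι else 0 := by
  have h1 : ∑ I : Finset ι, sgp K I A * sgp K I B = ∏ j : ι, (1 + sg1 K A j * sg1 K B j) := by
    rw [Finset.prod_one_add, Finset.powerset_univ]
    refine Finset.sum_congr rfl fun I _ => ?_
    unfold sgp
    rw [← Finset.prod_mul_distrib]
  rw [h1]
  split_ifs with h
  · subst h
    simp only [sg1_sq]
    rw [Finset.prod_const, Finset.card_univ]
    norm_num
  · have h2 : ∃ j, ¬(j ∈ A ↔ j ∈ B) := by
      by_contra h3
      push Not at h3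
      exact h (Finset.ext h3)
    obtain ⟨j, hj⟩ := h2
    refine Finset.prod_eq_zero (Finset.mem_univ j) ?_
    rw [← sg1_symmDiff]
    unfold sg1
    rw [if_pos, add_neg_cancel]
    rw [Finset.mem_symmDiff]
    tauto

end sign

end Pool.Agent.Q71.MM
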