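import Pool.Agent.Q71.MM.Ort

/-!
# The action of similitudes on the components of orthogonal type
-/

set_option linter.unusedSectionVars false

namespace Pool.Agent.Q71.MM

open Module Finset Function Pool.Agent.TH118.SG Pool.Agent.TH125.Gal Pool.Agent.Y127.G
  Pool.Agent.Y127.C Pool.Agent.Q71.TM Pool.Agent.Q71.SP Pool.Agent.Q71.AB

variable {K : Type} [Field K] {Γ : Type} [Group Γ] {χ : Γ →* Kˣ}
  {ι : Type} [Fintype ι] [DecidableEq ι] {T : ι → FRep K Γ} {N₀ W : FRep K Γ}
  {d : Dec T N₀ W} {S : Type} [Fintype S] [DecidableEq S]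
  {f : MultilinearMap K (fun _ : S => W.V) K} {o : S → Option d.P}

/-- reflections -/
structure Refl {T : ι → FRep K Γ} (B : ∀ j, (T j).V →ₗ[K] (T j).V →ₗ[K] K)
    (s : ∀ j, Module.End K (T j).V) : Prop where
  sy : ∀ j x y, B j x y = B j y x
  nd : ∀ j x, (∀ y, B j x y = 0) → x = 0
  iso : ∀ j x y, B j (s j x) (s j y) = B j x y
  det : ∀ j, LinearMap.det (s j) = -1
  inv : ∀ j x, s j (s j x) = x

theorem gfinX_comm (A : Finset ι) (h s : ∀ j, Module.End K (T j).V) {i : ι} (hi : i ∉ A)
    (x : UU T N₀) : goneX i (s i) (gfinX A h x) = gfinX A h (goneX i (s i) x) := by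
  refine Prod.ext (funext fun j => ?_) rfl
  change update (gfinX A h x).1 i (s i ((gfinX A h x).1 i)) j =
    if j ∈ A then h j (update x.1 i (s i (x.1 i)) j) else update x.1 i (s i (x.1 i)) j
  by_cases hj : j = i
  · subst hj
    rw [update_self, if_neg hi, update_self]
    change s j (if j ∈ A then _ else _) = _
    rw [if_neg hi]
  · rw [update_of_ne hj, update_of_ne hj]
    rfl

theorem gfinX_insert (A : Finset ι) (h : ∀ j, Module.End K (T j).V) {i : ι} (hi : i ∉ A)
    (x : UU T N₀) : gfinX (insert i A) h x = goneX i (h i) (gfinX A h x) := by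
  refine Prod.ext (funext fun j => ?_) rfl
  change (if j ∈ insert i A then _ else _) = update (gfinX A h x).1 i
    (h i ((gfinX A h x).1 i)) j
  by_cases hj : j = i
  · subst hj
    rw [if_pos (Finset.mem_insert_self _ _), update_self]
    change _ = h j (if j ∈ A then _ else _)
    rw [if_neg hi]
  · rw [update_of_ne hj]
    change _ = (if j ∈ A then _ else _)
    by_cases hA : j ∈ A
    · rw [if_pos (Finset.mem_insert_of_mem hA), if_pos hA]
    · rw [if_neg hA, if_neg]
      rw [Finset.mem_insert]
      rintro (h | h)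
      · exact hj h
      · exact hA h

theorem gfinX_insert' (A : Finset ι) (h : ∀ j, Module.End K (T j).V) {i : ι} (hi : i ∉ A)
    (x : UU T N₀) : gfinX (insert i A) h x = gfinX A h (goneX i (h i) x) := by
  rw [gfinX_insert A h hi, gfinX_comm A h h hi]

theorem gfinX_symmDiff {s : ∀ j, Module.End K (T j).V} (hs : ∀ j x, s j (s j x) = x)
    (A B : Finset ι) (x : UU T N₀) : gfinX A s (gfinX B s x) = gfinX (symmDiff A B) s x := by
  refine Prod.ext (funext fun j => ?_) rfl
  change (if j ∈ A then s j (if j ∈ B then s j (x.1 j) else x.1 j) else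
    (if j ∈ B then s j (x.1 j) else x.1 j)) =
    if j ∈ symmDiff A B then s j (x.1 j) else x.1 j
  simp only [Finset.mem_symmDiff]
  by_cases hA : j ∈ A <;> by_cases hB : j ∈ B <;> simp [hA, hB, hs]

theorem gfinX_empty (h : ∀ j, Module.End K (T j).V) (x : UU T N₀) : gfinX ∅ h x = x := by
  refine Prod.ext (funext fun j => ?_) rfl
  change (if j ∈ (∅ : Finset ι) then h j (x.1 j) else x.1 j) = x.1 j
  rw [if_neg (Finset.notMem_empty j)]

/-- the number of slots of sort `i` -/
noncomputable def cn (d : Dec T N₀ W) (o : S → Option d.P) (i : ι) : ℕ :=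
  cnt d o i

variable [CharZero K] [IsAlgClosed K]

theorem sign_one {B : ∀ j, (T j).V →ₗ[K] (T j).V →ₗ[K] K} {s : ∀ j, Module.End K (T j).V}
    (hs : Refl B s) (hk : KillS d f o B) {i : ι} {h : Module.End K (T i).V} {ν : K}
    (hh : ∀ x y, B i (h x) (h y) = ν * ν * B i x y) {A : Finset ι}
    (hd : LinearMap.det h = sg1 K A i * ν ^ finrank K (T i).V) (v : S → UU T N₀) :
    HH d f o (fun a => goneX i h (v a)) =
      ν ^ cn d o i * HH d f o (fun a => if i ∈ A then goneX i (s i) (v a) else v a) := by
  classical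
  have hcn : cn d o i = Fintype.card {s // IsSort d i (o s)} := by
    unfold cn cnt
    congr!
  rw [fsort_gX, hcn]
  unfold sg1 at hd
  by_cases hi : i ∈ A
  · simp only [if_pos hi] at hd ⊢
    rw [neg_one_mul] at hd
    rw [so_neg (hs.sy i) (hs.nd i) (hs.iso i) (hs.det i) (hs.inv i) (hk.sort i v) hh hd,
      fsort_gX]
  · simp only [if_neg hi] at hd ⊢
    rw [one_mul] at hd
    rw [so_semi (hs.sy i) (hs.nd i) (hk.sort i v) hh hd, fsort_self]

/-- **The signs.** -/
theorem sign_all {B : ∀ j, (T j).V →ₗ[K] (T j).V →ₗ[K] K} {s : ∀ j, Module.End K (T j).V}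
    (hs : Refl B s) (hk : KillS d f o B) {h : ∀ j, Module.End K (T j).V} {ν : ι → K}
    (hh : ∀ j x y, B j (h j x) (h j y) = ν j * ν j * B j x y) {A : Finset ι}
    (hd : ∀ j, LinearMap.det (h j) = sg1 K A j * ν j ^ finrank K (T j).V)
    (v : S → UU T N₀) :
    HH d f o (fun a => gfinX univ h (v a)) =
      (∏ j, ν j ^ cn d o j) * HH d f o (fun a => gfinX A s (v a)) := by
  classical
  have key : ∀ (C : Finset ι) (v : S → UU T N₀), HH d f o (fun a => gfinX C h (v a)) =
      (∏ j ∈ C, ν j ^ cn d o j) * HH d f o (fun a => gfinX (A ∩ C) s (v a)) := by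
    intro C
    induction C using Finset.induction_on with
    | empty =>
      intro v
      rw [Finset.prod_empty, one_mul, Finset.inter_empty]
      simp only [gfinX_empty]
    | insert i C hi ih =>
      intro v
      have h1 : (fun a => gfinX (insert i C) h (v a)) =
          fun a => goneX i (h i) (gfinX C h (v a)) := funext fun a => gfinX_insert C h hi _
      rw [h1, sign_one hs hk (hh i) (hd i), Finset.prod_insert hi, mul_assoc]
      congr 1
      by_cases hA : i ∈ A
      · simp only [if_pos hA]
        have h2 : (fun a => goneX i (s i) (gfinX C h (v a))) =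
            fun a => gfinX C h (goneX i (s i) (v a)) := funext fun a => gfinX_comm C h s hi _
        rw [h2, ih]
        congr 2
        funext a
        rw [Finset.inter_insert_of_mem hA, gfinX_insert']
        rw [Finset.mem_inter]
        exact fun h => hi h.2
      · simp only [if_neg hA]
        rw [ih, Finset.inter_insert_of_notMem hA]
  rw [key univ v, Finset.inter_univ]

end Pool.Agent.Q71.MM
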