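import Pool.Agent.Q71.MM.Ort2

/-!
# The elements of the motivic Galois group act on the forms on a sum by scalars: even weights
-/

set_option linter.unusedSectionVars false

namespace Pool.Agent.Q71.MM

open Module Finset Function Pool.Agent.TH118.SG Pool.Agent.TH125.Gal Pool.Agent.Y127.G
  Pool.Agent.Y127.C Pool.Agent.Q71.TM Pool.Agent.Q71.SP Pool.Agent.Q71.AB

/-- the sign of an orthogonal similitude -/
theorem exists_sign {K : Type} [Field K] {T : Type} [AddCommGroup T] [Module K T]
    [FiniteDimensional K T] {B : T →ₗ[K] T →ₗ[K] K} (nd : ∀ x, (∀ y, B x y = 0) → x = 0)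
    {g : T →ₗ[K] T} {ν : K} (hν : ν ≠ 0) (hg : ∀ x y, B (g x) (g y) = ν * ν * B x y) :
    LinearMap.det g = ν ^ finrank K T ∨ LinearMap.det g = -ν ^ finrank K T := by
  classical
  let b := Module.finBasis K T
  have hQ : (LinearMap.toMatrix₂ b b B).det ≠ 0 :=
    (LinearMap.separatingLeft_iff_det_ne_zero b).1 nd
  have h1 := LinearMap.toMatrix₂_compl₁₂ b b b b B g g
  have h2 : B.compl₁₂ g g = (ν * ν) • B := by
    apply LinearMap.ext
    intro x
    apply LinearMap.ext
    intro y
    exact hg x y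
  rw [h2, map_smul] at h1
  have h3 := congrArg Matrix.det h1
  rw [Matrix.det_smul, Matrix.det_mul, Matrix.det_mul, Matrix.det_transpose,
    LinearMap.det_toMatrix, Fintype.card_fin] at h3
  have h4 : ((ν * ν) ^ finrank K T - LinearMap.det g ^ 2) *
      (LinearMap.toMatrix₂ b b B).det = 0 := by
    rw [sub_mul, h3]
    ring
  have h5 := (mul_eq_zero.1 h4).resolve_right hQ
  have h6 : (LinearMap.det g - ν ^ finrank K T) * (LinearMap.det g + ν ^ finrank K T) = 0 := by
    have h7 : (LinearMap.det g - ν ^ finrank K T) * (LinearMap.det g + ν ^ finrank K T) =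
        -((ν * ν) ^ finrank K T - LinearMap.det g ^ 2) := by ring
    rw [h7, h5, neg_zero]
  rcases mul_eq_zero.1 h6 with h | h
  · exact Or.inl (sub_eq_zero.1 h)
  · exact Or.inr (eq_neg_of_add_eq_zero_left h)

variable {K : Type} [Field K] {Γ : Type} [Group Γ] {χ : Γ →* Kˣ}
  {ι : Type} [Fintype ι] [DecidableEq ι] {T : ι → FRep K Γ} {N₀ W : FRep K Γ} {m : ℕ}
  {M : Fin m → FRep K Γ}

/-- from `Fin` to any finite set -/
theorem by_of_fin {N₀ : FRep K Γ} {X₀ : Module.End K N₀.V} {c : Γ → K} {z : K}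
    (hN : ∀ (k : ℕ) (G : MultilinearMap K (fun _ : Fin k => N₀.V) K),
      (∀ g v, G (fun s => N₀.ρ g (v s)) = c g * G v) → ∀ v, G (fun s => X₀ (v s)) = z * G v)
    {S : Type} [Finite S] {G : MultilinearMap K (fun _ : S => N₀.V) K}
    (hG : ∀ g v, G (fun s => N₀.ρ g (v s)) = c g * G v) (v : S → N₀.V) :
    G (fun s => X₀ (v s)) = z * G v := by
  classical
  have := Fintype.ofFinite S
  let e := Fintype.equivFin S
  have h1 := hN _ (G.domDomCongr e) (fun g v => hG g fun s => v (e s)) fun s => v (e.symm s)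
  have h3 : ∀ u : S → N₀.V, (G.domDomCongr e) (fun s => u (e.symm s)) = G u := by
    intro u
    change G (fun s => u (e.symm (e s))) = G u
    simp only [Equiv.symm_apply_apply]
  rw [h3] at h1
  rw [← h1]
  exact (h3 fun s => X₀ (v s)).symm

variable [CharZero K] [IsAlgClosed K]

omit [CharZero K] [IsAlgClosed K] in
theorem gfinX_mk0' {d : Dec T N₀ W} {S : Type} [Fintype S] [DecidableEq S]
    {f : MultilinearMap K (fun _ : S => W.V) K} {o : S → Option d.P} (A : Finset ι)
    (s : ∀ j, Module.End K (T j).V) (u : S → UU T N₀) (y : {s // o s = none} → N₀.V) :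
    HH d f o (fun a => gfinX A s (mk0 d o u y a)) =
      f0 d f o (fun a => gfinX A s (u a)) y := by
  rw [f0_apply]
  refine HH_congr d f o fun a => ?_
  unfold mk0
  by_cases ha : o a = none
  · rw [dif_pos ha, dif_pos ha, jj_none ha, jj_none ha]
    rfl
  · rw [dif_neg ha, dif_neg ha]

/-- **The elements of the motivic Galois group act on the forms by scalars, even weights.** -/
theorem core_ort (hgen : SpannedBy M N₀) {l : ι → Loc K Γ}
    (hT : ∀ j, MRep (l j) True (T j)) {u : ι → ℤ} (hw : ∀ j, (hT j).μ = χ ^ (u j + u j))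
    (hiso : ∀ i j, i ≠ j → ¬IsoUpTo (T i) (T j))
    (h8 : ∀ i j, j ≠ i → finrank K (T i).V = 8 → finrank K (T j).V = 8 → SameLoc (T i) (T j))
    (hM : ∀ i a, OSmall (T i) (M a))
    (d : Dec T N₀ W) (hd : ∀ g, g ∈ d.Δ) {XW : Module.End K W.V}
    {X : ∀ j, Module.End K (T j).V} {X₀ : Module.End K N₀.V} {τ : Kˣ}
    (hX : ∀ j x y, (hT j).B (X j x) (X j y) = ((τ ^ (u j + u j) : Kˣ) : K) * (hT j).B x y)
    (hr : ∀ p v, d.r p (XW v) = X (d.c p) (d.r p v)) (hr₀ : ∀ v, d.r₀ (XW v) = X₀ (d.r₀ v))
    (hN : ∀ (I : Finset ι) (n : ℤ) (k : ℕ) (G : MultilinearMap K (fun _ : Fin k => N₀.V) K),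
      (∀ g v, G (fun s => N₀.ρ g (v s)) =
        ((χ g ^ n : Kˣ) : K) * (∏ j ∈ I, LinearMap.det ((T j).ρ g)) * G v) →
      ∀ v, G (fun s => X₀ (v s)) =
        ((τ ^ n : Kˣ) : K) * (∏ j ∈ I, LinearMap.det (X j)) * G v) {n : ℤ} {S : Type} [Fintype S]
    [DecidableEq S] {f : MultilinearMap K (fun _ : S => W.V) K} (hf : ExactZ χ W n f)
    (v : S → W.V) : f (fun s => XW (v s)) = ((τ ^ n : Kˣ) : K) * f v := by
  classical
  obtain ⟨κ, hD⟩ := exists_Dz (N₀ := N₀) (e := fun _ => True) hgen hT hw
    (fun i j hij _ => hiso i j hij) (fun i j hij _ _ h h' => h8 i j hij h h')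
    (fun i j _ h => absurd trivial h) (fun i a => ⟨fun _ => hM i a, fun h => absurd trivial h⟩)
  have hfS : SemiZ χ W n f := ⟨⊤, inferInstance, fun g _ v => hf g v⟩
  have hne : ∀ j, ∃ x : (T j).V, x ≠ 0 := by
    intro j
    by_contra h
    push Not at h
    have h1 : finrank K (T j).V = 0 := finrank_zero_iff_forall_zero.2 h
    rcases ((hT j).orth trivial).1 with h2 | h2 <;> omega
  choose s hs1 hs2 hs3 using fun j => exists_refl ((hT j).sy trivial) (hT j).nd (hne j)
  have hs : Refl (fun j => (hT j).B) s :=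
    ⟨fun j => (hT j).sy trivial, fun j => (hT j).nd, hs1, hs2, hs3⟩
  -- signs
  have hsgn : ∀ (h : ∀ j, Module.End K (T j).V) (t : Kˣ),
      (∀ j x y, (hT j).B (h j x) (h j y) = ((t ^ (u j + u j) : Kˣ) : K) * (hT j).B x y) →
      ∃ A : Finset ι, ∀ j, LinearMap.det (h j) =
        sg1 K A j * ((t ^ u j : Kˣ) : K) ^ finrank K (T j).V := by
    intro h t ht
    refine ⟨univ.filter fun j => LinearMap.det (h j) ≠ ((t ^ u j : Kˣ) : K) ^ finrank K (T j).V,
      fun j => ?_⟩
    unfold sg1
    simp only [Finset.mem_filter, Finset.mem_univ, true_and]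
    split_ifs with h1
    · rw [neg_one_mul]
      exact (exists_sign (hT j).nd (Units.ne_zero (t ^ u j)) (fun x y => by
        rw [ht j x y, zpow_add, Units.val_mul])).resolve_left h1
    · rw [one_mul]
      exact not_not.1 h1
  have hcol : ∀ (o : S → Option d.P) (v : S → W.V),
      f (fun x => d.pr (o x) (XW (v x))) =
        ((τ ^ n : Kˣ) : K) * f fun x => d.pr (o x) (v x) := by
    intro o v
    have hk : KillS d f o fun j => (hT j).B := by
      intro i Y hY v
      obtain ⟨D, hDG, hDi, hDj, hDb, hDn⟩ := hD i Y hY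
      have h1 := kill_HH d M κ χ hfS hDG (hDn n) hDj hDb o v
      rw [hDi] at h1
      exact h1
    have h0 : ∀ v : S → W.V, HH d f o (fun s => et d (o s) (v s)) =
        f fun x => d.pr (o x) (v x) := by
      intro v
      rw [HH_apply]
      congr 1
      funext s
      exact jj_et d _ _
    have h2 : f (fun x => d.pr (o x) (XW (v x))) =
        HH d f o (fun s => XU X X₀ (et d (o s) (v s))) := by
      rw [← h0 fun x => XW (v x)]
      refine HH_congr d f o fun x => ?_
      cases hox : o x with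
      | some p =>
        change d.i p ((Pi.single (d.c p) (d.r p (XW (v x))) : ∀ j, (T j).V) (d.c p)) =
          d.i p (X (d.c p) ((Pi.single (d.c p) (d.r p (v x)) : ∀ j, (T j).V) (d.c p)))
        rw [Pi.single_eq_same, Pi.single_eq_same, hr]
      | none =>
        change d.i₀ (d.r₀ (XW (v x))) = d.i₀ (X₀ (d.r₀ (v x)))
        rw [hr₀]
    rw [h2, ← h0]
    obtain ⟨w, hu⟩ : ∃ w : S → UU T N₀, w = fun s => et d (o s) (v s) := ⟨_, rfl⟩
    have hu' : (fun s => XU X X₀ (et d (o s) (v s))) = fun s => XU X X₀ (w s) := by rw [hu]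
    rw [hu', ← hu]
    set E : ℤ := ∑ j, u j * (cn d o j : ℤ) with hE
    have hpow : ∀ t : Kˣ, (∏ j, ((t ^ u j : Kˣ) : K) ^ cn d o j) = ((t ^ E : Kˣ) : K) := by
      intro t
      rw [hE, ← prod_zp, Units.coe_prod]
      refine Finset.prod_congr rfl fun j _ => ?_
      rw [← Units.val_pow_eq_pow_val, zpow_mul, zpow_natCast]
    let F : Finset ι → MultilinearMap K (fun _ : {s // o s = none} => N₀.V) K := fun A =>
      f0 d f o fun a => gfinX A s (w a)
    -- the action of the Galois group
    have hR : ∀ g, ∃ A : Finset ι, (∀ j, LinearMap.det ((T j).ρ g) =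
        sg1 K A j * ((χ g ^ u j : Kˣ) : K) ^ finrank K (T j).V) ∧ ∀ (C : Finset ι) y,
        F (symmDiff A C) (fun s => N₀.ρ g (y s)) = ((χ g ^ (n - E) : Kˣ) : K) * F C y := by
      intro g
      obtain ⟨A, hA⟩ := hsgn (fun j => (T j).ρ g) (χ g) (fun j x y => by
        rw [(hT j).eqv g x y, hw j]
        rfl)
      refine ⟨A, hA, fun C y => ?_⟩
      set w' : S → UU T N₀ := fun a => gfinX C s (w a) with hw'
      have h3 : HH d f o (fun s => gU g (mk0 d o w' y s)) =
          ((χ g ^ n : Kˣ) : K) * f0 d f o w' y := by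
        rw [f0_apply, HH_apply, HH_apply, ← hf g]
        congr 1
        funext s
        exact jj_gU d (hd g) _ _
      have h4 := gfinX_mk0 (d := d) (f := f) (o := o) (fun j => (T j).ρ g) (N₀.ρ g) w' y
      have h5 := sign_all hs hk (h := fun j => (T j).ρ g) (ν := fun j => ((χ g ^ u j : Kˣ) : K))
        (fun j x z => by
          rw [(hT j).eqv g x z, hw j, ← Units.val_mul, ← zpow_add]
          rfl) hA (mk0 d o w' fun s => N₀.ρ g (y s))
      have h6 : HH d f o (fun s => gU g (mk0 d o w' y s)) = _ := h4.trans h5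
      rw [h3, hpow, gfinX_mk0'] at h6
      have h7 : (fun a => gfinX A s (w' a)) = fun a => gfinX (symmDiff A C) s (w a) :=
        funext fun a => gfinX_symmDiff hs.inv A C (w a)
      rw [h7] at h6
      have h8 : ((χ g ^ E : Kˣ) : K) ≠ 0 := Units.ne_zero _
      apply mul_left_cancel₀ h8
      refine h6.symm.trans ?_
      rw [← mul_assoc, ← Units.val_mul, ← zpow_add]
      congr 3
      ring
    -- the isotypic parts
    let FI : Finset ι → MultilinearMap K (fun _ : {s // o s = none} => N₀.V) K := fun I =>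
      ∑ C : Finset ι, sgp K I C • F C
    have hFI : ∀ I y, FI I y = ∑ C : Finset ι, sgp K I C * F C y := by
      intro I y
      change (∑ C : Finset ι, sgp K I C • F C) y = _
      rw [MultilinearMap.sum_apply]
      rfl
    have hdetI : ∀ (h : ∀ j, Module.End K (T j).V) (t : Kˣ) (A I : Finset ι),
        (∀ j, LinearMap.det (h j) = sg1 K A j * ((t ^ u j : Kˣ) : K) ^ finrank K (T j).V) →
        ∏ j ∈ I, LinearMap.det (h j) =
          sgp K I A * ((t ^ (∑ j ∈ I, u j * (finrank K (T j).V : ℤ)) : Kˣ) : K) := by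
      intro h t A I hA
      rw [Finset.prod_congr rfl fun j _ => hA j, Finset.prod_mul_distrib]
      congr 1
      rw [← prod_zp, Units.coe_prod]
      refine Finset.prod_congr rfl fun j _ => ?_
      rw [← Units.val_pow_eq_pow_val, zpow_mul, zpow_natCast]
    have hFG : ∀ I g y, FI I (fun s => N₀.ρ g (y s)) =
        ((χ g ^ (n - E - ∑ j ∈ I, u j * (finrank K (T j).V : ℤ)) : Kˣ) : K) *
          (∏ j ∈ I, LinearMap.det ((T j).ρ g)) * FI I y := by
      intro I g y
      obtain ⟨A, hA, h1⟩ := hR g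
      rw [hFI, hFI, hdetI _ (χ g) A I hA]
      have h3 : ∑ C : Finset ι, sgp K I C * F C (fun s => N₀.ρ g (y s)) =
          ∑ C : Finset ι, sgp K I (symmDiff A C) * F (symmDiff A C) (fun s => N₀.ρ g (y s)) := by
        refine (Fintype.sum_equiv (Equiv.mk (fun C => symmDiff A C) (fun C => symmDiff A C)
          (fun C => symmDiff_symmDiff_cancel_left A C)
          (fun C => symmDiff_symmDiff_cancel_left A C)) _ _ fun C => ?_).symm
        rfl
      rw [h3, Finset.mul_sum]
      refine Finset.sum_congr rfl fun C _ => ?_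
      rw [h1, sgp_symmDiff]
      have h4 : ((χ g ^ (n - E - ∑ j ∈ I, u j * (finrank K (T j).V : ℤ)) : Kˣ) : K) *
          ((χ g ^ (∑ j ∈ I, u j * (finrank K (T j).V : ℤ)) : Kˣ) : K) =
          ((χ g ^ (n - E) : Kˣ) : K) := by
        rw [← Units.val_mul, ← zpow_add]
        congr 2
        ring
      rw [← h4]
      ring
    -- the action of the operator
    obtain ⟨A, hA⟩ := hsgn X τ hX
    have hFX : ∀ I y, FI I (fun s => X₀ (y s)) = ((τ ^ (n - E) : Kˣ) : K) * sgp K I A *
        FI I y := by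
      intro I y
      have h1 := by_of_fin (hN I (n - E - ∑ j ∈ I, u j * (finrank K (T j).V : ℤ))) (hFG I) y
      rw [h1, hdetI X τ A I hA]
      have h4 : ((τ ^ (n - E - ∑ j ∈ I, u j * (finrank K (T j).V : ℤ)) : Kˣ) : K) *
          ((τ ^ (∑ j ∈ I, u j * (finrank K (T j).V : ℤ)) : Kˣ) : K) =
          ((τ ^ (n - E) : Kˣ) : K) := by
        rw [← Units.val_mul, ← zpow_add]
        congr 2
        ring
      rw [← h4]
      ring
    -- inversion
    have hinv : ∀ (C : Finset ι) y, (2 : K) ^ Fintype.card ι * F C y =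
        ∑ I : Finset ι, sgp K I C * FI I y := by
      intro C y
      simp only [hFI, Finset.mul_sum]
      rw [Finset.sum_comm]
      have h1 : ∀ C', ∑ I : Finset ι, sgp K I C * (sgp K I C' * F C' y) =
          (if C = C' then (2 : K) ^ Fintype.card ι else 0) * F C' y := by
        intro C'
        rw [← sum_sgp C C', Finset.sum_mul]
        exact Finset.sum_congr rfl fun I _ => by ring
      rw [Finset.sum_congr rfl fun C' _ => h1 C']
      simp only [ite_mul, zero_mul, Finset.sum_ite_eq, Finset.mem_univ, if_true]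
    have hfin : F A (fun s => X₀ ((w s).2)) = ((τ ^ (n - E) : Kˣ) : K) *
        F ∅ (fun s => (w s).2) := by
      have h2 : (2 : K) ^ Fintype.card ι ≠ 0 := pow_ne_zero _ two_ne_zero
      apply mul_left_cancel₀ h2
      rw [hinv, mul_left_comm, hinv, Finset.mul_sum]
      refine Finset.sum_congr rfl fun I _ => ?_
      rw [hFX]
      have h3 : sgp K I (∅ : Finset ι) = 1 := by
        unfold sgp sg1
        exact Finset.prod_eq_one fun j _ => if_neg (Finset.notMem_empty j)
      rw [h3, one_mul]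
      calc sgp K I A * (((τ ^ (n - E) : Kˣ) : K) * sgp K I A * FI I fun s => (w s).2)
          = (sgp K I A * sgp K I A) * (((τ ^ (n - E) : Kˣ) : K) * FI I fun s => (w s).2) := by
            ring
        _ = _ := by rw [sgp_sq, one_mul]
    rw [mk0_self, gfinX_mk0, sign_all hs hk (h := X) (ν := fun j => ((τ ^ u j : Kˣ) : K))
      (fun j x z => by
        rw [hX j x z, ← Units.val_mul, ← zpow_add]) hA, hpow, gfinX_mk0']
    refine (congrArg (fun z => ((τ ^ E : Kˣ) : K) * z) hfin).trans ?_
    have h9 : F ∅ (fun s => (w s).2) = HH d f o w := by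
      change f0 d f o (fun a => gfinX ∅ s (w a)) _ = _
      simp only [gfinX_empty]
      exact f0_self w
    rw [h9, ← mul_assoc, ← Units.val_mul, ← zpow_add]
    congr 3
    ring
  have hsum : ∀ v : S → W.V, f v = ∑ o : S → Option d.P, f fun s => d.pr (o s) (v s) := by
    intro v
    have h1 := f.map_sum (fun s (o : Option d.P) => d.pr o (v s))
    refine Eq.trans ?_ h1
    congr 1
    funext s
    exact (d.sum_pr (v s)).symm
  rw [hsum v, Finset.mul_sum, hsum fun s => XW (v s)]
  exact Finset.sum_congr rfl fun o _ => hcol o v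

end Pool.Agent.Q71.MM
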