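import Pool.Agent.Q71.MM.P7

/-!
# The Sato-Tate conjecture with components
-/

set_option autoImplicit false

namespace Pool.Agent.Q71.MM.P

open Module Function Pool.Agent.Y127.G Pool.Agent.Q71.AB.P

section
variable {K : Type} [Field K] {V : Type} [AddCommGroup V] [Module K V] {G : Type}

/-- The form `f` is multiplied by `c a` by the elements `a` with `τ a = 1`. -/
def ScaledInKer (τ : G → Kˣ) (c : G → K) (x : G → V → V) {k : ℕ}
    (f : MultilinearMap K (fun _ : Fin k => V) K) : Prop :=
  ∀ a, τ a = 1 → ∀ v, f (fun s => x a (v s)) = c a * f v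

end

variable {K : Type} [Field K] {Γ : Type} [Group Γ] {G : Type} {J : Type}

/-- The Sato-Tate conjecture for `W` (with the groups of components): the Galois representation is
semisimple, and every multilinear form which the Galois group multiplies by `χ ^ n` is invariant
under the elements `a` of the motivic Galois group with `τ a = 1`. -/
def SatoTateFull (χ : Γ → Kˣ) (τ : G → Kˣ) (W : MotG K Γ G) : Prop :=
  SemisimpleAll K (act W.rep) ∧ ∀ (k : ℕ) (n : ℤ)
    (f : MultilinearMap K (fun _ : Fin k => W.rep.V) K),
    ScaledBy (fun g => ((χ g ^ n : Kˣ) : K)) (act W.rep) f →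
    ScaledInKer τ (fun _ => 1) (gact W) f

/-- The Sato-Tate conjecture for `N` and the tensor products of its tensor constructions with the
determinants of the motives `T j`, `j ∈ S`. -/
def SatoTateWithDets (χ : Γ → Kˣ) (τ : G → Kˣ) (T : J → MotG K Γ G) (S : Set J)
    (N : MotG K Γ G) : Prop :=
  SemisimpleAll K (act N.rep) ∧ ∀ (I : Finset J), (∀ j ∈ I, j ∈ S) → ∀ (k : ℕ) (n : ℤ)
    (f : MultilinearMap K (fun _ : Fin k => N.rep.V) K),
    ScaledBy (fun g => ((χ g ^ n : Kˣ) : K) * gdet T I g) (act N.rep) f →
    ScaledInKer τ (mdet T I) (gact N) f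

end Pool.Agent.Q71.MM.P
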