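import Pool.Agent.Q71.MM.Trf
import Pool.Agent.Q71.MM.Grp3

/-!
# Transfer: operators which respect the forms of degree two
-/

set_option linter.unusedSectionVars false

namespace Pool.Agent.Q71.MM

open Module Finset Function

section lin

variable {K : Type} [Field K] {V : Type} [AddCommGroup V] [Module K V] {ι : Type} [DecidableEq ι]
  {T : ι → Type} [∀ j, AddCommGroup (T j)] [∀ j, Module K (T j)] {P : Type} {c : P → ι}

/-- the component in `T j` -/
def rr (r : ∀ p, V →ₗ[K] T (c p)) (j : ι) (p : P) : V →ₗ[K] T j :=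
  LinearMap.proj j ∘ₗ LinearMap.single K T (c p) ∘ₗ r p

/-- the inclusion of `T j` -/
def ii (i : ∀ p, T (c p) →ₗ[K] V) (j : ι) (p : P) : T j →ₗ[K] V :=
  i p ∘ₗ LinearMap.proj (c p) ∘ₗ LinearMap.single K T j

theorem rr_self (r : ∀ p, V →ₗ[K] T (c p)) (p : P) (x : V) : rr r (c p) p x = r p x :=
  Pi.single_eq_same (M := T) (c p) (r p x)

theorem ii_self (i : ∀ p, T (c p) →ₗ[K] V) (p : P) (x : T (c p)) : ii i (c p) p x = i p x := by
  change i p ((Pi.single (c p) x : ∀ j, T j) (c p)) = i p x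
  rw [Pi.single_eq_same]

theorem rr_ii {r : ∀ p, V →ₗ[K] T (c p)} {i : ∀ p, T (c p) →ₗ[K] V} (h : ∀ p x, r p (i p x) = x)
    {j : ι} {p : P} (hp : c p = j) (x : T j) : rr r j p (ii i j p x) = x := by
  subst hp
  rw [rr_self, ii_self, h]

variable {r : ∀ p, V →ₗ[K] T (c p)} {i : ∀ p, T (c p) →ₗ[K] V} {B : ∀ j, T j →ₗ[K] T j →ₗ[K] K}

/-- **An operator which respects the forms of degree two comes from operators on the factors.** -/
theorem op_of_forms (hri : ∀ p x, r p (i p x) = x) (nd : ∀ j x, (∀ y, B j x y = 0) → x = 0)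
    {a : V →ₗ[K] V} (ha : Function.Surjective a) {m : K}
    (hm : ∀ j p q x y, B j (rr r j p (a x)) (rr r j q (a y)) =
      m * B j (rr r j p x) (rr r j q y)) {j : ι} {p₀ : P} (hp₀ : c p₀ = j) :
    (∀ x y, B j (rr r j p₀ (a (ii i j p₀ x))) (rr r j p₀ (a (ii i j p₀ y))) = m * B j x y) ∧
    ∀ p, c p = j → ∀ x, rr r j p (a x) = rr r j p₀ (a (ii i j p₀ (rr r j p x))) := by
  refine ⟨fun x y => ?_, fun p hp x => ?_⟩
  · rw [hm, rr_ii hri hp₀, rr_ii hri hp₀]
  · rw [← sub_eq_zero]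
    apply nd j
    intro y
    obtain ⟨z, hz⟩ := ha (ii i j p y)
    have h1 : y = rr r j p (a z) := by rw [hz, rr_ii hri hp]
    rw [h1, map_sub, LinearMap.sub_apply, hm, hm, rr_ii hri hp₀, sub_self]

end lin

end Pool.Agent.Q71.MM
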