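import Pool.Agent.Q71.MM.Ort3
import Pool.Agent.Q71.MM.Trf2
import Pool.Agent.Q71.MM.Fin3
import Pool.Agent.Q71.MM.P8

/-!
# The motivic Tate conjecture for sums with motives of even weight
-/

set_option linter.unusedSectionVars false

namespace Pool.Agent.Q71.MM

open Module Finset Function Pool.Agent.TH118.SG Pool.Agent.TH125.Gal Pool.Agent.Y127.G
  Pool.Agent.Y127.C Pool.Agent.Q71.TM Pool.Agent.Q71.SP Pool.Agent.Q71.AB

/-- the product of multilinear forms in disjoint sets of variables -/
def prodForm {K : Type} [Field K] {V : Type} [AddCommGroup V] [Module K V] {O : Type} [Fintype O]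
    [DecidableEq O] {R : O → Type} (D : ∀ o, MultilinearMap K (fun _ : R o => V) K) :
    MultilinearMap K (fun _ : (Σ o, R o) => V) K where
  toFun v := ∏ o, D o fun a => v ⟨o, a⟩
  map_update_add' := by
    classical
    rintro inst v ⟨o, a⟩ x y
    have key : ∀ z : V, ∏ o', D o' (fun a' => update v ⟨o, a⟩ z ⟨o', a'⟩) =
        D o (update (fun a' => v ⟨o, a'⟩) a z) *
          ∏ o' ∈ univ.erase o, D o' fun a' => v ⟨o', a'⟩ := by
      intro z
      rw [← Finset.mul_prod_erase univ _ (Finset.mem_univ o)]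
      congr 1
      · congr 1
        funext a'
        by_cases h : a' = a
        · subst h
          rw [update_self, update_self]
        · rw [update_of_ne h, update_of_ne]
          intro h'
          exact h (eq_of_heq (Sigma.mk.inj h').2)
      · refine Finset.prod_congr rfl fun o' ho' => ?_
        congr 1
        funext a'
        rw [update_of_ne]
        intro h'
        exact (Finset.mem_erase.1 ho').1 (Sigma.mk.inj h').1
    rw [key, key, key, MultilinearMap.map_update_add, add_mul]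
  map_update_smul' := by
    classical
    rintro inst v ⟨o, a⟩ c x
    have key : ∀ z : V, ∏ o', D o' (fun a' => update v ⟨o, a⟩ z ⟨o', a'⟩) =
        D o (update (fun a' => v ⟨o, a'⟩) a z) *
          ∏ o' ∈ univ.erase o, D o' fun a' => v ⟨o', a'⟩ := by
      intro z
      rw [← Finset.mul_prod_erase univ _ (Finset.mem_univ o)]
      congr 1
      · congr 1
        funext a'
        by_cases h : a' = a
        · subst h
          rw [update_self, update_self]
        · rw [update_of_ne h, update_of_ne]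
          intro h'
          exact h (eq_of_heq (Sigma.mk.inj h').2)
      · refine Finset.prod_congr rfl fun o' ho' => ?_
        congr 1
        funext a'
        rw [update_of_ne]
        intro h'
        exact (Finset.mem_erase.1 ho').1 (Sigma.mk.inj h').1
    rw [key, key, MultilinearMap.map_update_smul, smul_eq_mul, smul_eq_mul, mul_assoc]

theorem prodForm_apply {K : Type} [Field K] {V : Type} [AddCommGroup V] [Module K V] {O : Type}
    [Fintype O] [DecidableEq O] {R : O → Type} (D : ∀ o, MultilinearMap K (fun _ : R o => V) K)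
    (v : (Σ o, R o) → V) : prodForm D v = ∏ o, D o fun a => v ⟨o, a⟩ := rfl

variable {K : Type} [Field K] {Γ : Type} [Group Γ] {χ : Γ →* Kˣ} {G : Type} {τ : G → Kˣ}
  {J : Type} {T : J → P.MotG K Γ G} {S : Set J} {N W : P.MotG K Γ G}

/-- the decomposition -/
theorem exists_decU (h : P.IsSumUsing T S N W) :
    ∃ (_ : S.Finite) (d : Dec (fun j : S => (T j).rep) N.rep W.rep),
      (∀ g, g ∈ d.Δ) ∧ (∀ a p v, d.r p (W.gal a v) = (T (d.c p)).gal a (d.r p v)) ∧
      (∀ a v, d.r₀ (W.gal a v) = N.gal a (d.r₀ v)) ∧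
      (∀ a v, W.gal a (d.i₀ v) = d.i₀ (N.gal a v)) ∧
      (∀ j : S, ∃ p, d.c p = j) := by
  classical
  obtain ⟨P, hP, c, f, f₀, rfl, hf, ⟨hl, h2, h4⟩, hbij⟩ := h
  have := Fintype.ofFinite P
  choose hfl h1 h3 using hf
  let ff : W.rep.V →ₗ[K] (∀ p, (T (c p)).rep.V) × N.rep.V :=
    LinearMap.prod (LinearMap.pi fun p => (hfl p).mk' (f p)) (hl.mk' f₀)
  let e : W.rep.V ≃ₗ[K] (∀ p, (T (c p)).rep.V) × N.rep.V := LinearEquiv.ofBijective ff hbij
  let c' : P → Set.range c := fun p => ⟨c p, p, rfl⟩
  have he : ∀ g x, e (W.rep.ρ g x) =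
      (fun p => (T (c p)).rep.ρ g ((e x).1 p), N.rep.ρ g (e x).2) := fun g x =>
    Prod.ext (funext fun p => h1 p g x) (h2 g x)
  have he' : ∀ a x, e (W.gal a x) = (fun p => (T (c p)).gal a ((e x).1 p), N.gal a (e x).2) :=
    fun a x => Prod.ext (funext fun p => h3 p a x) (h4 a x)
  refine ⟨Set.finite_range c,
    { P := P
      c := c'
      i := fun p => e.symm.toLinearMap ∘ₗ LinearMap.inl K _ _ ∘ₗ
        LinearMap.single K (fun p => (T (c p)).rep.V) p
      r := fun p => LinearMap.proj p ∘ₗ LinearMap.fst K _ _ ∘ₗ e.toLinearMap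
      i₀ := e.symm.toLinearMap ∘ₗ LinearMap.inr K _ _
      r₀ := LinearMap.snd K _ _ ∘ₗ e.toLinearMap
      ri := ?_
      ri₀ := ?_
      sum := ?_
      Δ := ⊤
      fi := inferInstance
      i_eqv := ?_
      r_eqv := ?_
      i₀_eqv := ?_
      r₀_eqv := ?_ }, fun g => Subgroup.mem_top g, ?_, ?_, ?_, ?_⟩
  · intro p x
    change (e (e.symm (Pi.single p x, 0))).1 p = x
    rw [e.apply_symm_apply]
    exact Pi.single_eq_same (M := fun p => (T (c p)).rep.V) p x
  · intro x
    change (e (e.symm (0, x))).2 = x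
    rw [e.apply_symm_apply]
  · intro w
    apply e.injective
    change e (e.symm (0, (e w).2) + ∑ p, e.symm (Pi.single p ((e w).1 p), 0)) = e w
    rw [map_add, map_sum, e.apply_symm_apply]
    have h5 : ∀ p, e (e.symm (Pi.single p ((e w).1 p), 0)) =
        ((Pi.single p ((e w).1 p), 0) : (∀ p, (T (c p)).rep.V) × N.rep.V) := fun p =>
      e.apply_symm_apply _
    rw [Finset.sum_congr rfl fun p _ => h5 p]
    have h6 := map_sum (LinearMap.inl K (∀ p, (T (c p)).rep.V) N.rep.V)
      (fun p => (Pi.single p ((e w).1 p) : ∀ p, (T (c p)).rep.V)) univ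
    rw [Finset.univ_sum_single (e w).1] at h6
    have h7 : ∑ p, ((Pi.single p ((e w).1 p), 0) : (∀ p, (T (c p)).rep.V) × N.rep.V) =
        ((e w).1, 0) := h6.symm
    rw [h7, Prod.mk_add_mk, zero_add, add_zero]
  · intro g _ p x
    apply e.injective
    change e (e.symm (Pi.single p ((T (c p)).rep.ρ g x), 0)) =
      e (W.rep.ρ g (e.symm (Pi.single p x, 0)))
    rw [e.apply_symm_apply, he g, e.apply_symm_apply, map_zero]
    refine Prod.ext (funext fun q => ?_) rfl
    change (Pi.single p ((T (c p)).rep.ρ g x) : ∀ p, (T (c p)).rep.V) q =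
      (T (c q)).rep.ρ g ((Pi.single p x : ∀ p, (T (c p)).rep.V) q)
    by_cases hq : q = p
    · subst hq
      rw [Pi.single_eq_same, Pi.single_eq_same]
    · rw [Pi.single_eq_of_ne hq, Pi.single_eq_of_ne hq, map_zero]
  · intro g _ p w
    exact h1 p g w
  · intro g _ x
    apply e.injective
    change e (e.symm (0, N.rep.ρ g x)) = e (W.rep.ρ g (e.symm (0, x)))
    rw [e.apply_symm_apply, he g, e.apply_symm_apply]
    refine Prod.ext (funext fun q => ?_) rfl
    exact (map_zero _).symm
  · intro g _ w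
    exact h2 g w
  · intro a p v
    exact h3 p a v
  · intro a v
    exact h4 a v
  · intro a v
    apply e.injective
    change e (W.gal a (e.symm (0, v))) = e (e.symm (0, N.gal a v))
    rw [e.apply_symm_apply, he', e.apply_symm_apply]
    refine Prod.ext (funext fun q => ?_) rfl
    exact map_zero _
  · rintro ⟨_, p, rfl⟩
    exact ⟨p, rfl⟩

variable {loc : FRep K Γ → Prop} {u : J → ℤ}

/-- the converse -/
theorem dets_conv (hT : P.EvenFamily loc χ τ u T) (h : P.IsSumUsing T S N W)
    (hW : P.MotivicTate χ τ W) : P.TateWithDets χ τ T S N := by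
  classical
  obtain ⟨hS, d, hd, h1, h2, h3, h4⟩ := exists_decU h
  refine ⟨ssG_conv d hd hW.1, fun I hI k n f hf a v => ?_⟩
  choose B hB1 hB2 hB3 hB4 using fun j => (hT.pure j).form
  choose p hp using h4
  let rj : ∀ j : S, W.rep.V →ₗ[K] (T j).rep.V := fun j =>
    rr (T := fun j : S => (T j).rep.V) (fun p => d.r p) j (p j)
  let ij : ∀ j : S, (T j).rep.V →ₗ[K] W.rep.V := fun j =>
    ii (T := fun j : S => (T j).rep.V) (fun p => d.i p) j (p j)
  have hrij : ∀ j x, rj j (ij j x) = x := fun j x =>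
    rr_ii (T := fun j : S => (T j).rep.V) (fun p x => d.ri p x) (hp j) x
  have hrjg : ∀ j g x, rj j (W.rep.ρ g x) = (T j).rep.ρ g (rj j x) := by
    intro j g x
    change (Pi.single (d.c (p j)) (d.r (p j) (W.rep.ρ g x)) : ∀ j : S, (T j).rep.V) j =
      (T j).rep.ρ g ((Pi.single (d.c (p j)) (d.r (p j) x) : ∀ j : S, (T j).rep.V) j)
    rw [d.r_eqv g (hd g)]
    by_cases hj : j = d.c (p j)
    · have h5 : ∀ (j' : S) (y : (T j').rep.V), j = j' →
          (Pi.single j' ((T j').rep.ρ g y) : ∀ j : S, (T j).rep.V) j =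
          (T j).rep.ρ g ((Pi.single j' y : ∀ j : S, (T j).rep.V) j) := by
        rintro j' y rfl
        rw [Pi.single_eq_same, Pi.single_eq_same]
      exact h5 _ _ hj
    · rw [Pi.single_eq_of_ne hj, Pi.single_eq_of_ne hj, map_zero]
  have hrja : ∀ j a x, rj j (W.gal a x) = (T j).gal a (rj j x) := by
    intro j a x
    change (Pi.single (d.c (p j)) (d.r (p j) (W.gal a x)) : ∀ j : S, (T j).rep.V) j =
      (T j).gal a ((Pi.single (d.c (p j)) (d.r (p j) x) : ∀ j : S, (T j).rep.V) j)
    rw [h1]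
    by_cases hj : j = d.c (p j)
    · have h5 : ∀ (j' : S) (y : (T j').rep.V), j = j' →
          (Pi.single j' ((T j').gal a y) : ∀ j : S, (T j).rep.V) j =
          (T j).gal a ((Pi.single j' y : ∀ j : S, (T j).rep.V) j) := by
        rintro j' y rfl
        rw [Pi.single_eq_same, Pi.single_eq_same]
      exact h5 _ _ hj
    · rw [Pi.single_eq_of_ne hj, Pi.single_eq_of_ne hj, map_zero]
  -- the determinant forms
  let b : ∀ j : J, Basis (Fin (finrank K (T j).rep.V)) K (T j).rep.V := fun j =>
    Module.finBasis K (T j).rep.V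
  let R : Option I → Type := fun o => o.elim (Fin k) fun j => Fin (finrank K (T j).rep.V)
  have hRf : ∀ o, Finite (R o) := by
    rintro (_ | j)
    · exact inferInstanceAs (Finite (Fin k))
    · exact inferInstanceAs (Finite (Fin (finrank K (T j).rep.V)))
  let D : ∀ o : Option I, MultilinearMap K (fun _ : R o => W.rep.V) K := fun o =>
    match o with
    | none => f.compLinearMap fun _ => d.r₀
    | some j => ((b j).det.toMultilinearMap).compLinearMap fun _ => rj ⟨j, hI j j.2⟩
  let F := prodForm D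
  have hFap : ∀ w, F w = f (fun s => d.r₀ (w ⟨none, s⟩)) *
      ∏ j : I, (b j).det fun s => rj ⟨j, hI j j.2⟩ (w ⟨some j, s⟩) := by
    intro w
    change prodForm D w = _
    rw [prodForm_apply, Fintype.prod_option]
    rfl
  have hdet : ∀ (j : J) (h : Module.End K (T j).rep.V) (w : Fin (finrank K (T j).rep.V) →
      (T j).rep.V), (b j).det (fun s => h (w s)) = LinearMap.det h * (b j).det w := fun j h w =>
    Module.Basis.det_comp (b j) h w
  have hsq : ∀ (j : J) (h : Module.End K (T j).rep.V) (t : Kˣ),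
      (∀ x y, B j (h x) (h y) = ((t ^ (u j + u j) : Kˣ) : K) * B j x y) →
      LinearMap.det h * LinearMap.det h =
        ((t ^ ((u j + u j) * (finrank K (T j).rep.V : ℤ)) : Kˣ) : K) := by
    intro j h t ht
    have h6 : ((t ^ ((u j + u j) * (finrank K (T j).rep.V : ℤ)) : Kˣ) : K) =
        ((t ^ u j : Kˣ) : K) ^ finrank K (T j).rep.V * ((t ^ u j : Kˣ) : K) ^
          finrank K (T j).rep.V := by
      rw [← mul_pow, ← Units.val_mul, ← zpow_add, ← Units.val_pow_eq_pow_val, zpow_mul,
        zpow_natCast]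
    rcases exists_sign (hB2 j) (Units.ne_zero (t ^ u j)) (fun x y => by
        rw [ht x y, zpow_add, Units.val_mul]) with h5 | h5
    · rw [h5, h6]
    · rw [h5, h6, neg_mul_neg]
  let Q : ℤ := ∑ j : I, (u j + u j) * (finrank K (T j).rep.V : ℤ)
  have hQ : ∀ (h : ∀ j : J, Module.End K (T j).rep.V) (t : Kˣ),
      (∀ j x y, B j (h j x) (h j y) = ((t ^ (u j + u j) : Kˣ) : K) * B j x y) →
      (∏ j ∈ I, LinearMap.det (h j)) * ∏ j : I, LinearMap.det (h j) = ((t ^ Q : Kˣ) : K) := by
    intro h t ht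
    have hh : ∀ j : I, LinearMap.det (h j) * LinearMap.det (h j) =
        ((t ^ ((u j + u j) * (finrank K (T j).rep.V : ℤ)) : Kˣ) : K) := fun j =>
      hsq j (h j) t (ht j)
    rw [← Finset.prod_coe_sort I fun j => LinearMap.det (h j), ← Finset.prod_mul_distrib,
      Finset.prod_congr rfl fun j _ => hh j]
    change _ = ((t ^ ∑ j : I, (u j + u j) * (finrank K (T j).rep.V : ℤ) : Kˣ) : K)
    rw [← prod_zp, Units.coe_prod]
  have hFg : ∀ g w, F (fun s => W.rep.ρ g (w s)) = ((χ g ^ (n + Q) : Kˣ) : K) * F w := by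
    intro g w
    rw [hFap, hFap]
    have h5 : f (fun s => d.r₀ (W.rep.ρ g (w ⟨none, s⟩))) = ((χ g ^ n : Kˣ) : K) *
        (∏ j ∈ I, LinearMap.det ((T j).rep.ρ g)) * f fun s => d.r₀ (w ⟨none, s⟩) := by
      simp only [d.r₀_eqv g (hd g)]
      exact hf g fun s => d.r₀ (w ⟨none, s⟩)
    have h6 : ∀ j : I, ((b j).det fun s => rj ⟨j, hI j j.2⟩ (W.rep.ρ g (w ⟨some j, s⟩))) =
        LinearMap.det ((T j).rep.ρ g) *
          (b j).det fun s => rj ⟨j, hI j j.2⟩ (w ⟨some j, s⟩) := by
      intro j
      simp only [hrjg]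
      exact hdet j ((T j).rep.ρ g) _
    rw [h5, Finset.prod_congr rfl fun j _ => h6 j, Finset.prod_mul_distrib]
    have h7 := hQ (fun j => (T j).rep.ρ g) (χ g) (fun j x y => hB3 j g x y)
    rw [zpow_add, Units.val_mul, ← h7]
    ring
  have h5 : ∀ a w, F (fun s => W.gal a (w s)) = ((τ a ^ (n + Q) : Kˣ) : K) * F w := by
    intro a w
    refine by_of_fin (N₀ := W.rep) (X₀ := W.gal a) (c := fun g => ((χ g ^ (n + Q) : Kˣ) : K))
      (fun k G hG v => ?_) hFg w
    exact hW.2 k (n + Q) G (fun g v => hG g v) a v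
  have h6 := h5 a fun s => match s with
    | ⟨none, s⟩ => d.i₀ (v s)
    | ⟨some j, s⟩ => ij ⟨j, hI j j.2⟩ (b j s)
  rw [hFap, hFap] at h6
  have h7 : ∀ j : I, ((b j).det fun s => rj ⟨j, hI j j.2⟩ (W.gal a (ij ⟨j, hI j j.2⟩ (b j s)))) =
      LinearMap.det ((T j).gal a) := by
    intro j
    simp only [hrja, hrij]
    refine (hdet j ((T j).gal a) (b j)).trans ?_
    rw [Module.Basis.det_self, mul_one]
  have h8 : ∀ j : I, ((b j).det fun s => rj ⟨j, hI j j.2⟩ (ij ⟨j, hI j j.2⟩ (b j s))) = 1 := by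
    intro j
    simp only [hrij]
    exact Module.Basis.det_self (b j)
  simp only [h7, h8, Finset.prod_const_one, mul_one, h2, d.ri₀] at h6
  have h9 := hQ (fun j => (T j).gal a) (τ a) (fun j x y => hB4 j a x y)
  have h10 : (∏ j : I, LinearMap.det ((T j).gal a)) = ∏ j ∈ I, LinearMap.det ((T j).gal a) :=
    Finset.prod_coe_sort I fun j => LinearMap.det ((T j).gal a)
  rw [h10] at h9 h6
  have h11 : ∏ j ∈ I, LinearMap.det ((T j).gal a) ≠ 0 := by
    intro h0
    rw [h0, mul_zero] at h9
    exact Units.ne_zero _ h9.symm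
  change f (fun s => N.gal a (v s)) = ((τ a ^ n : Kˣ) : K) *
    (∏ j ∈ I, LinearMap.det ((T j).gal a)) * f v
  apply mul_right_cancel₀ h11
  rw [h6, zpow_add, Units.val_mul, ← h9]
  ring

variable [CharZero K] [IsAlgClosed K]

/-- **The motivic Tate conjecture for sums with motives of even weight.** -/
theorem dets_main
    (hloc : ∀ U, loc U → (∃ g : Γ, P.TypeIII (Pool.Agent.Q71.AB.P.op U g)) ∨
      ∃ v F c, P.SlopesAt U v F c) (hT : P.EvenFamily loc χ τ u T) (h : P.IsSumUsing T S N W)
    (hNp : Pool.Agent.Q71.AB.P.HasPieces (fun U => ∀ j, P.H2Small (T j).rep U) N.rep) :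
    P.MotivicTate χ τ W ↔ P.TateWithDets χ τ T S N := by
  classical
  refine ⟨dets_conv hT h, fun hN => ?_⟩
  obtain ⟨hS, d, hd, h1, h2, h3, h4⟩ := exists_decU h
  obtain ⟨m, M, hM, hgen⟩ := brg_pieces hNp fun U hU j => (small_h2 (hU j)).1 even_two
  have : Fintype S := hS.fintype
  choose B hB1 hB2 hB3 hB4 using fun j => (hT.pure j).form
  choose l hl using fun j => loc_place (hloc _ (hT.place j))
  let hTm : ∀ j, MRep (l j) True (T j).rep := fun j =>
    { B := B j
      μ := χ ^ (u j + u j)
      eqv := hB3 j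
      nd := hB2 j
      si := (hT.pure j).irreducible
      sy := fun _ => hB1 j
      orth := fun _ => ⟨hT.rank j, hl j⟩
      alt := fun h => absurd trivial h
      symp := fun h => absurd trivial h }
  refine ⟨ssG_dec d hd (fun j => (hTm j).si) hN.1, fun k n f hf a v => ?_⟩
  exact core_ort (M := M) hgen (fun j : S => hTm j) (u := fun j : S => u j) (fun _ => rfl)
    (fun i j hij h => (hT.distinct i j (fun h' => hij (Subtype.ext h'))).1 h)
    (fun i j hij hi hj => absurd ⟨hi, hj⟩
      (hT.distinct i j (fun h' => hij (Subtype.ext h').symm)).2)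
    (fun i a => hM a i) d hd (X := fun j : S => (T j).gal a)
    (fun j x y => hB4 j a x y) (h1 a) (h2 a)
    (fun I n k G hG v => by
      have h5 := hN.2 (I.map ⟨Subtype.val, Subtype.val_injective⟩) (fun j hj => by
        obtain ⟨j', -, rfl⟩ := Finset.mem_map.1 hj
        exact j'.2) k n G (fun g v => by
        have h6 := hG g v
        change _ = _ * P.gdet T _ g * _
        unfold P.gdet
        rw [Finset.prod_map]
        exact h6) a v
      change _ = _ * P.mdet T _ a * _ at h5
      unfold P.mdet at h5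
      rw [Finset.prod_map] at h5
      exact h5) hf v

end Pool.Agent.Q71.MM
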