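import Pool.Agent.Q71.MM.Ort4

/-!
# The Sato-Tate conjecture with components for sums with motives of even weight
-/

set_option linter.unusedSectionVars false

namespace Pool.Agent.Q71.MM

open Module Finset Function Pool.Agent.Y127.G

variable {K : Type} [Field K] {Γ : Type} [Group Γ] {χ : Γ →* Kˣ} {G : Type} {τ : G → Kˣ}
  {J : Type} {T : J → P.MotG K Γ G} {S : Set J} {N W : P.MotG K Γ G}
  {loc : FRep K Γ → Prop} {u : J → ℤ}

/-- the elements of the kernel only -/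
def rsG (τ : G → Kˣ) (M : P.MotG K Γ G) : P.MotG K Γ {a : G // τ a = 1} :=
  ⟨M.rep, fun a => M.gal a⟩

theorem stf_iff {M : P.MotG K Γ G} : P.SatoTateFull χ τ M ↔
    P.MotivicTate χ (fun _ : {a : G // τ a = 1} => (1 : Kˣ)) (rsG τ M) := by
  refine and_congr Iff.rfl ⟨fun h k n f hf a v => ?_, fun h k n f hf a ha v => ?_⟩
  · have h1 := h k n f hf a a.2 v
    rw [one_zpow, Units.val_one]
    exact h1
  · have h1 := h k n f hf ⟨a, ha⟩ v
    rw [one_zpow, Units.val_one] at h1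
    exact h1

theorem std_iff {M : P.MotG K Γ G} : P.SatoTateWithDets χ τ T S M ↔
    P.TateWithDets χ (fun _ : {a : G // τ a = 1} => (1 : Kˣ)) (fun j => rsG τ (T j)) S
      (rsG τ M) := by
  refine and_congr Iff.rfl ⟨fun h I hI k n f hf a v => ?_, fun h I hI k n f hf a ha v => ?_⟩
  · have h1 := h I hI k n f hf a a.2 v
    change _ = (((1 : Kˣ) ^ n : Kˣ) : K) * P.mdet (fun j => rsG τ (T j)) I a * _
    rw [one_zpow, Units.val_one, one_mul]
    exact h1
  · have h1 := h I hI k n f hf ⟨a, ha⟩ v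
    change _ = (((1 : Kˣ) ^ n : Kˣ) : K) * P.mdet (fun j => rsG τ (T j)) I ⟨a, ha⟩ * _ at h1
    rw [one_zpow, Units.val_one, one_mul] at h1
    exact h1

theorem rs_sum (h : P.IsSumUsing T S N W) :
    P.IsSumUsing (fun j => rsG τ (T j)) S (rsG τ N) (rsG τ W) := by
  obtain ⟨P, hP, c, f, f₀, h1, h2, h3, h4⟩ := h
  exact ⟨P, hP, c, f, f₀, h1, fun p => ⟨(h2 p).1, (h2 p).2.1, fun a => (h2 p).2.2 a⟩,
    ⟨h3.1, h3.2.1, fun a => h3.2.2 a⟩, h4⟩

theorem rs_even (h : P.EvenFamily loc χ τ u T) :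
    P.EvenFamily loc χ (fun _ : {a : G // τ a = 1} => (1 : Kˣ)) u fun j => rsG τ (T j) where
  pure j := by
    obtain ⟨⟨B, h1, h2, h3, h4⟩, h5⟩ := h.pure j
    refine ⟨⟨B, h1, h2, h3, fun a v v' => ?_⟩, h5⟩
    have h6 := h4 a v v'
    rw [a.2] at h6
    exact h6
  rank := h.rank
  distinct := h.distinct
  place := h.place

variable [CharZero K] [IsAlgClosed K]

/-- **The Sato-Tate conjecture for sums with motives of even weight.** -/
theorem stf_main
    (hloc : ∀ U, loc U → (∃ g : Γ, P.TypeIII (Pool.Agent.Q71.AB.P.op U g)) ∨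
      ∃ v F c, P.SlopesAt U v F c) (hT : P.EvenFamily loc χ τ u T) (h : P.IsSumUsing T S N W)
    (hNp : Pool.Agent.Q71.AB.P.HasPieces (fun U => ∀ j, P.H2Small (T j).rep U) N.rep) :
    P.SatoTateFull χ τ W ↔ P.SatoTateWithDets χ τ T S N := by
  rw [stf_iff, std_iff]
  exact dets_main hloc (rs_even hT) (rs_sum h) hNp

end Pool.Agent.Q71.MM
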