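import Pool.Agent.Q71.MM.P8

/-!
# Sums of Tate motives and determinants: definitions
-/

set_option autoImplicit false

namespace Pool.Agent.Q71.MM.P

open Module Function Pool.Agent.Y127.G Pool.Agent.Q71.AB.P

variable {K : Type} [Field K] {Γ : Type} [Group Γ] {G : Type} {J : Type}

/-- `N` is a direct sum of Tate motives: there is a basis on whose elements `Γ` acts by powers of `χ`
and `G` by the same powers of `τ`. -/
def TateSumG (χ : Γ → Kˣ) (τ : G → Kˣ) (N : MotG K Γ G) : Prop :=
  ∃ (ι : Type) (_ : Finite ι) (b : Basis ι K N.rep.V) (m : ι → ℤ),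
    (∀ g i, act N.rep g (b i) = ((χ g ^ m i : Kˣ) : K) • b i) ∧
      ∀ a i, gact N a (b i) = ((τ a ^ m i : Kˣ) : K) • b i

/-- If the product of the determinants of the action of `Γ` on `T j`, `j ∈ I`, is `χ ^ n`, then the
product of the determinants of the action of `G` is `τ ^ n`, for all finite subsets `I` of `S`. -/
def DetsAgree (χ : Γ → Kˣ) (τ : G → Kˣ) (T : J → MotG K Γ G) (S : Set J) : Prop :=
  ∀ (I : Finset J), (∀ j ∈ I, j ∈ S) → ∀ n : ℤ,
    (∀ g, gdet T I g = ((χ g ^ n : Kˣ) : K)) → ∀ a, mdet T I a = ((τ a ^ n : Kˣ) : K)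

/-- If the product of the determinants of the action of `Γ` on `T j`, `j ∈ I`, is a power of `χ`, then
the product of the determinants of the action of the elements `a` of `G` with `τ a = 1` is `1`, for all
finite subsets `I` of `S`. -/
def DetsAgreeInKer (χ : Γ → Kˣ) (τ : G → Kˣ) (T : J → MotG K Γ G) (S : Set J) : Prop :=
  ∀ (I : Finset J), (∀ j ∈ I, j ∈ S) → ∀ n : ℤ,
    (∀ g, gdet T I g = ((χ g ^ n : Kˣ) : K)) → ∀ a, τ a = 1 → mdet T I a = 1

end Pool.Agent.Q71.MM.P
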