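import Pool.Agent.Q71.MM.Ort5
import Pool.Agent.Q71.MM.P9

/-!
# Sums of Tate motives and determinants
-/

set_option linter.unusedSectionVars false

namespace Pool.Agent.Q71.MM

open Module Finset Function Pool.Agent.Y127.G

variable {K : Type} [Field K] {Γ : Type} [Group Γ] {χ : Γ →* Kˣ} {G : Type} {τ : G → Kˣ}
  {J : Type} {T : J → P.MotG K Γ G} {S : Set J} {N W : P.MotG K Γ G}
  {loc : FRep K Γ → Prop} {u : J → ℤ}

theorem ssAll_basis {M : FRep K Γ} {ι : Type} (b : Basis ι K M.V) (m : ι → ℤ)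
    (h1 : ∀ g i, M.ρ g (b i) = ((χ g ^ m i : Kˣ) : K) • b i) :
    P.SemisimpleAll K (Pool.Agent.Q71.AB.P.act M) := by
  intro U hU
  obtain ⟨C, hC1, hC2, hC3⟩ := ss_of_pieces (M := M) (Δ := ⊤)
    (fun i : ι => Submodule.span K {b i}) (by
      intro i U' _
      by_cases h : b i ∈ U'
      · refine ⟨⊥, bot_le, fun g _ x hx => ?_, inf_bot_eq _, ?_⟩
        · rw [Submodule.mem_bot] at hx ⊢
          rw [hx, map_zero]
        · rw [sup_bot_eq, Submodule.span_singleton_le_iff_mem]
          exact h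
      · refine ⟨Submodule.span K {b i}, le_rfl, ?_, ?_, le_sup_right⟩
        · intro g _ x hx
          obtain ⟨c, rfl⟩ := Submodule.mem_span_singleton.1 hx
          rw [map_smul, h1]
          exact Submodule.smul_mem _ _
            (Submodule.smul_mem _ _ (Submodule.mem_span_singleton_self _))
        · rw [Submodule.eq_bot_iff]
          rintro x ⟨hx, hx'⟩
          obtain ⟨c, rfl⟩ := Submodule.mem_span_singleton.1 hx'
          by_cases hc : c = 0
          · rw [hc, zero_smul]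
          · exact absurd ((Submodule.smul_mem_iff _ hc).1 hx) h) (by
      intro U' hU'
      rw [eq_top_iff, ← b.span_eq, Submodule.span_le]
      rintro _ ⟨i, rfl⟩
      exact hU' i (Submodule.mem_span_singleton_self _)) U (fun g _ x hx => hU g x hx)
  exact ⟨C, fun g x hx => hC1 g (Subgroup.mem_top g) x hx,
    ⟨disjoint_iff.2 hC2, codisjoint_iff.2 hC3⟩⟩

/-- multilinear forms and a basis of eigenvectors -/
theorem ml_basis {V : Type} [AddCommGroup V] [Module K V] {ι : Type} [Finite ι] (b : Basis ι K V)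
    (m : ι → ℤ) (X : V →ₗ[K] V) (x : Kˣ) (hX : ∀ i, X (b i) = ((x ^ m i : Kˣ) : K) • b i) {k : ℕ}
    (f : MultilinearMap K (fun _ : Fin k => V) K) (c : K)
    (h : ∀ s : Fin k → ι, f (fun i => b (s i)) ≠ 0 → ((x ^ ∑ i, m (s i) : Kˣ) : K) = c)
    (v : Fin k → V) : f (fun i => X (v i)) = c * f v := by
  classical
  have := Fintype.ofFinite ι
  have h1 : f.compLinearMap (fun _ => X) = c • f := by
    refine Module.Basis.ext_multilinear (fun _ => b) fun s => ?_
    rw [MultilinearMap.compLinearMap_apply, _root_.smul_apply, smul_eq_mul]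
    have h2 : (fun i => X (b (s i))) = fun i => ((x ^ m (s i) : Kˣ) : K) • b (s i) :=
      funext fun i => hX (s i)
    change f (fun i => X (b (s i))) = c * f fun i => b (s i)
    rw [h2, f.map_smul_univ, smul_eq_mul]
    by_cases h0 : f (fun i => b (s i)) = 0
    · rw [h0, mul_zero, mul_zero]
    · rw [← h s h0, ← prod_zp, Units.coe_prod]
  have h3 := congrArg (fun F : MultilinearMap K (fun _ : Fin k => V) K => F v) h1
  simpa using h3

theorem dets_tate (hN : P.TateSumG χ τ N) :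
    P.TateWithDets χ τ T S N ↔ P.DetsAgree χ τ T S := by
  classical
  obtain ⟨ι, hι, b, m, h1, h2⟩ := hN
  refine ⟨fun h I hI n hn a => ?_, fun h => ⟨ssAll_basis b m h1, fun I hI k n f hf a v => ?_⟩⟩
  · have h3 := h.2 I hI 0 (-n) (MultilinearMap.constOfIsEmpty K (fun _ => N.rep.V) (1 : K))
      (fun g v => by
        change (1 : K) = ((χ g ^ (-n) : Kˣ) : K) * P.gdet T I g * 1
        rw [hn g, ← Units.val_mul, ← zpow_add, neg_add_cancel, zpow_zero, Units.val_one,
          one_mul]) a Fin.elim0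
    change (1 : K) = ((τ a ^ (-n) : Kˣ) : K) * P.mdet T I a * 1 at h3
    rw [mul_one, zpow_neg] at h3
    have h4 : (((τ a ^ n)⁻¹ : Kˣ) : K) * ((τ a ^ n : Kˣ) : K) = 1 := by
      rw [← Units.val_mul, inv_mul_cancel, Units.val_one]
    have h5 : (((τ a ^ n)⁻¹ : Kˣ) : K) ≠ 0 := Units.ne_zero _
    exact mul_left_cancel₀ h5 (h3.symm.trans h4.symm)
  · refine ml_basis b m (N.gal a) (τ a) (fun i => h2 a i) f _ (fun s hs => ?_) v
    have h3 : ∀ g, P.gdet T I g = ((χ g ^ (∑ i, m (s i) - n) : Kˣ) : K) := by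
      intro g
      have h4 := hf g fun i => b (s i)
      have h5 : (fun i => Pool.Agent.Q71.AB.P.act N.rep g (b (s i))) =
          fun i => ((χ g ^ m (s i) : Kˣ) : K) • b (s i) := funext fun i => h1 g (s i)
      rw [h5, f.map_smul_univ, smul_eq_mul] at h4
      have h6 : _ = ((χ g ^ n : Kˣ) : K) * P.gdet T I g := mul_right_cancel₀ hs h4
      rw [← Units.coe_prod, prod_zp] at h6
      rw [zpow_sub, Units.val_mul, h6, mul_comm _ (P.gdet T I g), mul_assoc, ← Units.val_mul,
        mul_inv_cancel, Units.val_one, mul_one]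
    have h4 := h I hI _ h3 a
    change _ = ((τ a ^ n : Kˣ) : K) * P.mdet T I a
    rw [h4, ← Units.val_mul, ← zpow_add]
    congr 2
    ring

theorem dets_tate_ker (hN : P.TateSumG χ τ N) :
    P.SatoTateWithDets χ τ T S N ↔ P.DetsAgreeInKer χ τ T S := by
  obtain ⟨ι, hι, b, m, h1, h2⟩ := hN
  refine std_iff.trans ((dets_tate (N := rsG τ N) ⟨ι, hι, b, m, h1, fun a i => by
    have h3 := h2 a i
    rw [a.2] at h3
    exact h3⟩).trans ?_)
  constructor
  · intro h I hI n hn a ha
    have h3 := h I hI n hn ⟨a, ha⟩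
    rw [one_zpow, Units.val_one] at h3
    exact h3
  · intro h I hI n hn a
    have h3 := h I hI n hn a a.2
    rw [one_zpow, Units.val_one]
    exact h3

variable [CharZero K] [IsAlgClosed K]

theorem dets_full
    (hloc : ∀ U, loc U → (∃ g : Γ, P.TypeIII (Pool.Agent.Q71.AB.P.op U g)) ∨
      ∃ v F c, P.SlopesAt U v F c) (hT : P.EvenFamily loc χ τ u T) (h : P.IsSumUsing T S N W)
    (hNp : Pool.Agent.Q71.AB.P.HasPieces (fun U => ∀ j, P.H2Small (T j).rep U) N.rep) :
    (P.MotivicTate χ τ W ↔ P.TateWithDets χ τ T S N) ∧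
      (P.TateSumG χ τ N → (P.MotivicTate χ τ W ↔ P.DetsAgree χ τ T S)) :=
  ⟨dets_main hloc hT h hNp, fun hN => (dets_main hloc hT h hNp).trans (dets_tate hN)⟩

theorem stf_full
    (hloc : ∀ U, loc U → (∃ g : Γ, P.TypeIII (Pool.Agent.Q71.AB.P.op U g)) ∨
      ∃ v F c, P.SlopesAt U v F c) (hT : P.EvenFamily loc χ τ u T) (h : P.IsSumUsing T S N W)
    (hNp : Pool.Agent.Q71.AB.P.HasPieces (fun U => ∀ j, P.H2Small (T j).rep U) N.rep) :
    (P.SatoTateFull χ τ W ↔ P.SatoTateWithDets χ τ T S N) ∧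
      (P.TateSumG χ τ N → (P.SatoTateFull χ τ W ↔ P.DetsAgreeInKer χ τ T S)) :=
  ⟨stf_main hloc hT h hNp, fun hN => (stf_main hloc hT h hNp).trans (dets_tate_ker hN)⟩

end Pool.Agent.Q71.MM
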