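import Pool.Agent.Q71.AB.P2

/-!
# Motives and their realizations: definitions
-/

set_option autoImplicit false

namespace Pool.Agent.Q71.MM.P

open Module Function Pool.Agent.Y127.G Pool.Agent.Q71.AB.P

/-- The realizations of a motive: the representation `rep` of the Galois group `Γ` with coefficients in
`K` (an algebraic closure of `ℚ_ℓ`) and the operators of the elements of `L`, the Lie algebra of the
motivic Galois group. -/
structure Mot (K : Type) [Field K] (Γ : Type) [Group Γ] (L : Type) where
  rep : FRep K Γ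
  lie : L → (rep.V →ₗ[K] rep.V)

section

variable {K : Type} [Field K] {V : Type} [AddCommGroup V] [Module K V] {V' : Type}
  [AddCommGroup V'] [Module K V'] {Γ : Type} [Group Γ] {L : Type}

/-- A multilinear form `f` on the realization is a Tate form of weight `n` if the elements of a
subgroup of finite index multiply it by `χ ^ n`. -/
def IsTate (χ : Γ →* Kˣ) (r : Γ → V → V) (n : ℤ) {k : ℕ} (f : MultilinearMap K (fun _ : Fin k => V) K) :
    Prop :=
  ∃ Δ : Subgroup Γ, Δ.FiniteIndex ∧
    ∀ g ∈ Δ, ∀ v, f (fun s => r g (v s)) = ((χ g ^ n : Kˣ) : K) * f v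

/-- The form `f` is motivic of weight `n` if the elements `a` of the Lie algebra of the motivic Galois
group act on it by `n t a`, where `t a` is the action on the Tate motive. -/
def IsMotivic (t : L → K) (x : L → V →ₗ[K] V) (n : ℤ) {k : ℕ}
    (f : MultilinearMap K (fun _ : Fin k => V) K) : Prop :=
  ∀ a v, ∑ s, f (update v s (x a (v s))) = (n : K) * t a * f v

/-- `U` is stable under the elements of `Δ`. -/
def Stable (Δ : Subgroup Γ) (r : Γ → V → V) (U : Submodule K V) : Prop :=
  ∀ g ∈ Δ, ∀ x ∈ U, r g x ∈ U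

/-- Every stable subspace has a stable complement, for all sufficiently small subgroups of finite
index. -/
def Semisimple (K : Type) [Field K] {V : Type} [AddCommGroup V] [Module K V] {Γ : Type} [Group Γ]
    (r : Γ → V → V) : Prop :=
  ∃ Δ₀ : Subgroup Γ, Δ₀.FiniteIndex ∧ ∀ Δ : Subgroup Γ, Δ.FiniteIndex → Δ ≤ Δ₀ →
    ∀ U : Submodule K V, Stable Δ r U → ∃ C : Submodule K V, Stable Δ r C ∧ IsCompl U C

/-- A pure motive of weight `w`: a nondegenerate form, symmetric if `w` is even and alternating if `w`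
is odd, which the Galois group and the Lie algebra multiply by the `w`-th power of the action on the
Tate motive; the realization is irreducible under all subgroups of finite index. -/
structure IsPure (χ : Γ →* Kˣ) (t : L → K) (w : ℤ) (r : Γ → V → V) (x : L → V →ₗ[K] V) :
    Prop where
  form : ∃ B : V →ₗ[K] V →ₗ[K] K, (Even w → ∀ u v, B u v = B v u) ∧
    (¬Even w → ∀ u v, B u v = -B v u) ∧ (∀ u, (∀ v, B u v = 0) → u = 0) ∧
    (∀ g u v, B (r g u) (r g v) = ((χ g ^ w : Kˣ) : K) * B u v) ∧
    ∀ a u v, B (x a u) v + B u (x a v) = (w : K) * t a * B u v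
  irreducible : ∀ Δ : Subgroup Γ, Δ.FiniteIndex → ∀ U : Submodule K V, Stable Δ r U →
    U = ⊥ ∨ U = ⊤

/-- isomorphic up to a twist -/
def TwistIso (K : Type) [Field K] {V : Type} [AddCommGroup V] [Module K V] {V' : Type}
    [AddCommGroup V'] [Module K V'] {Γ : Type} [Group Γ] (r : Γ → V → V) (r' : Γ → V' → V') :
    Prop :=
  ∃ (ψ : V ≃ₗ[K] V') (ε : Γ → K), ∀ g x, ψ (r g x) = ε g • r' g (ψ x)

/-- `f` is like a generator of the inertia group at a place of maximal degeneration (type III):
`(f - 1) ^ 3 = 0`, `(f - 1) ^ 2 ≠ 0` and `f - 1` has rank `2`. -/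
def TypeIII (f : V →ₗ[K] V) : Prop :=
  (∀ x, dif f (dif f (dif f x)) = 0) ∧ (∃ x, dif f (dif f x) ≠ 0) ∧ rk (dif f) = 2

end

variable {K : Type} [Field K] {Γ : Type} [Group Γ] {L : Type}

/-- The Mumford-Tate conjecture for `M`: the Galois representation is semisimple, and all Tate forms
are motivic. -/
def MumfordTate (χ : Γ →* Kˣ) (t : L → K) (M : Mot K Γ L) : Prop :=
  Semisimple K (act M.rep) ∧ ∀ (k : ℕ) (n : ℤ) (f : MultilinearMap K (fun _ : Fin k => M.rep.V) K),
    IsTate χ (act M.rep) n f → IsMotivic t M.lie n f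

/-- the operator of `a` -/
def lact (M : Mot K Γ L) (a : L) (x : M.rep.V) : M.rep.V := M.lie a x

/-- A linear map of the realizations which is equivariant under a subgroup of finite index and the
elements of `L`. -/
def IsMor (M M' : Mot K Γ L) (f : M.rep.V → M'.rep.V) : Prop :=
  IsLinearMap K f ∧ (∃ Δ : Subgroup Γ, Δ.FiniteIndex ∧ EqvOn Δ (act M.rep) (act M'.rep) f) ∧
    ∀ a x, f (lact M a x) = lact M' a (f x)

/-- `W` is the direct sum of `N` and copies of the `T j` (over a finite extension). -/
def IsSum {J : Type} (T : J → Mot K Γ L) (N W : Mot K Γ L) : Prop :=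
  ∃ (P : Type) (_ : Finite P) (c : P → J) (f : ∀ p, W.rep.V → (T (c p)).rep.V)
    (f₀ : W.rep.V → N.rep.V), (∀ p, IsMor W (T (c p)) (f p)) ∧ IsMor W N f₀ ∧
      Function.Bijective fun x => ((fun p => f p x : ∀ p, (T (c p)).rep.V), f₀ x)

/-- The space `U` with a form is small in comparison with `T`, of weight `w`. -/
def FormSmall (w : ℤ) (T U : FRep K Γ) : Prop :=
  (Form (-1 : K) (act U) ∧ dim U + 1 < dim T) ∨ (Form (1 : K) (act U) ∧ dim U < dim T) ∨
    (¬Even w ∧ SmallDim T U)

end Pool.Agent.Q71.MM.P
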