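import Pool.Agent.Q71.MM.P5
import Pool.Agent.Q71.MM.P1

/-!
# Two groups: the Galois group of a point and the fundamental group of a subvariety
-/

set_option autoImplicit false

namespace Pool.Agent.Q71.MM.P

open Module Function Pool.Agent.Y127.G Pool.Agent.Q71.AB.P

/-- A representation of `Γ` together with an action of a second group `Γ'` on the same space, and a
homomorphism `Γ → Γ'` (the specialization) which is compatible with the actions. -/
structure Two (K : Type) [Field K] {Γ : Type} [Group Γ] {Γ' : Type} [Group Γ'] (sp : Γ →* Γ') where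
  rep : FRep K Γ
  big : Γ' →* (rep.V →ₗ[K] rep.V)
  compat : ∀ g, big (sp g) = op rep g

variable {K : Type} [Field K] {Γ : Type} [Group Γ] {Γ' : Type} [Group Γ'] {sp : Γ →* Γ'}

/-- the action of the second group -/
def bact (M : Two K sp) (g : Γ') (x : M.rep.V) : M.rep.V := M.big g x

/-- All multilinear forms which are Tate forms for the action `r` of `Γ` are Tate forms for the
action `r'` of `Γ'`, and conversely: the identity components of the Zariski closures of the images
of the two groups (if they are reductive) are the same. -/
def SameTate {V : Type} [AddCommGroup V] [Module K V] (χ : Γ →* Kˣ) (χ' : Γ' →* Kˣ)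
    (r : Γ → V → V) (r' : Γ' → V → V) : Prop :=
  ∀ (k : ℕ) (n : ℤ) (f : MultilinearMap K (fun _ : Fin k => V) K),
    IsTate χ r n f ↔ IsTate χ' r' n f

/-- The Tate forms in two variables with the multiplier `χ` (the Hodge classes of degree two of the
abelian variety) are Tate forms for `Γ'`. -/
def DivisorsExtend {V : Type} [AddCommGroup V] [Module K V] (χ : Γ →* Kˣ) (χ' : Γ' →* Kˣ)
    (r : Γ → V → V) (r' : Γ' → V → V) : Prop :=
  ∀ f : MultilinearMap K (fun _ : Fin 2 => V) K, IsTate χ r 1 f → IsTate χ' r' 1 f

/-- `T` is of symplectic type, and an element of `Γ` acts by a transvection or with three slopes. -/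
def Full (χ : Γ →* Kˣ) (T : FRep K Γ) : Prop :=
  IsSymplectic χ (act T) ∧ (HasTransvection T ∨ ThreeSlopes T)

end Pool.Agent.Q71.MM.P
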