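import Pool.Agent.Q71.MM.P5
import Pool.Agent.Q71.MM.P4

/-!
# Sums with motives of even weight: determinants
-/

set_option autoImplicit false

namespace Pool.Agent.Q71.MM.P

open Module Function Pool.Agent.Y127.G Pool.Agent.Q71.AB.P

section
variable {K : Type} [Field K] {V : Type} [AddCommGroup V] [Module K V] {G : Type}

/-- The form `f` is multiplied by the values of `c`. -/
def ScaledBy (c : G → K) (x : G → V → V) {k : ℕ} (f : MultilinearMap K (fun _ : Fin k => V) K) :
    Prop := ∀ a v, f (fun s => x a (v s)) = c a * f v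

/-- A pure motive of weight `2 u` with a nondegenerate symmetric form which the Galois group and the
motivic Galois group multiply by the power `2 u` of the action on the Tate motive; the realization
is irreducible under all subgroups of finite index of the Galois group. -/
structure SymPure {Γ : Type} [Group Γ] (χ : Γ → Kˣ) (τ : G → Kˣ) (u : ℤ) (r : Γ → V → V)
    (x : G → V → V) : Prop where
  form : ∃ B : V →ₗ[K] V →ₗ[K] K, (∀ u v, B u v = B v u) ∧ (∀ u, (∀ v, B u v = 0) → u = 0) ∧
    (∀ g v v', B (r g v) (r g v') = ((χ g ^ (u + u) : Kˣ) : K) * B v v') ∧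
    ∀ a v v', B (x a v) (x a v') = ((τ a ^ (u + u) : Kˣ) : K) * B v v'
  irreducible : ∀ Δ : Subgroup Γ, Δ.FiniteIndex → ∀ U : Submodule K V,
    (∀ g ∈ Δ, ∀ u ∈ U, r g u ∈ U) → U = ⊥ ∨ U = ⊤

end

variable {K : Type} [Field K] {Γ : Type} [Group Γ] {G : Type} {J : Type}

/-- the product of the determinants of the action of `g` on the `T j` for `j ∈ I` -/
noncomputable def gdet (T : J → MotG K Γ G) (I : Finset J) (g : Γ) : K :=
  ∏ j ∈ I, LinearMap.det (op (T j).rep g)

/-- the product of the determinants of the action of `a` on the `T j` for `j ∈ I` -/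
noncomputable def mdet (T : J → MotG K Γ G) (I : Finset J) (a : G) : K :=
  ∏ j ∈ I, LinearMap.det ((T j).gal a)

/-- The motivic Tate conjecture for `N` and the tensor products of its tensor constructions with the
determinants of the motives `T j`, `j ∈ S`: the Galois representation of `N` is semisimple, and every
multilinear form on it which the Galois group multiplies by `χ ^ n` times the determinants of `T j`,
`j ∈ I`, is multiplied by `τ ^ n` times the determinants of `T j`, `j ∈ I`, under the motivic Galois
group, for all finite subsets `I` of `S`. -/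
def TateWithDets (χ : Γ → Kˣ) (τ : G → Kˣ) (T : J → MotG K Γ G) (S : Set J)
    (N : MotG K Γ G) : Prop :=
  SemisimpleAll K (act N.rep) ∧ ∀ (I : Finset J), (∀ j ∈ I, j ∈ S) → ∀ (k : ℕ) (n : ℤ)
    (f : MultilinearMap K (fun _ : Fin k => N.rep.V) K),
    ScaledBy (fun g => ((χ g ^ n : Kˣ) : K) * gdet T I g) (act N.rep) f →
    ScaledBy (fun a => ((τ a ^ n : Kˣ) : K) * mdet T I a) (gact N) f

/-- `W` is the direct sum of `N` and copies of the `T j`, `j ∈ S`, each of which occurs. -/
def IsSumUsing (T : J → MotG K Γ G) (S : Set J) (N W : MotG K Γ G) : Prop :=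
  ∃ (P : Type) (_ : Finite P) (c : P → J) (f : ∀ p, W.rep.V → (T (c p)).rep.V)
    (f₀ : W.rep.V → N.rep.V), Set.range c = S ∧ (∀ p, IsMorG W (T (c p)) (f p)) ∧
      IsMorG W N f₀ ∧
      Function.Bijective fun x => ((fun p => f p x : ∀ p, (T (c p)).rep.V), f₀ x)

/-- Pure motives `T j` of weights `2 u j` with symmetric forms, of rank `3` or at least `5`, not
isomorphic to each other up to a twist, not two of them of rank `8`, with the local condition
`loc`. -/
structure EvenFamily (loc : FRep K Γ → Prop) (χ : Γ → Kˣ) (τ : G → Kˣ) (u : J → ℤ)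
    (T : J → MotG K Γ G) : Prop where
  pure : ∀ j, SymPure χ τ (u j) (act (T j).rep) (gact (T j))
  rank : ∀ j, dim (T j).rep = 3 ∨ 5 ≤ dim (T j).rep
  distinct : ∀ i j, i ≠ j → ¬TwIso K (act (T i).rep) (act (T j).rep) ∧
    ¬(dim (T i).rep = 8 ∧ dim (T j).rep = 8)
  place : ∀ j, loc (T j).rep

/-- Some element of `Γ` acts like a maximal degeneration (type III). -/
def HasTypeIII (T : FRep K Γ) : Prop := ∃ g : Γ, TypeIII (op T g)

/-- Some element of `Γ` has the slopes `h + c`, `h - c`, once each, and `h`. -/
def HasSlopes (T : FRep K Γ) : Prop := ∃ v F c, SlopesAt T v F c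

/-- `U` has a form (up to a character) and is of small dimension in comparison with `T`. -/
def SmallWithForm (T U : FRep K Γ) : Prop :=
  (Form (-1 : K) (act U) ∧ dim U + 1 < dim T) ∨ (Form (1 : K) (act U) ∧ dim U < dim T)

end Pool.Agent.Q71.MM.P
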