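import Pool.Agent.Q71.MM.Grp2

/-!
# Transfer of the semi-invariant forms on a sum to a second group
-/

set_option linter.unusedSectionVars false

namespace Pool.Agent.Q71.MM

open Module Finset Function Pool.Agent.TH118.SG Pool.Agent.TH125.Gal Pool.Agent.Y127.G
  Pool.Agent.Y127.C Pool.Agent.Q71.TM Pool.Agent.Q71.SP Pool.Agent.Q71.AB

variable {K : Type} [Field K] {Γ : Type} [Group Γ] {χ : Γ →* Kˣ} {Γ' : Type} [Group Γ']
  {χ' : Γ' →* Kˣ}

/-- the form is multiplied by `χ ^ n` by the operators of the elements of a subgroup of finite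
index -/
def PotBy (χ' : Γ' →* Kˣ) {V : Type} [AddCommGroup V] [Module K V] (X : Γ' → V → V) (n : ℤ)
    {S : Type} (f : MultilinearMap K (fun _ : S => V) K) : Prop :=
  ∃ Δ : Subgroup Γ', Δ.FiniteIndex ∧ ∀ g ∈ Δ, ∀ v,
    f (fun s => X g (v s)) = ((χ' g ^ n : Kˣ) : K) * f v

/-- a common subgroup for a family of forms -/
theorem pot_common {V : Type} [AddCommGroup V] [Module K V] [FiniteDimensional K V]
    {X : Γ' → V → V} {n : ℤ} {S : Type} [Finite S] {U : Type}
    (F : U → MultilinearMap K (fun _ : S => V) K) (h : ∀ u, PotBy χ' X n (F u)) :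
    ∃ Δ : Subgroup Γ', Δ.FiniteIndex ∧ ∀ u, ∀ g ∈ Δ, ∀ v,
      F u (fun s => X g (v s)) = ((χ' g ^ n : Kˣ) : K) * F u v := by
  classical
  have hfg : (Submodule.span K (Set.range F)).FG := IsNoetherian.noetherian _
  obtain ⟨s', hs', he⟩ := Submodule.fg_span_iff_fg_span_finset_subset _ |>.1 hfg
  have h1 : ∀ x : s', ∃ Δ : Subgroup Γ', Δ.FiniteIndex ∧ ∀ g ∈ Δ, ∀ v,
      (x : MultilinearMap K (fun _ : S => V) K) (fun s => X g (v s)) =
        ((χ' g ^ n : Kˣ) : K) * (x : MultilinearMap K (fun _ : S => V) K) v := by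
    intro x
    obtain ⟨u, hu⟩ := hs' x.2
    rw [← hu]
    exact h u
  choose Δ hΔ hx using h1
  refine ⟨⨅ x, Δ x, Subgroup.finiteIndex_iInf hΔ, fun u g hg v => ?_⟩
  have h2 : F u ∈ Submodule.span K (s' : Set (MultilinearMap K (fun _ : S => V) K)) := by
    rw [← he]
    exact Submodule.subset_span ⟨u, rfl⟩
  refine Submodule.span_induction (p := fun G _ => G (fun s => X g (v s)) =
    ((χ' g ^ n : Kˣ) : K) * G v) ?_ ?_ ?_ ?_ h2
  · intro x hx'
    exact hx ⟨x, hx'⟩ g ((Subgroup.mem_iInf.1 hg) _) v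
  · simp
  · intro x y _ _ hx hy
    rw [MultilinearMap.add_apply, MultilinearMap.add_apply, hx, hy, mul_add]
  · intro a x _ hx
    rw [MultilinearMap.smul_apply, MultilinearMap.smul_apply, hx, smul_eq_mul, smul_eq_mul]
    ring

/-- from `Fin` to any finite set -/
theorem pot_of_fin {N₀ : FRep K Γ} {X₀ : Γ' → N₀.V → N₀.V}
    (hN : ∀ (n : ℤ) (k : ℕ) (G : MultilinearMap K (fun _ : Fin k => N₀.V) K), SemiZ χ N₀ n G →
      PotBy χ' X₀ n G) {n : ℤ} {S : Type} [Finite S]
    {G : MultilinearMap K (fun _ : S => N₀.V) K} (hG : SemiZ χ N₀ n G) : PotBy χ' X₀ n G := by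
  classical
  have := Fintype.ofFinite S
  let e := Fintype.equivFin S
  obtain ⟨Δ, hΔ, hG⟩ := hG
  obtain ⟨Δ', hΔ', h1⟩ := hN n _ (G.domDomCongr e) ⟨Δ, hΔ, fun g hg v => hG g hg fun s => v (e s)⟩
  refine ⟨Δ', hΔ', fun g hg v => ?_⟩
  have h2 := h1 g hg fun s => v (e.symm s)
  have h3 : ∀ u : S → N₀.V, (G.domDomCongr e) (fun s => u (e.symm s)) = G u := by
    intro u
    change G (fun s => u (e.symm (e s))) = G u
    simp only [Equiv.symm_apply_apply]
  rw [h3] at h2
  rw [← h2]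
  exact (h3 fun s => X₀ g (v s)).symm

variable {ι : Type} [Fintype ι] [DecidableEq ι] {T : ι → FRep K Γ} {N₀ W : FRep K Γ} {m : ℕ}
  {M : Fin m → FRep K Γ} [CharZero K] [IsAlgClosed K]

/-- **The semi-invariant forms on the sum are semi-invariant for the second group.** -/
theorem core_trf (hgen : SpannedBy M N₀) {l : ι → Loc K Γ}
    (hT : ∀ j, MRep (l j) False (T j)) {w : ι → ℤ} (hw : ∀ j, (hT j).μ = χ ^ w j)
    (hiso : ∀ i j, i ≠ j → ¬IsoUpTo (T i) (T j)) (hM : ∀ i a, SpSmall (T i) (M a))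
    (d : Dec T N₀ W) {Δ₀ : Subgroup Γ'} (hΔ₀ : Δ₀.FiniteIndex) {XW : Γ' → Module.End K W.V}
    {X : ∀ j, Γ' → Module.End K (T j).V} {X₀ : Γ' → Module.End K N₀.V}
    (hX : ∀ g ∈ Δ₀, ∀ j x y,
      (hT j).B (X j g x) (X j g y) = ((χ' g ^ w j : Kˣ) : K) * (hT j).B x y)
    (hr : ∀ g ∈ Δ₀, ∀ p v, d.r p (XW g v) = X (d.c p) g (d.r p v))
    (hr₀ : ∀ g ∈ Δ₀, ∀ v, d.r₀ (XW g v) = X₀ g (d.r₀ v))
    (hN : ∀ (n : ℤ) (k : ℕ) (G : MultilinearMap K (fun _ : Fin k => N₀.V) K), SemiZ χ N₀ n G →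
      PotBy χ' (fun g x => X₀ g x) n G) {n : ℤ} {S : Type} [Fintype S]
    [DecidableEq S] {f : MultilinearMap K (fun _ : S => W.V) K} (hf : SemiZ χ W n f) :
    PotBy χ' (fun g x => XW g x) n f := by
  classical
  obtain ⟨κ, hD⟩ := exists_Dz (N₀ := N₀) hgen hT hw (fun i j hij _ => hiso i j hij)
    (fun i j _ h => absurd h id) (fun i j h => absurd h id)
    (fun i a => ⟨fun h => absurd h id, fun _ => hM i a⟩)
  have hcol : ∀ o : S → Option d.P, ∃ Δ : Subgroup Γ', Δ.FiniteIndex ∧ ∀ g ∈ Δ, ∀ v : S → W.V,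
      f (fun x => d.pr (o x) (XW g (v x))) =
        ((χ' g ^ n : Kˣ) : K) * f fun x => d.pr (o x) (v x) := by
    intro o
    have hk : KillS d f o fun j => (hT j).B := by
      intro i Y hY v
      obtain ⟨D, hDG, hDi, hDj, hDb, hDn⟩ := hD i Y hY
      have h1 := kill_HH d M κ χ hf hDG (hDn n) hDj hDb o v
      rw [hDi] at h1
      exact h1
    have h0 : ∀ v : S → W.V, HH d f o (fun s => et d (o s) (v s)) =
        f fun x => d.pr (o x) (v x) := by
      intro v
      rw [HH_apply]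
      congr 1
      funext s
      exact jj_et d _ _
    have h2 : ∀ g ∈ Δ₀, ∀ v : S → W.V, f (fun x => d.pr (o x) (XW g (v x))) =
        HH d f o (fun s => XU (fun j => X j g) (X₀ g) (et d (o s) (v s))) := by
      intro g hg v
      rw [← h0 fun x => XW g (v x)]
      refine HH_congr d f o fun x => ?_
      cases hox : o x with
      | some p =>
        change d.i p ((Pi.single (d.c p) (d.r p (XW g (v x))) : ∀ j, (T j).V) (d.c p)) =
          d.i p (X (d.c p) g ((Pi.single (d.c p) (d.r p (v x)) : ∀ j, (T j).V) (d.c p)))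
        rw [Pi.single_eq_same, Pi.single_eq_same, hr g hg]
      | none =>
        change d.i₀ (d.r₀ (XW g (v x))) = d.i₀ (X₀ g (d.r₀ (v x)))
        rw [hr₀ g hg]
    rcases facX (B := fun j => (hT j).B) (fun j => (hT j).alt id) (fun j => (hT j).nd) hk with
      h | ⟨a, h⟩
    · refine ⟨Δ₀, hΔ₀, fun g hg v => ?_⟩
      rw [h2 g hg, ← h0, h, h, mul_zero]
    · have hfi := d.fi
      obtain ⟨Δf, hΔf, hf⟩ := hf
      have hG : ∀ u : S → UU T N₀, SemiZ χ N₀ (n - ∑ j, w j * a j) (f0 d f o u) := by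
        intro u
        refine ⟨Δf ⊓ d.Δ, inferInstance, fun g hg y => ?_⟩
        have h3 : HH d f o (fun s => gU g (mk0 d o u y s)) =
            ((χ g ^ n : Kˣ) : K) * f0 d f o u y := by
          have hfg := hf g hg.1 fun s => jj d (o s) (mk0 d o u y s)
          rw [f0_apply, HH_apply, HH_apply]
          refine Eq.trans ?_ hfg
          congr 1
          funext s
          exact jj_gU d hg.2 _ _
        have h4 := gfinX_mk0 (d := d) (f := f) (o := o) (fun j => (T j).ρ g) (N₀.ρ g) u y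
        have h5 := h (fun j => (T j).ρ g) (fun j => ((χ g ^ w j : Kˣ) : K)) (fun j x z => by
          have h6 := (hT j).eqv g x z
          rw [hw j] at h6
          exact h6) (mk0 d o u fun s => N₀.ρ g (y s))
        have h6 : HH d f o (fun s => gU g (mk0 d o u y s)) =
            (∏ j, ((χ g ^ w j : Kˣ) : K) ^ a j) * f0 d f o u (fun s => N₀.ρ g (y s)) :=
          h4.trans h5
        rw [h3] at h6
        have h7 : (∏ j, ((χ g ^ w j : Kˣ) : K) ^ a j) =
            ((χ g ^ (∑ j, w j * a j) : Kˣ) : K) := by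
          rw [← prod_zp, Units.coe_prod]
          refine Finset.prod_congr rfl fun j _ => ?_
          rw [← Units.val_pow_eq_pow_val, zpow_mul, zpow_natCast]
        rw [h7] at h6
        have h8 : ((χ g ^ (∑ j, w j * a j) : Kˣ) : K) ≠ 0 := Units.ne_zero _
        change _ = ((χ g ^ (n - ∑ j, w j * a j) : Kˣ) : K) * _
        apply mul_left_cancel₀ h8
        rw [← h6, ← mul_assoc, ← Units.val_mul, ← zpow_add]
        congr 3
        ring
      obtain ⟨Δ₁, hΔ₁, h1⟩ := pot_common (χ' := χ') (X := fun g x => X₀ g x)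
        (fun u : S → UU T N₀ => f0 d f o u) fun u => pot_of_fin hN (hG u)
      refine ⟨Δ₀ ⊓ Δ₁, inferInstance, fun g hg v => ?_⟩
      rw [h2 g hg.1, ← h0]
      obtain ⟨u, hu⟩ : ∃ u : S → UU T N₀, u = fun s => et d (o s) (v s) := ⟨_, rfl⟩
      have hu' : (fun s => XU (fun j => X j g) (X₀ g) (et d (o s) (v s))) =
        fun s => XU (fun j => X j g) (X₀ g) (u s) := by rw [hu]
      rw [hu', ← hu]
      have h3 := h1 u g hg.2 (fun s => (u s).2)
      rw [mk0_self, gfinX_mk0, h (fun j => X j g) (fun j => ((χ' g ^ w j : Kˣ) : K))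
        (hX g hg.1), ← f0_apply]
      refine (congrArg (fun z => _ * z) h3).trans ?_
      rw [f0_self]
      have h7 : (∏ j, ((χ' g ^ w j : Kˣ) : K) ^ a j) =
          ((χ' g ^ (∑ j, w j * a j) : Kˣ) : K) := by
        rw [← prod_zp, Units.coe_prod]
        refine Finset.prod_congr rfl fun j _ => ?_
        rw [← Units.val_pow_eq_pow_val, zpow_mul, zpow_natCast]
      rw [h7, ← mul_assoc, ← Units.val_mul, ← zpow_add]
      congr 3
      ring
  choose Δ hΔ hc using hcol
  refine ⟨⨅ o, Δ o, Subgroup.finiteIndex_iInf hΔ, fun g hg v => ?_⟩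
  have hsum : ∀ v : S → W.V, f v = ∑ o : S → Option d.P, f fun s => d.pr (o s) (v s) := by
    intro v
    have h1 := f.map_sum (fun s (o : Option d.P) => d.pr o (v s))
    refine Eq.trans ?_ h1
    congr 1
    funext s
    exact (d.sum_pr (v s)).symm
  rw [hsum v, Finset.mul_sum, hsum fun s => XW g (v s)]
  exact Finset.sum_congr rfl fun o _ => hc o g ((Subgroup.mem_iInf.1 hg) o) v

end Pool.Agent.Q71.MM
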