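import Pool.Agent.Q71.MM.Trf2
import Pool.Agent.Q71.MM.P6

/-!
# Transfer to a second group: the final theorem
-/

set_option linter.unusedSectionVars false

namespace Pool.Agent.Q71.MM

open Module Finset Function Pool.Agent.TH118.SG Pool.Agent.TH125.Gal Pool.Agent.Y127.G
  Pool.Agent.Y127.C Pool.Agent.Q71.TM Pool.Agent.Q71.SP Pool.Agent.Q71.AB

variable {K : Type} [Field K] {Γ : Type} [Group Γ] {χ : Γ →* Kˣ} {Γ' : Type} [Group Γ']
  {χ' : Γ' →* Kˣ} {sp : Γ →* Γ'}

/-- a bilinear form as a form in two variables -/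
def biForm {V : Type} [AddCommGroup V] [Module K V] (β : V →ₗ[K] V →ₗ[K] K) :
    MultilinearMap K (fun _ : Fin 2 => V) K where
  toFun v := β (v 0) (v 1)
  map_update_add' := by
    intro inst v s x y
    have h : inst = instDecidableEqFin 2 := Subsingleton.elim _ _
    subst h
    fin_cases s
    · change β (update v 0 (x + y) 0) (update v 0 (x + y) 1) =
        β (update v 0 x 0) (update v 0 x 1) + β (update v 0 y 0) (update v 0 y 1)
      rw [update_self, update_self, update_self, update_of_ne (by decide),
        update_of_ne (by decide), update_of_ne (by decide), map_add, LinearMap.add_apply]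
    · change β (update v 1 (x + y) 0) (update v 1 (x + y) 1) =
        β (update v 1 x 0) (update v 1 x 1) + β (update v 1 y 0) (update v 1 y 1)
      rw [update_self, update_self, update_self, update_of_ne (by decide),
        update_of_ne (by decide), update_of_ne (by decide), map_add]
  map_update_smul' := by
    intro inst v s a x
    have h : inst = instDecidableEqFin 2 := Subsingleton.elim _ _
    subst h
    fin_cases s
    · change β (update v 0 (a • x) 0) (update v 0 (a • x) 1) =
        a • β (update v 0 x 0) (update v 0 x 1)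
      rw [update_self, update_self, update_of_ne (by decide), update_of_ne (by decide), map_smul,
        LinearMap.smul_apply]
    · change β (update v 1 (a • x) 0) (update v 1 (a • x) 1) =
        a • β (update v 1 x 0) (update v 1 x 1)
      rw [update_self, update_self, update_of_ne (by decide), update_of_ne (by decide), map_smul]

theorem biForm_apply {V : Type} [AddCommGroup V] [Module K V] (β : V →ₗ[K] V →ₗ[K] K)
    (v : Fin 2 → V) : biForm β v = β (v 0) (v 1) := rfl

/-- the decomposition of the product -/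
theorem exists_decT {J : Type} {T : J → FRep K Γ} {A : FRep K Γ} (hA : IsSumOf T A)
    (B : FRep K Γ) :
    ∃ (S : Set J) (_ : S.Finite) (d : Dec (fun j : S => T j) B (prod A B)),
      d.r₀ = LinearMap.snd K A.V B.V ∧ (∀ p x, d.r p x = d.r p (x.1, 0)) ∧
      (∀ p x, (d.i p x).2 = 0) ∧ ∀ j : S, ∃ p, d.c p = j := by
  classical
  obtain ⟨P, hP, c, e, Δ, hΔ, he⟩ := hA
  let c' : P → Set.range c := fun p => ⟨c p, p, rfl⟩
  have he' : ∀ g ∈ Δ, ∀ x, e (A.ρ g x) = fun p => (T (c p)).ρ g (e x p) :=
    fun g hg x => funext fun p => he g hg x p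
  refine ⟨Set.range c, Set.finite_range c,
    { P := P
      c := c'
      i := fun p => LinearMap.inl K A.V B.V ∘ₗ e.symm.toLinearMap ∘ₗ
        LinearMap.single K (fun p => (T (c p)).V) p
      r := fun p => LinearMap.proj p ∘ₗ e.toLinearMap ∘ₗ LinearMap.fst K A.V B.V
      i₀ := LinearMap.inr K A.V B.V
      r₀ := LinearMap.snd K A.V B.V
      ri := ?_
      ri₀ := fun x => rfl
      sum := ?_
      Δ := Δ
      fi := hΔ
      i_eqv := ?_
      r_eqv := ?_
      i₀_eqv := ?_
      r₀_eqv := ?_ }, rfl, fun p x => rfl, fun p x => rfl, ?_⟩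
  · intro p x
    change e (e.symm (Pi.single p x)) p = x
    rw [e.apply_symm_apply, Pi.single_eq_same]
  · intro w
    have h1 : ∑ p, (Pi.single p (e w.1 p) : ∀ p, (T (c p)).V) = e w.1 :=
      Finset.univ_sum_single (e w.1)
    have h2 : ∑ p, (e.symm (Pi.single p (e w.1 p)) : A.V) = w.1 := by
      rw [← map_sum, h1, e.symm_apply_apply]
    have h3 : ∑ p, ((e.symm (Pi.single p (e w.1 p)), 0) : A.V × B.V) = (w.1, 0) := by
      have h4 := map_sum (LinearMap.inl K A.V B.V) (fun p => e.symm (Pi.single p (e w.1 p))) univ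
      rw [h2] at h4
      exact h4.symm
    refine (congrArg (fun z : A.V × B.V => ((0, w.2) : A.V × B.V) + z) h3).trans ?_
    rw [Prod.mk_add_mk, zero_add, add_zero]
    rfl
  · intro g hg p x
    change ((e.symm (Pi.single p ((T (c p)).ρ g x)), 0) : A.V × B.V) =
      (A.ρ g (e.symm (Pi.single p x)), B.ρ g 0)
    rw [map_zero]
    congr 1
    apply e.injective
    rw [e.apply_symm_apply, he' g hg, e.apply_symm_apply]
    funext q
    by_cases hq : q = p
    · subst hq
      rw [Pi.single_eq_same, Pi.single_eq_same]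
    · rw [Pi.single_eq_of_ne hq, Pi.single_eq_of_ne hq, map_zero]
  · intro g hg p w
    exact he g hg w.1 p
  · intro g hg x
    change ((0, B.ρ g x) : A.V × B.V) = (A.ρ g 0, B.ρ g x)
    rw [map_zero]
  · intro g hg w
    rfl
  · rintro ⟨_, p, rfl⟩
    exact ⟨p, rfl⟩

theorem comap_fi (sp : Γ →* Γ') {Δ : Subgroup Γ'} (h : Δ.FiniteIndex) :
    (Δ.comap sp).FiniteIndex := by
  constructor
  rw [Subgroup.index_comap]
  exact fun h0 => h.index_ne_zero (Subgroup.index_eq_zero_of_relIndex_eq_zero h0)

theorem big_surj {M : P.Two K sp} (g : Γ') : Function.Surjective (M.big g) := by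
  intro x
  refine ⟨M.big g⁻¹ x, ?_⟩
  change (M.big g * M.big g⁻¹) x = x
  rw [← map_mul, mul_inv_cancel, map_one]
  rfl

variable [CharZero K] [IsAlgClosed K]

/-- **Transfer.** -/
theorem same_main (hχ : ∀ g, χ' (sp g) = χ g) {J : Type} {T : J → FRep K Γ} {A M : P.Two K sp}
    (hT : ∀ j, P.Full χ (T j))
    (hiso : ∀ i j, i ≠ j → ¬Pool.Agent.Q71.AB.P.PotIso K (Pool.Agent.Q71.AB.P.act (T i))
      (Pool.Agent.Q71.AB.P.act (T j)))
    (hA : Pool.Agent.Q71.AB.P.IsSumOf T A.rep)
    (hM : Pool.Agent.Q71.AB.P.HasPieces (fun U => ∀ j, P.AltSmall (T j) U) M.rep)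
    (hE : P.DivisorsExtend χ χ' (Pool.Agent.Q71.AB.P.act A.rep) (P.bact A)) :
    P.SameTate χ χ' (Pool.Agent.Q71.AB.P.prodAct (Pool.Agent.Q71.AB.P.act A.rep)
      (Pool.Agent.Q71.AB.P.act M.rep)) (Pool.Agent.Q71.AB.P.prodAct (P.bact A) (P.bact M)) ↔
    P.SameTate χ χ' (Pool.Agent.Q71.AB.P.act M.rep) (P.bact M) := by
  classical
  constructor
  · intro h k n f
    constructor
    · rintro ⟨Δ, hΔ, hf⟩
      obtain ⟨Δ', hΔ', h1⟩ := (h k n (f.compLinearMap fun _ => LinearMap.snd K A.rep.V M.rep.V)).1
        ⟨Δ, hΔ, fun g hg v => hf g hg fun s => (v s).2⟩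
      exact ⟨Δ', hΔ', fun g hg v => h1 g hg fun s => (0, v s)⟩
    · rintro ⟨Δ, hΔ, hf⟩
      refine ⟨Δ.comap sp, comap_fi sp hΔ, fun g hg v => ?_⟩
      rw [← hχ]
      refine Eq.trans ?_ (hf (sp g) hg v)
      congr 1
      funext s
      change _ = M.big (sp g) (v s)
      rw [M.compat]
      rfl
  · intro h k n f
    constructor
    swap
    · rintro ⟨Δ, hΔ, hf⟩
      refine ⟨Δ.comap sp, comap_fi sp hΔ, fun g hg v => ?_⟩
      rw [← hχ]
      refine Eq.trans ?_ (hf (sp g) hg v)
      congr 1
      funext s
      change _ = (A.big (sp g) (v s).1, M.big (sp g) (v s).2)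
      rw [M.compat, A.compat]
      rfl
    · intro hf
      obtain ⟨S, hS, d, hd0, hdr, hdi, hdc⟩ := exists_decT (brg_sum hA) M.rep
      obtain ⟨m, N, hN, hgen⟩ := brg_pieces hM fun U hU j => alt_small (hU j)
      have : Fintype S := hS.fintype
      have hTs : ∀ j, IsSymplectic χ (T j) := fun j => brg_symp (hT j).1
      choose b hb1 hb2 hb3 using fun j => (hTs j).form
      let hTm : ∀ j, MRep (.inertia 1) False (T j) := fun j =>
        { B := b j
          μ := χ ^ (1 : ℤ)
          eqv := fun g x y => by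
            change _ = ((χ g ^ (1 : ℤ) : Kˣ) : K) * _
            rw [zpow_one]
            exact hb3 j g x y
          nd := hb2 j
          si := (hTs j).irreducible
          sy := fun h => absurd h id
          orth := fun h => absurd h id
          alt := fun _ x y => by
            have h1 := hb1 j (x + y)
            rw [map_add, map_add, LinearMap.add_apply, LinearMap.add_apply, hb1 j x, hb1 j y,
              zero_add, add_zero] at h1
            exact eq_neg_of_add_eq_zero_right h1
          symp := fun _ => (hT j).2.elim brg_full_transv brg_full_slopes }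
      let r : ∀ p, A.rep.V →ₗ[K] (T (d.c p)).V := fun p =>
        d.r p ∘ₗ LinearMap.inl K A.rep.V M.rep.V
      let i : ∀ p, (T (d.c p)).V →ₗ[K] A.rep.V := fun p =>
        LinearMap.fst K A.rep.V M.rep.V ∘ₗ d.i p
      have hri : ∀ p x, r p (i p x) = x := by
        intro p x
        change d.r p ((d.i p x).1, 0) = x
        rw [← hdr, d.ri]
      have hrd : ∀ p (x : A.rep.V × M.rep.V), d.r p x = r p x.1 := fun p x => hdr p x
      have hreqv : ∀ g ∈ d.Δ, ∀ p x, r p (A.rep.ρ g x) = (T (d.c p)).ρ g (r p x) := by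
        intro g hg p x
        have h1 := d.r_eqv g hg p (x, 0)
        change d.r p (A.rep.ρ g x, M.rep.ρ g 0) = _ at h1
        rw [map_zero] at h1
        exact h1
      have hform : ∀ t : S × d.P × d.P, ∃ Δ : Subgroup Γ', Δ.FiniteIndex ∧ ∀ g ∈ Δ, ∀ x y,
          b t.1 (rr (T := fun j : S => (T j).V) r t.1 t.2.1 (A.big g x))
            (rr (T := fun j : S => (T j).V) r t.1 t.2.2 (A.big g y)) =
          (χ' g : K) * b t.1 (rr (T := fun j : S => (T j).V) r t.1 t.2.1 x)
            (rr (T := fun j : S => (T j).V) r t.1 t.2.2 y) := by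
        rintro ⟨j, p, q⟩
        have hfi := d.fi
        obtain ⟨Δ', hΔ', h1⟩ := hE (biForm ((b j).compl₁₂
          (rr (T := fun j : S => (T j).V) r j p) (rr (T := fun j : S => (T j).V) r j q)))
          ⟨d.Δ, d.fi, fun g hg v => by
            rw [biForm_apply, biForm_apply, zpow_one]
            change b j (rr (T := fun j : S => (T j).V) r j p (A.rep.ρ g (v 0)))
              (rr (T := fun j : S => (T j).V) r j q (A.rep.ρ g (v 1))) =
              _ * b j (rr (T := fun j : S => (T j).V) r j p (v 0))
                (rr (T := fun j : S => (T j).V) r j q (v 1))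
            have h2 : ∀ p x, rr (T := fun j : S => (T j).V) r j p (A.rep.ρ g x) =
                (T j).ρ g (rr (T := fun j : S => (T j).V) r j p x) := by
              intro p x
              change (Pi.single (d.c p) (r p (A.rep.ρ g x)) : ∀ j : S, (T j).V) j =
                (T j).ρ g ((Pi.single (d.c p) (r p x) : ∀ j : S, (T j).V) j)
              rw [hreqv g hg]
              by_cases hj : j = d.c p
              · subst hj
                rw [Pi.single_eq_same, Pi.single_eq_same]
              · rw [Pi.single_eq_of_ne hj, Pi.single_eq_of_ne hj, map_zero]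
            rw [h2, h2]
            exact hb3 j g _ _⟩
        refine ⟨Δ', hΔ', fun g hg x y => ?_⟩
        have h3 := h1 g hg ![x, y]
        rw [biForm_apply, biForm_apply, zpow_one] at h3
        exact h3
      choose Δ' hΔ' hform using hform
      choose p₀ hp₀ using hdc
      have key := core_trf (Γ' := Γ') (χ := χ) (χ' := χ') (M := N) hgen (fun j : S => hTm j)
        (w := fun _ => 1) (fun _ => rfl)
        (fun i j hij h => hiso i j (fun h' => hij (Subtype.ext h')) (brg_iso
          (potIso_of (hb2 i) (hb3 i) (hb2 j) (hb3 j) h)))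
        (fun j a => hN a j) d (Δ₀ := ⨅ t, Δ' t) (Subgroup.finiteIndex_iInf hΔ')
        (XW := fun g => (A.big g).prodMap (M.big g))
        (X := fun j g => rr (T := fun j : S => (T j).V) r j (p₀ j) ∘ₗ A.big g ∘ₗ
          ii (T := fun j : S => (T j).V) i j (p₀ j)) (X₀ := fun g => M.big g) ?_ ?_ ?_ ?_
        (n := n) (f := f) ?_
      · exact key
      · intro g hg j x y
        have h1 := (op_of_forms (T := fun j : S => (T j).V) (B := fun j : S => b j) hri
          (fun j => hb2 j) (big_surj (M := A) g) (m := (χ' g : K))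
          (fun j p q x y => hform (j, p, q) g ((Subgroup.mem_iInf.1 hg) _) x y)
          (hp₀ j)).1 x y
        rw [zpow_one]
        exact h1
      · intro g hg p v
        have h1 := (op_of_forms (T := fun j : S => (T j).V) (B := fun j : S => b j) hri
          (fun j => hb2 j) (big_surj (M := A) g) (m := (χ' g : K))
          (fun j p q x y => hform (j, p, q) g ((Subgroup.mem_iInf.1 hg) _) x y)
          (hp₀ (d.c p))).2 p rfl v.1
        rw [rr_self, rr_self] at h1
        rw [hrd, hrd]
        exact h1
      · intro g hg v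
        rw [hd0]
        rfl
      · intro n k G hG
        obtain ⟨Δ, hΔ, h1⟩ := (h k n G).1 (by
          obtain ⟨Δ, hΔ, h1⟩ := hG
          exact ⟨Δ, hΔ, h1⟩)
        exact ⟨Δ, hΔ, h1⟩
      · obtain ⟨Δ, hΔ, h1⟩ := hf
        exact ⟨Δ, hΔ, h1⟩

end Pool.Agent.Q71.MM
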